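import Mathlib

set_option autoImplicit false

open Finset

namespace Pool.Agent.H320R3.Morse

/-- Abstract data: top simplices, a height function, local coefficients, and the spanning
predicate. -/
structure Data (V : Type) [DecidableEq V] where
  T : Set (Finset V)
  S : Finset V → ℝ
  p : Finset V → V → ℝ
  Sp : Finset V → Prop
  card : ∀ σ ∈ T, σ.card = 6
  diff : ∀ σ ∈ T, ∀ σ' ∈ T, ∃ w : V → ℝ, (∀ X ∈ σ, 0 ≤ w X ∧ (w X = 0 ↔ X ∈ σ')) ∧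
    S σ' - S σ = ∑ X ∈ σ, p σ X * w X
  ne : ∀ σ ∈ T, ∀ X ∈ σ, p σ X ≠ 0
  nbr : ∀ σ ∈ T, ∀ X ∈ σ, ∃ σ' ∈ T, σ.erase X ⊆ σ' ∧ X ∉ σ'
  fin : ∀ L : ℝ, {σ | σ ∈ T ∧ S σ ≤ L}.Finite
  mono : ∀ τ τ' : Finset V, τ ⊆ τ' → Sp τ → Sp τ'
  finT : ∀ τ, Sp τ → {σ | σ ∈ T ∧ τ ⊆ σ}.Finite
  span : ∀ σ ∈ T, ∀ τ ⊆ σ, (∀ X ∈ σ, X ∉ τ → p σ X < 0) → Sp τ

variable {V : Type} [DecidableEq V] (D : Data V)

/-- Cells: spanning subsets of top simplices. -/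
def Cell (τ : Finset V) : Prop := D.Sp τ ∧ ∃ σ ∈ D.T, τ ⊆ σ

/-- `σ` is the top simplex of maximal height containing `τ`. -/
def IsMax (σ τ : Finset V) : Prop := σ ∈ D.T ∧ τ ⊆ σ ∧ ∀ X ∈ σ, X ∉ τ → D.p σ X < 0

variable {D}

lemma IsMax.cell {σ τ : Finset V} (h : IsMax D σ τ) : Cell D τ :=
  ⟨D.span σ h.1 τ h.2.1 h.2.2, σ, h.1, h.2.1⟩

lemma IsMax.le {σ τ : Finset V} (h : IsMax D σ τ) {σ' : Finset V} (h1 : σ' ∈ D.T) (h2 : τ ⊆ σ') :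
    D.S σ' ≤ D.S σ ∧ (D.S σ' = D.S σ → σ' = σ) := by
  obtain ⟨w, hw, hd⟩ := D.diff σ h.1 σ' h1
  have hterm : ∀ X ∈ σ, D.p σ X * w X ≤ 0 := by
    intro X hX
    by_cases hX' : X ∈ σ'
    · rw [((hw X hX).2).2 hX', mul_zero]
    · have h3 : X ∉ τ := fun h4 => hX' (h2 h4)
      exact mul_nonpos_of_nonpos_of_nonneg (h.2.2 X hX h3).le (hw X hX).1
  constructor
  · have := sum_nonpos hterm
    linarith
  · intro heq
    have h0 : ∑ X ∈ σ, D.p σ X * w X = 0 := by linarith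
    rw [sum_eq_zero_iff_of_nonpos hterm] at h0
    have hsub : σ ⊆ σ' := by
      intro X hX
      by_contra hX'
      have h3 : X ∉ τ := fun h4 => hX' (h2 h4)
      have h4 := h0 X hX
      rcases mul_eq_zero.1 h4 with h5 | h5
      · exact absurd h5 (h.2.2 X hX h3).ne
      · exact hX' (((hw X hX).2).1 h5)
    exact (eq_of_subset_of_card_le hsub (by rw [D.card σ h.1, D.card σ' h1])).symm

lemma IsMax.unique {σ σ' τ : Finset V} (h : IsMax D σ τ) (h' : IsMax D σ' τ) : σ = σ' := by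
  have h1 := h.le h'.1 h'.2.1
  have h2 := h'.le h.1 h.2.1
  exact (h1.2 (le_antisymm h1.1 h2.1)).symm

lemma Cell.exists_isMax {τ : Finset V} (h : Cell D τ) : ∃ σ, IsMax D σ τ := by
  obtain ⟨hs, σ₁, hσ₁, hτ₁⟩ := h
  obtain ⟨σ, hσ, hmax⟩ := Set.exists_max_image _ D.S (D.finT τ hs) ⟨σ₁, hσ₁, hτ₁⟩
  refine ⟨σ, hσ.1, hσ.2, fun X hX hXτ => ?_⟩
  obtain ⟨σ', hσ', hsub, hX'⟩ := D.nbr σ hσ.1 X hX
  have hτ' : τ ⊆ σ' := fun Y hY => hsub (mem_erase.2 ⟨fun e => hXτ (e ▸ hY), hσ.2 hY⟩)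
  have hle := hmax σ' ⟨hσ', hτ'⟩
  obtain ⟨w, hw, hd⟩ := D.diff σ hσ.1 σ' hσ'
  have hsum : ∑ Y ∈ σ, D.p σ Y * w Y = D.p σ X * w X := by
    refine sum_eq_single_of_mem X hX fun Y hY hYX => ?_
    rw [((hw Y hY).2).2 (hsub (mem_erase.2 ⟨hYX, hY⟩)), mul_zero]
  have hwX : 0 < w X := lt_of_le_of_ne (hw X hX).1 fun e => hX' (((hw X hX).2).1 e.symm)
  rcases lt_or_gt_of_ne (D.ne σ hσ.1 X hX) with h1 | h1
  · exact h1
  · have := mul_pos h1 hwX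
    linarith

/-- There is a unique top simplex without negative coefficient. -/
lemma exists_min (hT : D.T.Nonempty) :
    ∃ σ₀ ∈ D.T, (∀ X ∈ σ₀, 0 < D.p σ₀ X) ∧ (∀ σ ∈ D.T, D.S σ₀ ≤ D.S σ) ∧
      ∀ σ ∈ D.T, (∀ X ∈ σ, ¬ D.p σ X < 0) → σ = σ₀ := by
  obtain ⟨σ₁, hσ₁⟩ := hT
  obtain ⟨σ₀, hσ₀, hmin⟩ := Set.exists_min_image _ D.S (D.fin (D.S σ₁)) ⟨σ₁, hσ₁, le_rfl⟩
  have hmin' : ∀ σ ∈ D.T, D.S σ₀ ≤ D.S σ := by
    intro σ hσ
    by_cases h : D.S σ ≤ D.S σ₁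
    · exact hmin σ ⟨hσ, h⟩
    · exact hσ₀.2.trans (not_le.1 h).le
  have hpos : ∀ X ∈ σ₀, 0 < D.p σ₀ X := by
    intro X hX
    obtain ⟨σ', hσ', hsub, hX'⟩ := D.nbr σ₀ hσ₀.1 X hX
    obtain ⟨w, hw, hd⟩ := D.diff σ₀ hσ₀.1 σ' hσ'
    have hsum : ∑ Y ∈ σ₀, D.p σ₀ Y * w Y = D.p σ₀ X * w X := by
      refine sum_eq_single_of_mem X hX fun Y hY hYX => ?_
      rw [((hw Y hY).2).2 (hsub (mem_erase.2 ⟨hYX, hY⟩)), mul_zero]
    have hwX : 0 < w X := lt_of_le_of_ne (hw X hX).1 fun e => hX' (((hw X hX).2).1 e.symm)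
    rcases lt_or_gt_of_ne (D.ne σ₀ hσ₀.1 X hX) with h1 | h1
    · have := mul_neg_of_neg_of_pos h1 hwX
      have := hmin' σ' hσ'
      linarith
    · exact h1
  refine ⟨σ₀, hσ₀.1, hpos, hmin', fun σ hσ hn => ?_⟩
  -- both minimal
  obtain ⟨w, hw, hd⟩ := D.diff σ₀ hσ₀.1 σ hσ
  obtain ⟨w', hw', hd'⟩ := D.diff σ hσ σ₀ hσ₀.1
  have hterm' : ∀ X ∈ σ, 0 ≤ D.p σ X * w' X := fun X hX =>
    mul_nonneg (not_lt.1 (hn X hX)) (hw' X hX).1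
  have hterm : ∀ X ∈ σ₀, 0 ≤ D.p σ₀ X * w X := fun X hX =>
    mul_nonneg (hpos X hX).le (hw X hX).1
  have h1 := sum_nonneg hterm
  have h2 := sum_nonneg hterm'
  have h0 : ∑ X ∈ σ₀, D.p σ₀ X * w X = 0 := by linarith
  rw [sum_eq_zero_iff_of_nonneg hterm] at h0
  have hsub : σ₀ ⊆ σ := by
    intro X hX
    rcases mul_eq_zero.1 (h0 X hX) with h5 | h5
    · exact absurd h5 (hpos X hX).ne'
    · exact ((hw X hX).2).1 h5
  exact (eq_of_subset_of_card_le hsub (by rw [D.card σ hσ, D.card σ₀ hσ₀.1])).symm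

lemma exists_lower {σ : Finset V} (hσ : σ ∈ D.T) {X : V} (hX : X ∈ σ) (hp : D.p σ X < 0) :
    ∃ σ' ∈ D.T, D.S σ' < D.S σ := by
  obtain ⟨σ', hσ', hsub, hX'⟩ := D.nbr σ hσ X hX
  obtain ⟨w, hw, hd⟩ := D.diff σ hσ σ' hσ'
  have hsum : ∑ Y ∈ σ, D.p σ Y * w Y = D.p σ X * w X := by
    refine sum_eq_single_of_mem X hX fun Y hY hYX => ?_
    rw [((hw Y hY).2).2 (hsub (mem_erase.2 ⟨hYX, hY⟩)), mul_zero]
  have hwX : 0 < w X := lt_of_le_of_ne (hw X hX).1 fun e => hX' (((hw X hX).2).1 e.symm)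
  have := mul_neg_of_neg_of_pos hp hwX
  exact ⟨σ', hσ', by linarith⟩

open Classical in
/-- The maximal top simplex of a cell. -/
noncomputable def m (D : Data V) (τ : Finset V) : Finset V :=
  if h : Cell D τ then h.exists_isMax.choose else ∅

lemma Cell.isMax_m {τ : Finset V} (h : Cell D τ) : IsMax D (m D τ) τ := by
  unfold m
  rw [dif_pos h]
  exact h.exists_isMax.choose_spec

lemma IsMax.m_eq {σ τ : Finset V} (h : IsMax D σ τ) : m D τ = σ :=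
  h.cell.isMax_m.unique h

/-- The height of a cell. -/
noncomputable def lev (D : Data V) (τ : Finset V) : ℝ := D.S (m D τ)

open Classical in
/-- A chosen vertex with negative coefficient. -/
noncomputable def vsel [Inhabited V] (D : Data V) (σ : Finset V) : V :=
  if h : ∃ X ∈ σ, D.p σ X < 0 then h.choose else default

lemma vsel_spec [Inhabited V] {σ : Finset V} (h : ∃ X ∈ σ, D.p σ X < 0) :
    vsel D σ ∈ σ ∧ D.p σ (vsel D σ) < 0 := by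
  unfold vsel
  rw [dif_pos h]
  exact h.choose_spec

lemma IsMax.insert {σ τ : Finset V} (h : IsMax D σ τ) {X : V} (hX : X ∈ σ) :
    IsMax D σ (insert X τ) := by
  refine ⟨h.1, ?_, fun Y hY hYn => h.2.2 Y hY fun hY' => hYn (mem_insert_of_mem hY')⟩
  intro Y hY
  rcases mem_insert.1 hY with rfl | hY
  · exact hX
  · exact h.2.1 hY

lemma IsMax.erase {σ τ : Finset V} (h : IsMax D σ τ) {X : V} (hX : D.p σ X < 0) :
    IsMax D σ (τ.erase X) := by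
  refine ⟨h.1, (erase_subset _ _).trans h.2.1, fun Y hY hYn => ?_⟩
  by_cases hYX : Y = X
  · rw [hYX]; exact hX
  · exact h.2.2 Y hY fun hY' => hYn (mem_erase.2 ⟨hYX, hY'⟩)

/-- monotonicity of the level -/
lemma lev_anti {τ τ' : Finset V} (hτ : Cell D τ) (hτ' : Cell D τ') (h : τ ⊆ τ') :
    lev D τ' ≤ lev D τ ∧ (lev D τ' = lev D τ → m D τ' = m D τ) :=
  hτ.isMax_m.le hτ'.isMax_m.1 (h.trans hτ'.isMax_m.2.1)

end Pool.Agent.H320R3.Morse
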