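import Mathlib

set_option autoImplicit false

open Finset

namespace Pool.Agent.H320R3.Tuples

variable {V : Type} {k : Type} [Field k]

/-- Alternating functions of tuples. -/
def Alt {s : ℕ} (f : (Fin s → V) → k) : Prop :=
  ∀ (π : Equiv.Perm (Fin s)) (t : Fin s → V), f (t ∘ π) = ((Equiv.Perm.sign π : ℤ) : k) * f t

/-- The formal simplicial coboundary. -/
def cob {s : ℕ} (f : (Fin s → V) → k) (t : Fin (s + 1) → V) : k :=
  ∑ i : Fin (s + 1), (-1) ^ (i : ℕ) * f (i.removeNth t)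

lemma sgn_mul {s : ℕ} (π ρ : Equiv.Perm (Fin s)) :
    ((Equiv.Perm.sign (π * ρ) : ℤ) : k) =
      ((Equiv.Perm.sign π : ℤ) : k) * ((Equiv.Perm.sign ρ : ℤ) : k) := by
  rw [Equiv.Perm.sign_mul]
  push_cast
  rfl

lemma sgn_inv {s : ℕ} (π : Equiv.Perm (Fin s)) :
    ((Equiv.Perm.sign π⁻¹ : ℤ) : k) = ((Equiv.Perm.sign π : ℤ) : k) := by
  rw [Equiv.Perm.sign_inv]

lemma sgn_sq {s : ℕ} (π : Equiv.Perm (Fin s)) :
    ((Equiv.Perm.sign π : ℤ) : k) * ((Equiv.Perm.sign π : ℤ) : k) = 1 := by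
  rw [← sgn_mul]
  rcases Int.units_eq_one_or (Equiv.Perm.sign π) with h | h <;> simp [h]

lemma sgn_cycle {s : ℕ} (i : Fin (s + 1)) :
    ((Equiv.Perm.sign (i.cycleRange.symm : Equiv.Perm (Fin (s + 1))) : ℤ) : k) = (-1) ^ (i : ℕ) := by
  rw [Equiv.Perm.sign_symm, Fin.sign_cycleRange]
  push_cast
  rfl

lemma comp_cycle_succ {s : ℕ} (t : Fin (s + 1) → V) (i : Fin (s + 1)) :
    (t ∘ i.cycleRange.symm) ∘ Fin.succ = i.removeNth t := by
  rw [← Fin.cons_removeNth_eq_comp_cycleRange_symm]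
  funext j
  simp

lemma Alt.fix {s : ℕ} {f : (Fin s → V) → k} (hf : Alt f) (ρ : Equiv.Perm (Fin (s + 1)))
    (h0 : ρ 0 = 0) (t : Fin (s + 1) → V) :
    f ((t ∘ ρ) ∘ Fin.succ) = ((Equiv.Perm.sign ρ : ℤ) : k) * f (t ∘ Fin.succ) := by
  obtain ⟨⟨p, e⟩, rfl⟩ := Equiv.Perm.decomposeFin.symm.surjective ρ
  rw [Equiv.Perm.decomposeFin_symm_apply_zero] at h0
  subst h0
  rw [Equiv.Perm.decomposeFin.symm_sign]
  simp only [if_true, one_mul]
  rw [← hf e (t ∘ Fin.succ)]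
  refine congrArg f ?_
  funext j
  simp only [Function.comp_apply, Equiv.Perm.decomposeFin_symm_apply_succ, Equiv.swap_self,
    Equiv.refl_apply]

lemma alt_cob {s : ℕ} {f : (Fin s → V) → k} (hf : Alt f) : Alt (cob f) := by
  intro π t
  have key : ∀ (t : Fin (s + 1) → V), cob f t = ∑ i : Fin (s + 1),
      ((Equiv.Perm.sign (i.cycleRange.symm : Equiv.Perm (Fin (s + 1))) : ℤ) : k) *
        f ((t ∘ i.cycleRange.symm) ∘ Fin.succ) := by
    intro t
    unfold cob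
    refine sum_congr rfl fun i _ => ?_
    rw [sgn_cycle, comp_cycle_succ]
  rw [key, key, mul_sum]
  rw [← Equiv.sum_comp π (fun i => ((Equiv.Perm.sign π : ℤ) : k) *
    (((Equiv.Perm.sign (i.cycleRange.symm : Equiv.Perm (Fin (s + 1))) : ℤ) : k) *
        f ((t ∘ i.cycleRange.symm) ∘ Fin.succ)))]
  refine sum_congr rfl fun i _ => ?_
  let c : Equiv.Perm (Fin (s + 1)) := i.cycleRange.symm
  let c' : Equiv.Perm (Fin (s + 1)) := (π i).cycleRange.symm
  let ρ : Equiv.Perm (Fin (s + 1)) := c'⁻¹ * π * c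
  have h0 : ρ 0 = 0 := by
    simp only [ρ, c, c', Equiv.Perm.mul_apply, Fin.cycleRange_symm_zero]
    change (π i).cycleRange (π i) = 0
    exact Fin.cycleRange_self _
  have h1 : (t ∘ π) ∘ c = (t ∘ c') ∘ ρ := by
    funext j
    simp only [Function.comp_apply, ρ, Equiv.Perm.mul_apply]
    change t (π (c j)) = t (c' (c'.symm (π (c j))))
    rw [Equiv.apply_symm_apply]
  have h2 := hf.fix ρ h0 (t ∘ c')
  change ((Equiv.Perm.sign c : ℤ) : k) * f (((t ∘ π) ∘ c) ∘ Fin.succ) =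
    ((Equiv.Perm.sign π : ℤ) : k) * (((Equiv.Perm.sign c' : ℤ) : k) * f ((t ∘ c') ∘ Fin.succ))
  rw [h1, h2]
  have h3 : ((Equiv.Perm.sign ρ : ℤ) : k) = ((Equiv.Perm.sign c' : ℤ) : k) *
      ((Equiv.Perm.sign π : ℤ) : k) * ((Equiv.Perm.sign c : ℤ) : k) := by
    rw [sgn_mul, sgn_mul, sgn_inv]
  rw [h3]
  have h4 := sgn_sq (k := k) c
  linear_combination (((Equiv.Perm.sign c' : ℤ) : k) *
      ((Equiv.Perm.sign π : ℤ) : k) * f ((t ∘ c') ∘ Fin.succ)) * h4

lemma cob_cob {s : ℕ} (f : (Fin s → V) → k) (t : Fin (s + 2) → V) : cob (cob f) t = 0 := by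
  unfold cob
  simp_rw [mul_sum]
  rw [Finset.sum_sigma' univ (fun _ : Fin (s + 2) => (univ : Finset (Fin (s + 1))))
    (fun i j => (-1 : k) ^ (i : ℕ) * ((-1) ^ (j : ℕ) * f (j.removeNth (i.removeNth t))))]
  refine sum_involution (fun x _ => ⟨x.1.succAbove x.2, x.2.predAbove x.1⟩) ?_ ?_ ?_ ?_
  · rintro ⟨i, j⟩ -
    simp only
    rw [Fin.removeNth_removeNth_eq_swap t j i]
    have h := Fin.neg_one_pow_succAbove_add_predAbove (R := k) i j
    rw [pow_add, pow_add] at h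
    linear_combination (f ((j.predAbove i).removeNth ((i.succAbove j).removeNth t))) * h
  · rintro ⟨i, j⟩ - - h
    simp only [Sigma.mk.injEq] at h
    exact Fin.succAbove_ne i j h.1
  · rintro ⟨i, j⟩ -
    simp
  · rintro ⟨i, j⟩ -
    simp only [Fin.succAbove_succAbove_predAbove, Fin.predAbove_predAbove_succAbove]

lemma cob_cons {s : ℕ} (f : (Fin (s + 1) → V) → k) (v : V) (t : Fin (s + 1) → V) :
    cob f (Fin.cons v t) = f t - ∑ i : Fin (s + 1), (-1) ^ (i : ℕ) * f (Fin.cons v (i.removeNth t)) := by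
  unfold cob
  rw [Fin.sum_univ_succ]
  have h1 : Fin.removeNth (0 : Fin (s + 2)) (Fin.cons v t : Fin (s + 2) → V) = t := by
    funext j
    simp [Fin.removeNth]
  rw [h1]
  simp only [Fin.val_zero, pow_zero, one_mul, Fin.val_succ]
  rw [sub_eq_add_neg, ← sum_neg_distrib]
  congr 1
  refine sum_congr rfl fun i _ => ?_
  have h2 : Fin.removeNth i.succ (Fin.cons v t : Fin (s + 2) → V) =
      Fin.cons v (i.removeNth t) := by
    funext j
    refine Fin.cases ?_ (fun j => ?_) j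
    · simp [Fin.removeNth]
    · simp [Fin.removeNth]
  rw [h2, pow_succ]
  ring

/-- moving an entry to the front -/
lemma Alt.front {s : ℕ} {f : (Fin (s + 1) → V) → k} (hf : Alt f) (t : Fin (s + 1) → V)
    (i : Fin (s + 1)) : (-1) ^ (i : ℕ) * f (Fin.cons (t i) (i.removeNth t)) = f t := by
  rw [Fin.cons_removeNth_eq_comp_cycleRange_symm]
  have := hf i.cycleRange.symm t
  change f (t ∘ ⇑(i.cycleRange.symm : Equiv.Perm (Fin (s + 1)))) = _ at this
  rw [this, sgn_cycle, ← mul_assoc, ← mul_pow]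
  simp

lemma Alt.cons {s : ℕ} {f : (Fin (s + 1) → V) → k} (hf : Alt f) (v : V) :
    Alt (fun t : Fin s → V => f (Fin.cons v t)) := by
  intro π t
  have h := hf (Equiv.Perm.decomposeFin.symm (0, π)) (Fin.cons v t)
  rw [Equiv.Perm.decomposeFin.symm_sign] at h
  simp only [if_true, one_mul] at h
  change f (Fin.cons v (t ∘ π)) = _
  rw [← h]
  refine congrArg f ?_
  funext j
  refine Fin.cases ?_ (fun j => ?_) j
  · simp
  · simp

end Pool.Agent.H320R3.Tuples
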