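import Mathlib
import Pool.Agent.H320R3.Morse
import Pool.Agent.H320R3.Tuples

set_option autoImplicit false

open Finset

namespace Pool.Agent.H320R3.Cochains

open Morse Tuples

variable {V : Type} [DecidableEq V] (D : Data V) {k : Type} [Field k]

/-- The set of entries of a tuple. -/
def rng {s : ℕ} (t : Fin s → V) : Finset V := univ.image t

lemma mem_rng {s : ℕ} (t : Fin s → V) (X : V) : X ∈ rng t ↔ ∃ i, t i = X := by
  simp [rng]

lemma rng_perm {s : ℕ} (t : Fin s → V) (π : Equiv.Perm (Fin s)) : rng (t ∘ π) = rng t := by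
  ext X
  rw [mem_rng, mem_rng]
  constructor
  · rintro ⟨i, rfl⟩
    exact ⟨π i, rfl⟩
  · rintro ⟨i, rfl⟩
    exact ⟨π.symm i, by simp⟩

lemma rng_cons {s : ℕ} (v : V) (t : Fin s → V) :
    rng (Fin.cons v t : Fin (s + 1) → V) = insert v (rng t) := by
  ext X
  rw [mem_rng, mem_insert, mem_rng]
  constructor
  · rintro ⟨i, rfl⟩
    refine Fin.cases ?_ (fun j => ?_) i
    · left; simp
    · right; exact ⟨j, by simp⟩
  · rintro (rfl | ⟨j, rfl⟩)
    · exact ⟨0, by simp⟩
    · exact ⟨j.succ, by simp⟩

lemma rng_removeNth_subset {s : ℕ} (t : Fin (s + 1) → V) (i : Fin (s + 1)) :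
    rng (i.removeNth t) ⊆ rng t := by
  intro X hX
  rw [mem_rng] at hX ⊢
  obtain ⟨j, rfl⟩ := hX
  exact ⟨_, rfl⟩

lemma rng_removeNth {s : ℕ} {t : Fin (s + 1) → V} (ht : Function.Injective t) (i : Fin (s + 1)) :
    rng (i.removeNth t) = (rng t).erase (t i) := by
  ext X
  rw [mem_rng, mem_erase, mem_rng]
  constructor
  · rintro ⟨j, rfl⟩
    exact ⟨fun e => Fin.succAbove_ne i j (ht e), _, rfl⟩
  · rintro ⟨hne, j, rfl⟩
    have hj : j ≠ i := fun e => hne (by rw [e])
    obtain ⟨l, rfl⟩ := Fin.exists_succAbove_eq hj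
    exact ⟨l, rfl⟩

lemma card_rng {s : ℕ} {t : Fin s → V} (ht : Function.Injective t) : (rng t).card = s := by
  rw [rng, card_image_of_injective _ ht, card_univ, Fintype.card_fin]

/-- Injective tuples whose entries form a cell. -/
def OK {s : ℕ} (t : Fin s → V) : Prop := Function.Injective t ∧ Cell D (rng t)

lemma OK_perm {s : ℕ} (t : Fin s → V) (π : Equiv.Perm (Fin s)) : OK D (t ∘ π) ↔ OK D t := by
  unfold OK
  rw [rng_perm]
  constructor
  · rintro ⟨h1, h2⟩
    refine ⟨?_, h2⟩
    have := h1.comp π.symm.injective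
    rwa [Function.comp_assoc, Equiv.self_comp_symm, Function.comp_id] at this
  · rintro ⟨h1, h2⟩
    exact ⟨h1.comp π.injective, h2⟩

lemma inj_removeNth {s : ℕ} {t : Fin (s + 1) → V} (ht : Function.Injective t) (i : Fin (s + 1)) :
    Function.Injective (i.removeNth t) :=
  ht.comp Fin.succAbove_right_injective

variable (k) in
/-- Finitely supported alternating cochains on cells. -/
def A (s : ℕ) : Submodule k ((Fin s → V) → k) where
  carrier := {f | (Function.support f).Finite ∧ (∀ t, f t ≠ 0 → OK D t) ∧ Alt f}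
  add_mem' := by
    rintro f g ⟨h1, h2, h3⟩ ⟨h1', h2', h3'⟩
    refine ⟨(h1.union h1').subset (Function.support_add f g), fun t ht => ?_, fun π t => ?_⟩
    · by_cases hf : f t = 0
      · refine h2' t fun hg => ht ?_
        simp [hf, hg]
      · exact h2 t hf
    · simp only [Pi.add_apply, h3 π t, h3' π t]
      ring
  zero_mem' := by
    refine ⟨?_, fun t ht => absurd rfl ht, fun π t => ?_⟩
    · simp
    · simp
  smul_mem' := by
    rintro c f ⟨h1, h2, h3⟩
    refine ⟨h1.subset (Function.support_const_smul_subset c f), fun t ht => h2 t fun hf => ht ?_,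
      fun π t => ?_⟩
    · simp [hf]
    · simp only [Pi.smul_apply, h3 π t, smul_eq_mul]
      ring

variable {D}

lemma A_fin {s : ℕ} (f : A D k s) : (Function.support f.1).Finite := f.2.1

lemma A_ok {s : ℕ} (f : A D k s) {t : Fin s → V} (h : f.1 t ≠ 0) : OK D t := f.2.2.1 t h

lemma A_alt {s : ℕ} (f : A D k s) : Alt f.1 := f.2.2.2

lemma cob_ne {s : ℕ} {f : (Fin s → V) → k} {t : Fin (s + 1) → V} (h : cob f t ≠ 0) :
    ∃ i : Fin (s + 1), f (i.removeNth t) ≠ 0 := by
  by_contra hc
  push Not at hc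
  exact h (by unfold cob; simp [hc])

open Classical in
variable (D k) in
/-- The differential. -/
noncomputable def del (s : ℕ) : A D k s →ₗ[k] A D k (s + 1) where
  toFun f := ⟨fun t => if OK D t then cob f.1 t else 0, by
    refine ⟨?_, ?_, ?_⟩
    · have hfin : (⋃ t' ∈ Function.support f.1, ⋃ i : Fin (s + 1),
          ⋃ σ ∈ {σ | σ ∈ D.T ∧ rng t' ⊆ σ}, ⋃ X ∈ σ,
            {(i.insertNth X t' : Fin (s + 1) → V)}).Finite := by
        refine (A_fin f).biUnion fun t' ht' => ?_
        refine Set.finite_iUnion fun i => ?_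
        refine (D.finT _ (A_ok f ht').2.1).biUnion fun σ _ => ?_
        exact σ.finite_toSet.biUnion fun X _ => Set.finite_singleton _
      refine hfin.subset fun t ht => ?_
      rw [Function.mem_support] at ht
      by_cases hok : OK D t
      · rw [if_pos hok] at ht
        obtain ⟨i, hi⟩ := cob_ne ht
        obtain ⟨σ, hσ, hsub⟩ := hok.2.2
        simp only [Set.mem_iUnion]
        refine ⟨i.removeNth t, hi, i, σ, ⟨hσ, (rng_removeNth_subset t i).trans hsub⟩, t i,
          hsub ((mem_rng _ _).2 ⟨i, rfl⟩), ?_⟩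
        simp
      · rw [if_neg hok] at ht
        exact absurd rfl ht
    · intro t ht
      by_contra hok
      exact ht (if_neg hok)
    · intro π t
      simp only [OK_perm]
      by_cases hok : OK D t
      · rw [if_pos hok, if_pos hok, alt_cob (A_alt f) π t]
      · rw [if_neg hok, if_neg hok, mul_zero]⟩
  map_add' f g := by
    ext t
    simp only [Submodule.coe_add, Pi.add_apply]
    by_cases hok : OK D t
    · simp only [if_pos hok, cob, Pi.add_apply, mul_add, sum_add_distrib]
    · simp only [if_neg hok, add_zero]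
  map_smul' c f := by
    ext t
    simp only [Submodule.coe_smul, Pi.smul_apply, smul_eq_mul, RingHom.id_apply]
    by_cases hok : OK D t
    · simp only [if_pos hok, cob, Pi.smul_apply, smul_eq_mul, mul_sum]
      refine sum_congr rfl fun i _ => ?_
      ring
    · simp only [if_neg hok, mul_zero]

lemma del_ok {s : ℕ} (f : A D k s) {t : Fin (s + 1) → V} (h : OK D t) :
    (del D k s f).1 t = cob f.1 t := if_pos h

lemma del_not {s : ℕ} (f : A D k s) {t : Fin (s + 1) → V} (h : ¬ OK D t) :
    (del D k s f).1 t = 0 := if_neg h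

lemma del_face {s : ℕ} (f : A D k s) {t : Fin (s + 2) → V} (h : OK D t) (i : Fin (s + 2)) :
    (del D k s f).1 (i.removeNth t) = cob f.1 (i.removeNth t) := by
  by_cases hok : OK D (i.removeNth t)
  · exact del_ok f hok
  · rw [del_not f hok]
    symm
    by_contra hne
    obtain ⟨j, hj⟩ := cob_ne hne
    have h1 := A_ok f hj
    refine hok ⟨inj_removeNth h.1 i, D.mono _ _ (rng_removeNth_subset _ j) h1.2.1, ?_⟩
    obtain ⟨σ, hσ, hsub⟩ := h.2.2
    exact ⟨σ, hσ, (rng_removeNth_subset t i).trans hsub⟩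

lemma cob_del {s : ℕ} (f : A D k s) {t : Fin (s + 2) → V} (h : OK D t) :
    cob (del D k s f).1 t = 0 := by
  rw [← cob_cob f.1 t]
  unfold cob
  refine sum_congr rfl fun i _ => ?_
  rw [del_face f h i]
  rfl

lemma del_del {s : ℕ} (f : A D k s) : del D k (s + 1) (del D k s f) = 0 := by
  ext t
  by_cases hok : OK D t
  · rw [del_ok _ hok, cob_del f hok]
    rfl
  · rw [del_not _ hok]
    rfl

/-! ### Exactness -/

variable [Inhabited V]

open Classical in
/-- The contraction at level `L`. -/
noncomputable def con (D : Data V) {s : ℕ} (L : ℝ) (f : (Fin (s + 1) → V) → k) (t : Fin s → V) : k :=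
  if OK D t ∧ lev D (rng t) = L ∧ vsel D (m D (rng t)) ∉ rng t then
    f (Fin.cons (vsel D (m D (rng t))) t) else 0

lemma con_mem {s : ℕ} (L : ℝ) (f : A D k (s + 1)) : con D L f.1 ∈ A D k s := by
  refine ⟨?_, ?_, ?_⟩
  · refine ((A_fin f).image Fin.tail).subset fun t ht => ?_
    rw [Function.mem_support] at ht
    unfold con at ht
    split_ifs at ht with h
    · exact ⟨_, ht, Fin.tail_cons _ _⟩
    · exact absurd rfl ht
  · intro t ht
    unfold con at ht
    split_ifs at ht with h
    · exact h.1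
    · exact absurd rfl ht
  · intro π t
    unfold con
    have e : (OK D (t ∘ π) ∧ lev D (rng (t ∘ π)) = L ∧
        vsel D (m D (rng (t ∘ π))) ∉ rng (t ∘ π)) ↔
        (OK D t ∧ lev D (rng t) = L ∧ vsel D (m D (rng t)) ∉ rng t) := by
      rw [OK_perm, rng_perm]
    by_cases h : OK D t ∧ lev D (rng t) = L ∧ vsel D (m D (rng t)) ∉ rng t
    · rw [if_pos (e.2 h), if_pos h, rng_perm]
      exact (A_alt f).cons _ π t
    · rw [if_neg (fun h' => h (e.1 h')), if_neg h, mul_zero]

/-- the inductive step -/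
lemma con_step {s : ℕ} (f : A D k (s + 1)) (L : ℝ)
    (hL : ∀ t, f.1 t ≠ 0 → lev D (rng t) ≤ L)
    (H : ∀ (t : Fin (s + 1) → V) (v : V), OK D t → v ∈ m D (rng t) → v ∉ rng t →
      cob f.1 (Fin.cons v t) = 0) (t : Fin (s + 1) → V) (ht : OK D t) :
    (L < lev D (rng t) → cob (con D L f.1) t = 0) ∧
    (lev D (rng t) = L → (∃ X ∈ m D (rng t), D.p (m D (rng t)) X < 0) →
      cob (con D L f.1) t = f.1 t) := by
  constructor
  · intro hlt
    by_contra hne
    obtain ⟨i, hi⟩ := cob_ne hne
    unfold con at hi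
    split_ifs at hi with h
    · have := (lev_anti h.1.2 ht.2 (rng_removeNth_subset t i)).1
      linarith [h.2.1]
    · exact hi rfl
  · intro hlev hneg
    set σ := m D (rng t) with hσ
    set v := vsel D σ with hv
    obtain ⟨hvσ, hvp⟩ := vsel_spec hneg
    have hmax : IsMax D σ (rng t) := ht.2.isMax_m
    by_cases hvt : v ∈ rng t
    · obtain ⟨i0, hi0⟩ := (mem_rng _ _).1 hvt
      unfold cob
      rw [sum_eq_single i0]
      · have herase : IsMax D σ (rng (i0.removeNth t)) := by
          rw [rng_removeNth ht.1, hi0]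
          exact hmax.erase hvp
        have hm : m D (rng (i0.removeNth t)) = σ := herase.m_eq
        have hcond : OK D (i0.removeNth t) ∧ lev D (rng (i0.removeNth t)) = L ∧
            vsel D (m D (rng (i0.removeNth t))) ∉ rng (i0.removeNth t) := by
          refine ⟨⟨inj_removeNth ht.1 i0, herase.cell⟩, ?_, ?_⟩
          · unfold lev at hlev ⊢
            rw [hm, ← hlev]
          · rw [hm, rng_removeNth ht.1, ← hv, hi0]
            exact notMem_erase _ _
        unfold con
        rw [if_pos hcond, hm, ← hv, ← hi0]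
        exact (A_alt f).front t i0
      · intro i _ hi
        have : con D L f.1 (i.removeNth t) = 0 := by
          unfold con
          rw [if_neg]
          rintro ⟨h1, h2, h3⟩
          have h4 := (lev_anti h1.2 ht.2 (rng_removeNth_subset t i)).2 (by rw [h2, hlev])
          rw [← h4] at h3
          refine h3 ?_
          rw [rng_removeNth ht.1, mem_erase]
          refine ⟨fun e => hi ?_, hvt⟩
          exact ht.1 (by rw [hi0]; exact e.symm)
        rw [this, mul_zero]
      · intro h
        exact absurd (mem_univ _) h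
    · have key : ∀ i : Fin (s + 1), con D L f.1 (i.removeNth t) =
          f.1 (Fin.cons v (i.removeNth t)) := by
        intro i
        unfold con
        split_ifs with h
        · have h4 := (lev_anti h.1.2 ht.2 (rng_removeNth_subset t i)).2 (by rw [h.2.1, hlev])
          rw [← h4]
        · symm
          by_contra hne
          apply h
          have hok := A_ok f hne
          have hle := hL _ hne
          have hsub : rng (Fin.cons v (i.removeNth t) : Fin (s + 1) → V) ⊆ σ := by
            rw [rng_cons]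
            intro X hX
            rcases mem_insert.1 hX with rfl | hX
            · exact hvσ
            · exact hmax.2.1 (rng_removeNth_subset t i hX)
          have h5 := hok.2.isMax_m.le hmax.1 hsub
          have h6 : D.S σ = L := hlev
          have h7 : lev D (rng (Fin.cons v (i.removeNth t) : Fin (s + 1) → V)) = L :=
            le_antisymm hle (by rw [← h6]; exact h5.1)
          have h8 := h5.2 (by rw [h6]; exact h7.symm)
          have h9 : IsMax D σ (rng (Fin.cons v (i.removeNth t) : Fin (s + 1) → V)) := by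
            have := hok.2.isMax_m
            rwa [← h8] at this
          have hvn : v ∉ rng (i.removeNth t) := fun h' => hvt (rng_removeNth_subset t i h')
          have h10 : IsMax D σ (rng (i.removeNth t)) := by
            have := h9.erase hvp
            rwa [rng_cons, erase_insert hvn] at this
          have hm := h10.m_eq
          refine ⟨⟨inj_removeNth ht.1 i, h10.cell⟩, ?_, ?_⟩
          · unfold lev
            rw [hm, h6]
          · rw [hm]
            exact hvn
      have h1 := cob_cons f.1 v t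
      rw [H t v ht hvσ hvt] at h1
      have h2 : cob (con D L f.1) t = ∑ i : Fin (s + 1),
          (-1) ^ (i : ℕ) * f.1 (Fin.cons v (i.removeNth t)) := by
        unfold cob
        exact sum_congr rfl fun i _ => by rw [key i]
      rw [h2]
      linear_combination h1

theorem reduce {s : ℕ} (hT : D.T.Nonempty) : ∀ (n : ℕ) (f : A D k (s + 1)) (L : ℝ),
    (∀ t, f.1 t ≠ 0 → lev D (rng t) ≤ L) →
    (∀ (t : Fin (s + 1) → V) (v : V), OK D t → v ∈ m D (rng t) → v ∉ rng t →
      cob f.1 (Fin.cons v t) = 0) →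
    {σ | σ ∈ D.T ∧ D.S σ ≤ L}.ncard ≤ n →
    ∃ g : A D k s, ∀ t, (f - del D k s g).1 t ≠ 0 → ∀ X ∈ m D (rng t), ¬ D.p (m D (rng t)) X < 0 := by
  intro n
  induction n with
  | zero =>
    intro f L hL H hn
    refine ⟨0, fun t ht => ?_⟩
    rw [map_zero, sub_zero] at ht
    exfalso
    have h1 := hL t ht
    have h2 : m D (rng t) ∈ {σ | σ ∈ D.T ∧ D.S σ ≤ L} := ⟨(A_ok f ht).2.isMax_m.1, h1⟩
    have h3 := (Set.ncard_eq_zero (D.fin L)).1 (Nat.le_zero.1 hn)
    rw [h3] at h2
    exact h2
  | succ n ih =>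
    intro f L hL H hn
    by_cases hf : f = 0
    · refine ⟨0, fun t ht => ?_⟩
      rw [map_zero, sub_zero, hf] at ht
      exact absurd rfl ht
    -- the top level of f
    obtain ⟨t₁, ht₁⟩ : ∃ t, f.1 t ≠ 0 := by
      by_contra hc
      push Not at hc
      exact hf (by ext t; exact hc t)
    obtain ⟨t₀, ht₀, hmax⟩ := Set.exists_max_image _ (fun t => lev D (rng t)) (A_fin f)
      ⟨t₁, ht₁⟩
    set L₀ := lev D (rng t₀) with hL₀
    have hL₀' : ∀ t, f.1 t ≠ 0 → lev D (rng t) ≤ L₀ := fun t ht => hmax t ht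
    have step := con_step f L₀ hL₀' H
    let g₀ : A D k s := ⟨con D L₀ f.1, con_mem L₀ f⟩
    let f' : A D k (s + 1) := f - del D k s g₀
    have hf'val : ∀ t, OK D t → f'.1 t = f.1 t - cob (con D L₀ f.1) t := by
      intro t ht
      change f.1 t - (del D k s g₀).1 t = _
      rw [del_ok _ ht]
    have hf'lev : ∀ t, f'.1 t ≠ 0 → lev D (rng t) < L₀ ∨
        (lev D (rng t) = L₀ ∧ ∀ X ∈ m D (rng t), ¬ D.p (m D (rng t)) X < 0) := by
      intro t ht
      have hok := A_ok f' ht
      rw [hf'val t hok] at ht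
      rcases lt_trichotomy (lev D (rng t)) L₀ with h | h | h
      · exact Or.inl h
      · right
        refine ⟨h, ?_⟩
        by_contra hc
        push Not at hc
        exact ht (by rw [(step t hok).2 h hc, sub_self])
      · exfalso
        rw [(step t hok).1 h, sub_zero] at ht
        exact absurd (hL₀' t ht) (not_le.2 h)
    have H' : ∀ (t : Fin (s + 1) → V) (v : V), OK D t → v ∈ m D (rng t) → v ∉ rng t →
        cob f'.1 (Fin.cons v t) = 0 := by
      intro t v ht hv hvt
      have h1 := H t v ht hv hvt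
      have hok : OK D (Fin.cons v t : Fin (s + 2) → V) := by
        refine ⟨?_, ?_⟩
        · rw [Fin.cons_injective_iff]
          refine ⟨fun ⟨j, hj⟩ => hvt ((mem_rng _ _).2 ⟨j, hj⟩), ht.1⟩
        · rw [rng_cons]
          exact (ht.2.isMax_m.insert hv).cell
      have h2 := cob_del g₀ hok
      have h3 : cob f'.1 (Fin.cons v t) = cob f.1 (Fin.cons v t) -
          cob (del D k s g₀).1 (Fin.cons v t) := by
        unfold cob
        rw [← sum_sub_distrib]
        refine sum_congr rfl fun i _ => ?_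
        rw [← mul_sub]
        rfl
      rw [h3, h1, h2, sub_zero]
    by_cases hcase : ∃ t, f'.1 t ≠ 0 ∧ lev D (rng t) = L₀
    · refine ⟨g₀, fun t ht => ?_⟩
      obtain ⟨t₂, ht₂, hlev₂⟩ := hcase
      have h1 : ∀ X ∈ m D (rng t₂), ¬ D.p (m D (rng t₂)) X < 0 := by
        rcases hf'lev t₂ ht₂ with h | h
        · exact absurd hlev₂ h.ne
        · exact h.2
      obtain ⟨σ₀, hσ₀, hpos, hmin, huniq⟩ := exists_min hT
      have h2 : m D (rng t₂) = σ₀ := huniq _ (A_ok f' ht₂).2.isMax_m.1 h1
      have h3 : D.S σ₀ = L₀ := by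
        rw [← h2]
        exact hlev₂
      intro X hX hp
      obtain ⟨σ', hσ', hlt⟩ := exists_lower (A_ok f' ht).2.isMax_m.1 hX hp
      have h4 := hmin σ' hσ'
      have h5 : lev D (rng t) ≤ L₀ := by
        rcases hf'lev t ht with h | h
        · exact h.le
        · exact h.1.le
      have h6 : D.S (m D (rng t)) ≤ L₀ := h5
      linarith
    · push Not at hcase
      have hlt : ∀ t, f'.1 t ≠ 0 → lev D (rng t) < L₀ := by
        intro t ht
        rcases hf'lev t ht with h | h
        · exact h
        · exact absurd h.1 (hcase t ht)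
      by_cases hf'0 : f' = 0
      · refine ⟨g₀, fun t ht => ?_⟩
        change f'.1 t ≠ 0 at ht
        rw [hf'0] at ht
        exact absurd rfl ht
      obtain ⟨t₃, ht₃⟩ : ∃ t, f'.1 t ≠ 0 := by
        by_contra hc
        push Not at hc
        exact hf'0 (by ext t; exact hc t)
      obtain ⟨t₄, ht₄, hmax₄⟩ := Set.exists_max_image _ (fun t => lev D (rng t)) (A_fin f')
        ⟨t₃, ht₃⟩
      obtain ⟨g, hg⟩ := ih f' (lev D (rng t₄)) (fun t ht => hmax₄ t ht) H' (by
        have hlt4 := hlt t₄ ht₄
        have hss : {σ | σ ∈ D.T ∧ D.S σ ≤ lev D (rng t₄)} ⊂ {σ | σ ∈ D.T ∧ D.S σ ≤ L} := by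
          refine ⟨fun σ hσ => ⟨hσ.1, hσ.2.trans (hlt4.le.trans (hL t₀ ht₀))⟩, fun hc => ?_⟩
          have h1 : m D (rng t₀) ∈ {σ | σ ∈ D.T ∧ D.S σ ≤ L} :=
            ⟨(A_ok f ht₀).2.isMax_m.1, hL t₀ ht₀⟩
          have h2 := (hc h1).2
          change L₀ ≤ _ at h2
          linarith
        have := Set.ncard_lt_ncard hss (D.fin L)
        omega)
      refine ⟨g₀ + g, fun t ht => ?_⟩
      refine hg t ?_
      have : f - del D k s (g₀ + g) = f' - del D k s g := by
        change _ = (f - del D k s g₀) - del D k s g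
        rw [map_add]
        abel
      rwa [← this]

/-- Exactness at sizes at most `5`. -/
theorem exact_del (hT : D.T.Nonempty) {s : ℕ} (hs : s + 1 ≤ 5) (f : A D k (s + 1))
    (hf : del D k (s + 1) f = 0) : ∃ g : A D k s, del D k s g = f := by
  have H : ∀ (t : Fin (s + 1) → V) (v : V), OK D t → v ∈ m D (rng t) → v ∉ rng t →
      cob f.1 (Fin.cons v t) = 0 := by
    intro t v ht hv hvt
    have hok : OK D (Fin.cons v t : Fin (s + 2) → V) := by
      refine ⟨?_, ?_⟩
      · rw [Fin.cons_injective_iff]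
        refine ⟨fun ⟨j, hj⟩ => hvt ((mem_rng _ _).2 ⟨j, hj⟩), ht.1⟩
      · rw [rng_cons]
        exact (ht.2.isMax_m.insert hv).cell
    rw [← del_ok f hok, hf]
    rfl
  by_cases hf0 : f = 0
  · exact ⟨0, by rw [map_zero, hf0]⟩
  obtain ⟨t₁, ht₁⟩ : ∃ t, f.1 t ≠ 0 := by
    by_contra hc
    push Not at hc
    exact hf0 (by ext t; exact hc t)
  obtain ⟨t₀, ht₀, hmax⟩ := Set.exists_max_image _ (fun t => lev D (rng t)) (A_fin f)
    ⟨t₁, ht₁⟩
  obtain ⟨g, hg⟩ := reduce hT _ f _ (fun t ht => hmax t ht) H le_rfl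
  refine ⟨g, ?_⟩
  have h0 : f - del D k s g = 0 := by
    ext t
    by_contra hne
    have h1 := hg t hne
    have hok := A_ok _ hne
    have hmax := hok.2.isMax_m
    have hcard : (rng t).card < (m D (rng t)).card := by
      rw [card_rng hok.1, D.card _ hmax.1]
      omega
    obtain ⟨X, hX, hXt⟩ := exists_mem_notMem_of_card_lt_card hcard
    exact h1 X hX (hmax.2.2 X hX hXt)
  exact (sub_eq_zero.1 h0).symm

/-- Reduction at size `6`: modulo boundaries, everything is supported on one top simplex. -/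
theorem exact_top (hT : D.T.Nonempty) (f : A D k 6) :
    ∃ g : A D k 5, ∃ σ₀ ∈ D.T, ∀ t, (f - del D k 5 g).1 t ≠ 0 → rng t = σ₀ := by
  obtain ⟨σ₀, hσ₀, hpos, hmin, huniq⟩ := exists_min hT
  have H : ∀ (t : Fin 6 → V) (v : V), OK D t → v ∈ m D (rng t) → v ∉ rng t →
      cob f.1 (Fin.cons v t) = 0 := by
    intro t v ht hv hvt
    exfalso
    have hmax := ht.2.isMax_m
    have h1 : rng t = m D (rng t) :=
      eq_of_subset_of_card_le hmax.2.1 (by rw [card_rng ht.1, D.card _ hmax.1])
    rw [← h1] at hv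
    exact hvt hv
  by_cases hf0 : f = 0
  · refine ⟨0, σ₀, hσ₀, fun t ht => ?_⟩
    rw [map_zero, sub_zero, hf0] at ht
    exact absurd rfl ht
  obtain ⟨t₁, ht₁⟩ : ∃ t, f.1 t ≠ 0 := by
    by_contra hc
    push Not at hc
    exact hf0 (by ext t; exact hc t)
  obtain ⟨t₀, ht₀, hmax⟩ := Set.exists_max_image _ (fun t => lev D (rng t)) (A_fin f)
    ⟨t₁, ht₁⟩
  obtain ⟨g, hg⟩ := reduce hT _ f _ (fun t ht => hmax t ht) H le_rfl
  refine ⟨g, σ₀, hσ₀, fun t ht => ?_⟩
  have hok := A_ok _ ht
  have hmax := hok.2.isMax_m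
  rw [← huniq _ hmax.1 (hg t ht)]
  exact eq_of_subset_of_card_le hmax.2.1 (by rw [card_rng hok.1, D.card _ hmax.1])

end Pool.Agent.H320R3.Cochains
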