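import Mathlib

set_option autoImplicit false

open Finset Matrix

namespace Pool.Agent.H320R3.Geom

/-- The group `SL_3(ℤ)`. -/
abbrev G : Type := Matrix.SpecialLinearGroup (Fin 3) ℤ

/-- Vertices: symmetric integral matrices (only `u uᵀ` with `u` primitive are used). -/
@[ext]
structure Vx where
  mat : Matrix (Fin 3) (Fin 3) ℤ

instance : DecidableEq Vx := fun a b =>
  decidable_of_iff (a.mat = b.mat) ⟨fun h => Vx.ext h, fun h => by rw [h]⟩

instance : Inhabited Vx := ⟨⟨0⟩⟩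

instance : MulAction G Vx where
  smul g X := ⟨g.1 * X.mat * g.1ᵀ⟩
  one_smul X := by
    apply Vx.ext
    change (1 : Matrix (Fin 3) (Fin 3) ℤ) * X.mat * (1 : Matrix (Fin 3) (Fin 3) ℤ)ᵀ = X.mat
    simp
  mul_smul g h X := by
    apply Vx.ext
    change (g.1 * h.1) * X.mat * (g.1 * h.1)ᵀ = g.1 * (h.1 * X.mat * h.1ᵀ) * g.1ᵀ
    rw [Matrix.transpose_mul]
    simp only [Matrix.mul_assoc]

lemma smul_mat (g : G) (X : Vx) : (g • X).mat = g.1 * X.mat * g.1ᵀ := rfl

/-- The six vectors. -/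
def uvec : Fin 6 → Fin 3 → ℤ :=
  ![![1, 0, 0], ![0, 1, 0], ![0, 0, 1], ![1, -1, 0], ![1, 0, -1], ![0, 1, -1]]

/-- The vertex attached to a vector. -/
def vx (w : Fin 3 → ℤ) : Vx := ⟨Matrix.of fun i j => w i * w j⟩

/-- The six vertices of the standard top simplex. -/
def E (i : Fin 6) : Vx := vx (uvec i)

lemma smul_vx (g : G) (w : Fin 3 → ℤ) : g • vx w = vx (g.1 *ᵥ w) := by
  apply Vx.ext
  rw [smul_mat]
  ext i j
  simp only [vx, Matrix.mul_apply, Matrix.of_apply, Matrix.transpose_apply, Matrix.mulVec,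
    dotProduct, Fin.sum_univ_three]
  ring

/-- The perfect form. -/
def phi (w : Fin 3 → ℤ) : ℤ :=
  w 0 * w 0 + w 1 * w 1 + w 2 * w 2 + w 0 * w 1 + w 0 * w 2 + w 1 * w 2

lemma phi_eq_one_iff (w : Fin 3 → ℤ) : phi w = 1 ↔ ∃ i, vx w = E i := by
  constructor
  · intro h
    unfold phi at h
    have h0 : w 0 * w 0 ≤ 2 := by nlinarith [sq_nonneg (w 1), sq_nonneg (w 2), sq_nonneg (w 0 + w 1 + w 2)]
    have h1 : w 1 * w 1 ≤ 2 := by nlinarith [sq_nonneg (w 0), sq_nonneg (w 2), sq_nonneg (w 0 + w 1 + w 2)]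
    have h2 : w 2 * w 2 ≤ 2 := by nlinarith [sq_nonneg (w 0), sq_nonneg (w 1), sq_nonneg (w 0 + w 1 + w 2)]
    have a0 : -1 ≤ w 0 ∧ w 0 ≤ 1 := by constructor <;> nlinarith
    have a1 : -1 ≤ w 1 ∧ w 1 ≤ 1 := by constructor <;> nlinarith
    have a2 : -1 ≤ w 2 ∧ w 2 ≤ 1 := by constructor <;> nlinarith
    have hw : w = ![w 0, w 1, w 2] := by
      funext i; fin_cases i <;> rfl
    obtain ⟨b0, b0'⟩ := a0
    obtain ⟨b1, b1'⟩ := a1
    obtain ⟨b2, b2'⟩ := a2
    rw [hw]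
    generalize w 0 = x at *
    generalize w 1 = y at *
    generalize w 2 = z at *
    clear hw h0 h1 h2
    interval_cases x <;> interval_cases y <;> interval_cases z <;> revert h <;> decide
  · rintro ⟨i, hi⟩
    have h1 : phi w = (vx w).mat 0 0 + (vx w).mat 1 1 + (vx w).mat 2 2 + (vx w).mat 0 1 +
        (vx w).mat 0 2 + (vx w).mat 1 2 := by
      simp [phi, vx]
    rw [h1, hi]
    fin_cases i <;> decide

lemma phi_pos {w : Fin 3 → ℤ} (hw : w ≠ 0) : 1 ≤ phi w := by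
  by_contra h
  have h' : phi w ≤ 0 := by omega
  unfold phi at h'
  apply hw
  have h0 : w 0 = 0 := by nlinarith [sq_nonneg (w 0), sq_nonneg (w 1), sq_nonneg (w 2), sq_nonneg (w 0 + w 1 + w 2)]
  have h1 : w 1 = 0 := by nlinarith [sq_nonneg (w 0), sq_nonneg (w 1), sq_nonneg (w 2), sq_nonneg (w 0 + w 1 + w 2)]
  have h2 : w 2 = 0 := by nlinarith [sq_nonneg (w 0), sq_nonneg (w 1), sq_nonneg (w 2), sq_nonneg (w 0 + w 1 + w 2)]
  funext i
  fin_cases i
  · exact h0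
  · exact h1
  · exact h2

lemma E_injective : Function.Injective E := by
  intro i j h
  revert h
  revert i j
  decide

/-- The vertex set of the top simplex with label `g`. -/
def top (g : G) : Finset Vx := univ.image fun i => g • E i

lemma mem_top (g : G) (X : Vx) : X ∈ top g ↔ ∃ i, g • E i = X := by
  simp [top]

lemma card_top (g : G) : (top g).card = 6 := by
  unfold top
  rw [card_image_of_injective (f := fun i => g • E i) univ
    (fun i j h => E_injective (MulAction.injective g h))]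
  rfl

lemma mulVec_ne_zero (g : G) {w : Fin 3 → ℤ} (hw : w ≠ 0) : g.1 *ᵥ w ≠ 0 := by
  intro h
  apply hw
  have h1 : (g⁻¹).1 *ᵥ (g.1 *ᵥ w) = w := by
    rw [Matrix.mulVec_mulVec]
    have : (g⁻¹).1 * g.1 = 1 := by
      have := congrArg Subtype.val (inv_mul_cancel g)
      exact this
    rw [this, Matrix.one_mulVec]
  rw [← h1, h, Matrix.mulVec_zero]

lemma uvec_ne (i : Fin 6) : uvec i ≠ 0 := by
  revert i
  decide

/-- membership in a top simplex through the perfect form -/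
lemma smul_E_mem_top (g g' : G) (i : Fin 6) :
    g • E i ∈ top g' ↔ phi ((g'⁻¹ * g).1 *ᵥ uvec i) = 1 := by
  rw [phi_eq_one_iff, mem_top]
  have h1 : vx ((g'⁻¹ * g).1 *ᵥ uvec i) = (g'⁻¹ * g) • E i := (smul_vx _ _).symm
  rw [h1]
  constructor
  · rintro ⟨j, hj⟩
    exact ⟨j, by rw [mul_smul, ← hj, inv_smul_smul]⟩
  · rintro ⟨j, hj⟩
    exact ⟨j, by rw [← hj, mul_smul, smul_inv_smul]⟩

lemma phi_ge (g g' : G) (i : Fin 6) : 1 ≤ phi ((g'⁻¹ * g).1 *ᵥ uvec i) :=
  phi_pos (mulVec_ne_zero _ (uvec_ne i))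

lemma smul_mem_top (g h : G) (X : Vx) : g • X ∈ top (g * h) ↔ X ∈ top h := by
  rw [mem_top, mem_top]
  constructor
  · rintro ⟨i, hi⟩
    rw [mul_smul] at hi
    exact ⟨i, MulAction.injective g hi⟩
  · rintro ⟨i, hi⟩
    exact ⟨i, by rw [mul_smul, hi]⟩

end Pool.Agent.H320R3.Geom
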