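import Mathlib
import Pool.Agent.H320R3.Morse
import Pool.Agent.H320R3.Geom

set_option autoImplicit false

open Finset Matrix

namespace Pool.Agent.H320R3.Form

open Geom

/-- A transcendental number. -/
noncomputable def th : ℝ := liouvilleNumber 2

lemma th_trans : Transcendental ℤ th := transcendental_liouvilleNumber (by norm_num)

lemma coeffs (c : Fin 6 → ℤ)
    (h : (c 0 : ℝ) + c 1 * th + c 2 * th ^ 2 + c 3 * th ^ 3 + c 4 * th ^ 4 + c 5 * th ^ 5 = 0) :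
    c = 0 := by
  have h1 : (∑ i : Fin 6, Polynomial.monomial (i : ℕ) (c i) : Polynomial ℤ) = 0 := by
    apply (transcendental_iff.1 th_trans)
    rw [map_sum]
    simp only [Polynomial.aeval_monomial, Fin.sum_univ_six]
    simp
    linarith
  funext i
  have h2 := congrArg (fun P : Polynomial ℤ => P.coeff (i : ℕ)) h1
  simp only [Polynomial.finsetSum_coeff, Polynomial.coeff_zero, Polynomial.coeff_monomial] at h2
  rw [Finset.sum_eq_single i] at h2
  · simpa using h2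
  · intro j _ hj
    rw [if_neg]
    exact fun e => hj (Fin.ext e)
  · intro h; exact absurd (mem_univ _) h

/-- A large natural number. -/
noncomputable def Cn : ℕ := ⌈1 + |th| + |th| ^ 2 + |th| ^ 3 + |th| ^ 4 + |th| ^ 5⌉₊

lemma Cn_ge : 1 + |th| + |th| ^ 2 + |th| ^ 3 + |th| ^ 4 + |th| ^ 5 ≤ (Cn : ℝ) := Nat.le_ceil _

lemma Cn_pos : 1 ≤ (Cn : ℝ) := by
  have h := Cn_ge
  have h1 : (0 : ℝ) ≤ |th| := abs_nonneg _
  have : 0 ≤ |th| + |th| ^ 2 + |th| ^ 3 + |th| ^ 4 + |th| ^ 5 := by positivity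
  linarith

/-- The bilinear form. -/
noncomputable def q (a b : Fin 3 → ℤ) : ℝ :=
  Cn * ((a 0 : ℝ) * b 0 + a 1 * b 1 + a 2 * b 2) + th * (a 1 * b 1) + th ^ 2 * (a 2 * b 2)
    + th ^ 3 * (a 0 * b 1 + a 1 * b 0) + th ^ 4 * (a 0 * b 2 + a 2 * b 0)
    + th ^ 5 * (a 1 * b 2 + a 2 * b 1)

lemma q_ge (a : Fin 3 → ℤ) : (a 0 : ℝ) ^ 2 + (a 1 : ℝ) ^ 2 + (a 2 : ℝ) ^ 2 ≤ q a a := by
  have h := Cn_ge
  have hx : (a 0 : ℝ) ^ 2 + (a 1 : ℝ) ^ 2 + (a 2 : ℝ) ^ 2 ≥ 0 := by positivity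
  have h1 : (1 + |th| + |th| ^ 2 + |th| ^ 3 + |th| ^ 4 + |th| ^ 5) *
      ((a 0 : ℝ) ^ 2 + (a 1 : ℝ) ^ 2 + (a 2 : ℝ) ^ 2) ≤
      Cn * ((a 0 : ℝ) ^ 2 + (a 1 : ℝ) ^ 2 + (a 2 : ℝ) ^ 2) := mul_le_mul_of_nonneg_right h hx
  have e1 : -|th| * ((a 1 : ℝ) ^ 2) ≤ th * (a 1 : ℝ) ^ 2 :=
    mul_le_mul_of_nonneg_right (neg_abs_le _) (sq_nonneg _)
  have e2 : 0 ≤ th ^ 2 * (a 2 : ℝ) ^ 2 := by positivity
  have key : ∀ (t x y : ℝ), -|t| * (x ^ 2 + y ^ 2) ≤ t * (2 * x * y) := by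
    intro t x y
    rcases abs_cases t with ⟨h1, h2⟩ | ⟨h1, h2⟩
    · rw [h1]; nlinarith [mul_nonneg h2 (sq_nonneg (x + y))]
    · rw [h1]; nlinarith [mul_nonneg (neg_nonneg.2 h2.le) (sq_nonneg (x - y))]
  have e3 := key (th ^ 3) (a 0) (a 1)
  have e4 := key (th ^ 4) (a 0) (a 2)
  have e5 := key (th ^ 5) (a 1) (a 2)
  rw [abs_pow] at e3 e4 e5
  have p1 : 0 ≤ |th| := abs_nonneg _
  have p2 : 0 ≤ |th| ^ 2 := by positivity
  have p3 : 0 ≤ |th| ^ 3 := by positivity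
  have p4 : 0 ≤ |th| ^ 4 := by positivity
  have p5 : 0 ≤ |th| ^ 5 := by positivity
  have s0 := sq_nonneg (a 0 : ℝ)
  have s1 := sq_nonneg (a 1 : ℝ)
  have s2 := sq_nonneg (a 2 : ℝ)
  unfold q
  nlinarith [mul_nonneg p1 s0, mul_nonneg p1 s2, mul_nonneg p2 s0, mul_nonneg p2 s1,
    mul_nonneg p2 s2, mul_nonneg p3 s2, mul_nonneg p4 s1, mul_nonneg p5 s0]

lemma q_pos {a : Fin 3 → ℤ} (ha : a ≠ 0) : 0 < q a a := by
  have h := q_ge a
  have h0 : ∃ i, a i ≠ 0 := by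
    by_contra hc
    push Not at hc
    exact ha (funext hc)
  obtain ⟨i, hi⟩ := h0
  have hi' : (a i : ℝ) ≠ 0 := by exact_mod_cast hi
  have := sq_nonneg (a 0 : ℝ)
  have := sq_nonneg (a 1 : ℝ)
  have := sq_nonneg (a 2 : ℝ)
  have hp : 0 < (a i : ℝ) ^ 2 := by positivity
  fin_cases i
  · change 0 < (a 0 : ℝ) ^ 2 at hp; linarith
  · change 0 < (a 1 : ℝ) ^ 2 at hp; linarith
  · change 0 < (a 2 : ℝ) ^ 2 at hp; linarith

lemma q_ne {a b : Fin 3 → ℤ} (ha : a ≠ 0) (hb : b ≠ 0) : q a b ≠ 0 := by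
  intro h
  have h1 := coeffs ![(Cn : ℤ) * (a 0 * b 0 + a 1 * b 1 + a 2 * b 2), a 1 * b 1, a 2 * b 2,
    a 0 * b 1 + a 1 * b 0, a 0 * b 2 + a 2 * b 0, a 1 * b 2 + a 2 * b 1] (by
      simp
      unfold q at h
      linarith)
  have g0 := congrFun h1 0
  have g1 := congrFun h1 1
  have g2 := congrFun h1 2
  have g3 := congrFun h1 3
  have g4 := congrFun h1 4
  have g5 := congrFun h1 5
  simp at g0 g1 g2 g3 g4 g5
  have hC : (Cn : ℕ) ≠ 0 := by
    have := Cn_pos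
    intro h0
    rw [h0] at this
    norm_num at this
  have g0' : a 0 * b 0 = 0 := by
    rcases g0 with h0 | h0
    · exact absurd h0 hC
    · have k1 : a 1 * b 1 = 0 := by
        rcases g1 with h | h <;> simp [h]
      have k2 : a 2 * b 2 = 0 := by
        rcases g2 with h | h <;> simp [h]
      linarith
  have g1' : a 1 * b 1 = 0 := by
    rcases g1 with h | h <;> simp [h]
  have g2' : a 2 * b 2 = 0 := by
    rcases g2 with h | h <;> simp [h]
  have key : ∀ i j, a i * b j + a j * b i = 0 := by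
    intro i j
    fin_cases i <;> fin_cases j <;>
      first
      | (change a 0 * b 0 + a 0 * b 0 = 0; linarith)
      | (change a 1 * b 1 + a 1 * b 1 = 0; linarith)
      | (change a 2 * b 2 + a 2 * b 2 = 0; linarith)
      | (change a 0 * b 1 + a 1 * b 0 = 0; linarith)
      | (change a 1 * b 0 + a 0 * b 1 = 0; linarith)
      | (change a 0 * b 2 + a 2 * b 0 = 0; linarith)
      | (change a 2 * b 0 + a 0 * b 2 = 0; linarith)
      | (change a 1 * b 2 + a 2 * b 1 = 0; linarith)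
      | (change a 2 * b 1 + a 1 * b 2 = 0; linarith)
  have hij : ∃ i, a i ≠ 0 := by
    by_contra hc
    push Not at hc
    exact ha (funext hc)
  obtain ⟨i, hi⟩ := hij
  have hbi : b i = 0 := by
    have := key i i
    have h2 : a i * b i = 0 := by linarith
    rcases mul_eq_zero.1 h2 with h | h
    · exact absurd h hi
    · exact h
  apply hb
  funext j
  have h2 := key i j
  rw [hbi, mul_zero, add_zero] at h2
  rcases mul_eq_zero.1 h2 with h | h
  · exact absurd h hi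
  · exact h

end Pool.Agent.H320R3.Form
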