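import Mathlib
import Pool.Agent.H320R3.Form

set_option autoImplicit false

open Finset Matrix

namespace Pool.Agent.H320R3.Inst

open Geom Form

/-- weights of the four vectors -/
def wv : Fin 4 → Fin 3 → ℤ := ![![1, 0, 0], ![0, 1, 0], ![0, 0, 1], ![-1, -1, -1]]

def aI : Fin 6 → Fin 4 := ![0, 1, 2, 0, 0, 1]
def bI : Fin 6 → Fin 4 := ![3, 3, 3, 1, 2, 2]

/-- The four vectors. -/
def R (g : G) (a : Fin 4) : Fin 3 → ℤ := wv a ᵥ* (g⁻¹).1

/-- coefficients -/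
noncomputable def pg (g : G) (i : Fin 6) : ℝ := - q (R g (aI i)) (R g (bI i))

/-- height -/
noncomputable def Sg (g : G) : ℝ := ∑ i, pg g i

lemma q_vecMul (x y : Fin 3 → ℤ) (r : Matrix (Fin 3) (Fin 3) ℤ) :
    q (x ᵥ* r) (y ᵥ* r) =
      (x 0 * y 0 : ℝ) * q (r 0) (r 0) + (x 1 * y 1 : ℝ) * q (r 1) (r 1)
      + (x 2 * y 2 : ℝ) * q (r 2) (r 2) + (x 0 * y 1 + x 1 * y 0 : ℝ) * q (r 0) (r 1)
      + (x 0 * y 2 + x 2 * y 0 : ℝ) * q (r 0) (r 2)
      + (x 1 * y 2 + x 2 * y 1 : ℝ) * q (r 1) (r 2) := by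
  unfold q
  simp only [Matrix.vecMul, dotProduct, Fin.sum_univ_three]
  push_cast
  ring

lemma R_eq (g g' : G) (a : Fin 4) :
    R g' a = (wv a ᵥ* (g'⁻¹ * g).1) ᵥ* (g⁻¹).1 := by
  unfold R
  rw [Matrix.vecMul_vecMul]
  have : (g'⁻¹ * g).1 * (g⁻¹).1 = (g'⁻¹).1 := by
    have h : (g'⁻¹ * g) * g⁻¹ = g'⁻¹ := by group
    exact congrArg Subtype.val h
  rw [this]

lemma Sg_diff (g g' : G) : Sg g' - Sg g =
    ∑ i, pg g i * ((phi ((g'⁻¹ * g).1 *ᵥ uvec i) : ℤ) - 1 : ℝ) := by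
  unfold Sg pg
  simp only [R_eq g g']
  unfold R
  simp only [q_vecMul]
  generalize (g'⁻¹ * g).1 = M
  simp only [Fin.sum_univ_six, aI, bI, wv, phi, uvec, Matrix.vecMul, Matrix.mulVec, dotProduct,
    Fin.sum_univ_three]
  simp
  ring

lemma q_span (g : G) (w : Fin 3 → ℤ) : q (w ᵥ* (g⁻¹).1) (w ᵥ* (g⁻¹).1) =
    ∑ i, pg g i * ((w ⬝ᵥ uvec i : ℤ) : ℝ) ^ 2 := by
  unfold pg R
  simp only [q_vecMul]
  simp only [Fin.sum_univ_six, aI, bI, wv, uvec, dotProduct, Fin.sum_univ_three]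
  simp
  ring

lemma Sg_eq (g : G) : Sg g = (1 / 2) * ∑ a, q (R g a) (R g a) := by
  unfold Sg pg R
  simp only [q_vecMul]
  simp only [Fin.sum_univ_six, Fin.sum_univ_four, aI, bI, wv]
  simp
  ring

lemma vecMul_ne_zero (g : G) {w : Fin 3 → ℤ} (hw : w ≠ 0) : w ᵥ* g.1 ≠ 0 := by
  intro h
  apply hw
  have h1 : (w ᵥ* g.1) ᵥ* (g⁻¹).1 = w := by
    rw [Matrix.vecMul_vecMul]
    have : g.1 * (g⁻¹).1 = 1 := congrArg Subtype.val (mul_inv_cancel g)
    rw [this, Matrix.vecMul_one]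
  rw [← h1, h, Matrix.zero_vecMul]

lemma R_ne (g : G) (a : Fin 4) : R g a ≠ 0 := by
  apply vecMul_ne_zero
  revert a
  decide

lemma pg_ne (g : G) (i : Fin 6) : pg g i ≠ 0 := neg_ne_zero.2 (q_ne (R_ne _ _) (R_ne _ _))

/-- finiteness of sets of matrices with bounded entries -/
lemma finite_bdd (N : ℤ) : {m : Matrix (Fin 3) (Fin 3) ℤ | ∀ i j, |m i j| ≤ N}.Finite := by
  have h : {m : Fin 3 → Fin 3 → ℤ | ∀ i, m i ∈ {v : Fin 3 → ℤ | ∀ j, v j ∈ Set.Icc (-N) N}}.Finite :=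
    Set.Finite.pi' fun i => Set.Finite.pi' fun j => Set.finite_Icc _ _
  refine h.subset fun m hm i j => ?_
  exact abs_le.1 (hm i j)

lemma finite_bdd_inv (N : ℤ) : {g : G | ∀ i j, |(g⁻¹).1 i j| ≤ N}.Finite := by
  refine Set.Finite.of_finite_image (f := fun g : G => (g⁻¹).1) ?_ ?_
  · refine (finite_bdd N).subset ?_
    rintro _ ⟨g, hg, rfl⟩
    exact hg
  · intro g _ g' _ h
    exact inv_injective (Subtype.ext h)

lemma Sg_bound (g : G) (i j : Fin 3) : ((g⁻¹).1 i j : ℝ) ^ 2 ≤ 2 * Sg g := by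
  have h := Sg_eq g
  rw [Fin.sum_univ_four] at h
  have r0 : R g 0 = (g⁻¹).1 0 := by
    funext j
    simp [R, wv, Matrix.vecMul, dotProduct, Fin.sum_univ_three]
  have r1 : R g 1 = (g⁻¹).1 1 := by
    funext j
    simp [R, wv, Matrix.vecMul, dotProduct, Fin.sum_univ_three]
  have r2 : R g 2 = (g⁻¹).1 2 := by
    funext j
    simp [R, wv, Matrix.vecMul, dotProduct, Fin.sum_univ_three]
  rw [r0, r1, r2] at h
  have h3 := q_pos (R_ne g 3)
  have g0 := q_ge ((g⁻¹).1 0)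
  have g1 := q_ge ((g⁻¹).1 1)
  have g2 := q_ge ((g⁻¹).1 2)
  have key : ∀ i j : Fin 3, 0 ≤ ((g⁻¹).1 i j : ℝ) ^ 2 := fun i j => sq_nonneg _
  have := key 0 0
  have := key 0 1
  have := key 0 2
  have := key 1 0
  have := key 1 1
  have := key 1 2
  have := key 2 0
  have := key 2 1
  have := key 2 2
  have hs : ∀ i : Fin 3, ((g⁻¹).1 i 0 : ℝ) ^ 2 + ((g⁻¹).1 i 1 : ℝ) ^ 2 + ((g⁻¹).1 i 2 : ℝ) ^ 2
      ≤ 2 * Sg g := by
    intro i
    fin_cases i
    · change ((g⁻¹).1 0 0 : ℝ) ^ 2 + ((g⁻¹).1 0 1 : ℝ) ^ 2 + ((g⁻¹).1 0 2 : ℝ) ^ 2 ≤ _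
      linarith
    · change ((g⁻¹).1 1 0 : ℝ) ^ 2 + ((g⁻¹).1 1 1 : ℝ) ^ 2 + ((g⁻¹).1 1 2 : ℝ) ^ 2 ≤ _
      linarith
    · change ((g⁻¹).1 2 0 : ℝ) ^ 2 + ((g⁻¹).1 2 1 : ℝ) ^ 2 + ((g⁻¹).1 2 2 : ℝ) ^ 2 ≤ _
      linarith
  have h4 := hs i
  have k0 := key i 0
  have k1 := key i 1
  have k2 := key i 2
  fin_cases j
  · change ((g⁻¹).1 i 0 : ℝ) ^ 2 ≤ _
    linarith
  · change ((g⁻¹).1 i 1 : ℝ) ^ 2 ≤ _
    linarith
  · change ((g⁻¹).1 i 2 : ℝ) ^ 2 ≤ _
    linarith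

lemma finite_Sg (L : ℝ) : {g : G | Sg g ≤ L}.Finite := by
  obtain ⟨N, hN⟩ := exists_nat_ge (2 * L)
  refine (finite_bdd_inv N).subset fun g hg i j => ?_
  have h1 := Sg_bound g i j
  have h2 : ((g⁻¹).1 i j : ℝ) ^ 2 ≤ N := by
    have : Sg g ≤ L := hg
    linarith
  have h3 : ((g⁻¹).1 i j) ^ 2 ≤ (N : ℤ) := by exact_mod_cast h2
  have h4 : |(g⁻¹).1 i j| ≤ ((g⁻¹).1 i j) ^ 2 := by
    rw [← sq_abs]
    rcases (abs_nonneg ((g⁻¹).1 i j)).eq_or_lt with h | h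
    · rw [← h]; norm_num
    · nlinarith
  linarith

/-! ### Flips -/

def flM : Fin 6 → Matrix (Fin 3) (Fin 3) ℤ :=
  ![!![-1, 0, 0; 1, 0, 1; 1, 1, 0], !![0, 1, 1; 0, -1, 0; 1, 1, 0],
    !![0, 1, 1; 1, 0, 1; 0, 0, -1], !![1, 0, 0; 0, -1, 0; -1, 0, -1],
    !![1, 0, 0; -1, -1, 0; 0, 0, -1], !![-1, -1, 0; 0, 1, 0; 0, 0, -1]]

lemma flM_det (i : Fin 6) : (flM i).det = 1 := by
  revert i
  decide +kernel

def fl (i : Fin 6) : G := ⟨flM i, flM_det i⟩

lemma fl_mem : ∀ i j : Fin 6, (E j ∈ top (fl i) ↔ j ≠ i) := by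
  decide +kernel

/-- Spanning. -/
def Sp (τ : Finset Vx) : Prop := ∃ x y z : Fin 3 → ℤ, vx x ∈ τ ∧ vx y ∈ τ ∧ vx z ∈ τ ∧
  (Matrix.of ![x, y, z]).det ≠ 0

def cuts : Fin 7 → Fin 3 → ℤ :=
  ![![1, 0, 0], ![0, 1, 0], ![0, 0, 1], ![1, 1, 0], ![1, 0, 1], ![0, 1, 1], ![1, 1, 1]]

lemma span_dec : ∀ I : Finset (Fin 6),
    (∃ i ∈ I, ∃ j ∈ I, ∃ l ∈ I, (Matrix.of ![uvec i, uvec j, uvec l]).det ≠ 0) ∨
    (∃ c : Fin 7, ∀ i ∈ I, cuts c ⬝ᵥ uvec i = 0) := by
  decide +kernel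

/-! ### The data -/

lemma abs_le_one_of_phi {w : Fin 3 → ℤ} (h : phi w = 1) (i : Fin 3) : |w i| ≤ 1 := by
  unfold phi at h
  rw [abs_le]
  have h0 : w 0 * w 0 ≤ 2 := by
    nlinarith [sq_nonneg (w 1), sq_nonneg (w 2), sq_nonneg (w 0 + w 1 + w 2)]
  have h1 : w 1 * w 1 ≤ 2 := by
    nlinarith [sq_nonneg (w 0), sq_nonneg (w 2), sq_nonneg (w 0 + w 1 + w 2)]
  have h2 : w 2 * w 2 ≤ 2 := by
    nlinarith [sq_nonneg (w 0), sq_nonneg (w 1), sq_nonneg (w 0 + w 1 + w 2)]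
  fin_cases i
  · change -1 ≤ w 0 ∧ w 0 ≤ 1
    constructor <;> nlinarith
  · change -1 ≤ w 1 ∧ w 1 ≤ 1
    constructor <;> nlinarith
  · change -1 ≤ w 2 ∧ w 2 ≤ 1
    constructor <;> nlinarith

lemma phi_of_mem {g : G} {x : Fin 3 → ℤ} (h : vx x ∈ top g) : phi ((g⁻¹).1 *ᵥ x) = 1 := by
  rw [phi_eq_one_iff]
  obtain ⟨i, hi⟩ := (mem_top _ _).1 h
  exact ⟨i, by rw [← smul_vx, ← hi, inv_smul_smul]⟩

lemma finite_tops (τ : Finset Vx) (h : Sp τ) : {g : G | τ ⊆ top g}.Finite := by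
  obtain ⟨x, y, z, hx, hy, hz, hdet⟩ := h
  set W : Matrix (Fin 3) (Fin 3) ℤ := (Matrix.of ![x, y, z])ᵀ with hW
  have hWdet : W.det ≠ 0 := by rw [hW, Matrix.det_transpose]; exact hdet
  refine Set.Finite.of_finite_image (f := fun g : G => (g⁻¹).1 * W) ?_ ?_
  · refine (finite_bdd 1).subset ?_
    rintro _ ⟨g, hg, rfl⟩ i j
    have e0 := phi_of_mem (hg hx)
    have e1 := phi_of_mem (hg hy)
    have e2 := phi_of_mem (hg hz)
    have k0 := abs_le_one_of_phi e0 i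
    have k1 := abs_le_one_of_phi e1 i
    have k2 := abs_le_one_of_phi e2 i
    have hc : ∀ j, ((g⁻¹).1 * W) i j = ((g⁻¹).1 *ᵥ (![x, y, z] j)) i := by
      intro j
      rw [Matrix.mul_apply]
      rfl
    simp only [hc]
    fin_cases j
    · exact k0
    · exact k1
    · exact k2
  · intro g _ g' _ h
    have h' : (g⁻¹).1 * W = (g'⁻¹).1 * W := h
    have h2 := congrArg (fun m => m * W.adjugate) h'
    simp only [Matrix.mul_assoc, Matrix.mul_adjugate] at h2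
    rw [Matrix.mul_smul, Matrix.mul_smul, Matrix.mul_one, Matrix.mul_one] at h2
    have h3 : (g⁻¹).1 = (g'⁻¹).1 := by
      ext i j
      have := congrFun (congrFun h2 i) j
      simp only [Matrix.smul_apply, smul_eq_mul] at this
      exact mul_left_cancel₀ hWdet this
    exact inv_injective (Subtype.ext h3)

/-- The set of top simplices. -/
def T : Set (Finset Vx) := Set.range top

open Classical in
/-- A label for a top simplex. -/
noncomputable def rep (σ : Finset Vx) : G := if h : ∃ g, top g = σ then h.choose else 1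

lemma top_rep {σ : Finset Vx} (h : σ ∈ T) : top (rep σ) = σ := by
  have h' : ∃ g, top g = σ := h
  unfold rep
  rw [dif_pos h']
  exact h'.choose_spec

noncomputable def S (σ : Finset Vx) : ℝ := Sg (rep σ)

open Classical in
noncomputable def p (σ : Finset Vx) (X : Vx) : ℝ :=
  if h : ∃ i, rep σ • E i = X then pg (rep σ) h.choose else 1

lemma p_eq (σ : Finset Vx) (i : Fin 6) : p σ (rep σ • E i) = pg (rep σ) i := by
  have h : ∃ j, rep σ • E j = rep σ • E i := ⟨i, rfl⟩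
  unfold p
  rw [dif_pos h]
  have h2 := h.choose_spec
  have h3 := E_injective (MulAction.injective (rep σ) h2)
  rw [h3]

/-- The geometric data. -/
noncomputable def D : Morse.Data Vx where
  T := T
  S := S
  p := p
  Sp := Sp
  card := by
    rintro _ ⟨g, rfl⟩
    exact card_top g
  diff := by
    intro σ hσ σ' hσ'
    refine ⟨fun X => if h : ∃ i, rep σ • E i = X then
      ((phi (((rep σ')⁻¹ * rep σ).1 *ᵥ uvec h.choose) : ℤ) : ℝ) - 1 else 0, ?_, ?_⟩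
    · intro X hX
      rw [← top_rep hσ, mem_top] at hX
      obtain ⟨i, rfl⟩ := hX
      have h : ∃ j, rep σ • E j = rep σ • E i := ⟨i, rfl⟩
      have h3 : h.choose = i := E_injective (MulAction.injective (rep σ) h.choose_spec)
      simp only [dif_pos h]
      rw [h3]
      have h4 := phi_ge (rep σ) (rep σ') i
      have h5 := smul_E_mem_top (rep σ) (rep σ') i
      rw [top_rep hσ'] at h5
      constructor
      · have : (1 : ℝ) ≤ (phi (((rep σ')⁻¹ * rep σ).1 *ᵥ uvec i) : ℤ) := by exact_mod_cast h4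
        linarith
      · rw [h5, sub_eq_zero]
        norm_cast
    · have hsum : ∀ F : Vx → ℝ, ∑ X ∈ σ, F X = ∑ i, F (rep σ • E i) := by
        intro F
        conv_lhs => rw [← top_rep hσ]
        unfold top
        rw [sum_image]
        intro i _ j _ hij
        exact E_injective (MulAction.injective (rep σ) hij)
      rw [hsum]
      unfold S
      rw [Sg_diff (rep σ) (rep σ')]
      refine sum_congr rfl fun i _ => ?_
      rw [p_eq]
      have h : ∃ j, rep σ • E j = rep σ • E i := ⟨i, rfl⟩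
      have h3 : h.choose = i := E_injective (MulAction.injective (rep σ) h.choose_spec)
      simp only [dif_pos h]
      rw [h3]
  ne := by
    intro σ hσ X hX
    rw [← top_rep hσ, mem_top] at hX
    obtain ⟨i, rfl⟩ := hX
    rw [p_eq]
    exact pg_ne _ _
  nbr := by
    intro σ hσ X hX
    rw [← top_rep hσ, mem_top] at hX
    obtain ⟨i, rfl⟩ := hX
    refine ⟨top (rep σ * fl i), ⟨_, rfl⟩, ?_, ?_⟩
    · intro Y hY
      rw [mem_erase] at hY
      obtain ⟨hne, hY⟩ := hY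
      rw [← top_rep hσ, mem_top] at hY
      obtain ⟨j, rfl⟩ := hY
      rw [smul_mem_top, fl_mem]
      rintro rfl
      exact hne rfl
    · rw [smul_mem_top, fl_mem]
      exact fun h => h rfl
  fin := by
    intro L
    refine ((finite_Sg L).image top).subset ?_
    rintro σ ⟨hσ, hS⟩
    exact ⟨rep σ, hS, top_rep hσ⟩
  mono := by
    rintro τ τ' h ⟨x, y, z, hx, hy, hz, hd⟩
    exact ⟨x, y, z, h hx, h hy, h hz, hd⟩
  finT := by
    intro τ hτ
    refine ((finite_tops τ hτ).image top).subset ?_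
    rintro σ ⟨hσ, hS⟩
    refine ⟨rep σ, ?_, top_rep hσ⟩
    change τ ⊆ top (rep σ)
    rw [top_rep hσ]
    exact hS
  span := by
    intro σ hσ τ hτ hneg
    classical
    rcases span_dec (univ.filter fun i => rep σ • E i ∈ τ) with
      ⟨i, hi, j, hj, l, hl, hd⟩ | ⟨c, hc⟩
    · rw [mem_filter] at hi hj hl
      refine ⟨(rep σ).1 *ᵥ uvec i, (rep σ).1 *ᵥ uvec j, (rep σ).1 *ᵥ uvec l, ?_, ?_, ?_, ?_⟩
      · rw [← smul_vx]; exact hi.2
      · rw [← smul_vx]; exact hj.2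
      · rw [← smul_vx]; exact hl.2
      · have : (Matrix.of ![(rep σ).1 *ᵥ uvec i, (rep σ).1 *ᵥ uvec j, (rep σ).1 *ᵥ uvec l]) =
            (Matrix.of ![uvec i, uvec j, uvec l]) * (rep σ).1ᵀ := by
          ext a b
          rw [Matrix.mul_apply]
          fin_cases a
          · change ((rep σ).1 *ᵥ uvec i) b = ∑ x, uvec i x * (rep σ).1 b x
            rw [Matrix.mulVec, dotProduct]
            exact sum_congr rfl fun x _ => mul_comm _ _
          · change ((rep σ).1 *ᵥ uvec j) b = ∑ x, uvec j x * (rep σ).1 b x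
            rw [Matrix.mulVec, dotProduct]
            exact sum_congr rfl fun x _ => mul_comm _ _
          · change ((rep σ).1 *ᵥ uvec l) b = ∑ x, uvec l x * (rep σ).1 b x
            rw [Matrix.mulVec, dotProduct]
            exact sum_congr rfl fun x _ => mul_comm _ _
        rw [this, Matrix.det_mul, Matrix.det_transpose, (rep σ).2, mul_one]
        exact hd
    · exfalso
      have hcne : ∀ c, cuts c ≠ 0 := by decide
      have hcne := hcne c
      have h1 := q_pos (vecMul_ne_zero (rep σ)⁻¹ hcne)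
      rw [q_span] at h1
      refine absurd h1 (not_lt.2 (sum_nonpos fun i _ => ?_))
      by_cases hi : rep σ • E i ∈ τ
      · rw [hc i (by rw [mem_filter]; exact ⟨mem_univ _, hi⟩)]
        simp
      · refine mul_nonpos_of_nonpos_of_nonneg ?_ (sq_nonneg _)
        have hmem : rep σ • E i ∈ top (rep σ) := (mem_top _ _).2 ⟨i, rfl⟩
        rw [top_rep hσ] at hmem
        have h2 := hneg (rep σ • E i) hmem hi
        rw [p_eq] at h2
        exact h2.le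

lemma T_nonempty : D.T.Nonempty := ⟨top 1, 1, rfl⟩

end Pool.Agent.H320R3.Inst
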