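import Mathlib
import Pool.Agent.H320R3.Cochains
import Pool.Agent.H320R3.Inst

set_option autoImplicit false

open Finset Matrix

namespace Pool.Agent.H320R3.Act

open Geom Inst Tuples Cochains

/-! ### The group action on cells -/

lemma rng_smul {s : ℕ} (g : G) (t : Fin s → Vx) : rng (g • t) = (rng t).image (fun X => g • X) := by
  ext X
  rw [mem_rng, mem_image]
  constructor
  · rintro ⟨i, rfl⟩
    exact ⟨t i, (mem_rng _ _).2 ⟨i, rfl⟩, rfl⟩
  · rintro ⟨Y, hY, rfl⟩
    obtain ⟨i, rfl⟩ := (mem_rng _ _).1 hY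
    exact ⟨i, rfl⟩

lemma top_smul (g h : G) : (top h).image (fun X => g • X) = top (g * h) := by
  ext X
  rw [mem_image, mem_top]
  constructor
  · rintro ⟨Y, hY, rfl⟩
    obtain ⟨i, rfl⟩ := (mem_top _ _).1 hY
    exact ⟨i, mul_smul _ _ _⟩
  · rintro ⟨i, rfl⟩
    exact ⟨h • E i, (mem_top _ _).2 ⟨i, rfl⟩, (mul_smul _ _ _).symm⟩

lemma det_three (g : G) (x y z : Fin 3 → ℤ) :
    (Matrix.of ![g.1 *ᵥ x, g.1 *ᵥ y, g.1 *ᵥ z]).det = (Matrix.of ![x, y, z]).det := by
  have : (Matrix.of ![g.1 *ᵥ x, g.1 *ᵥ y, g.1 *ᵥ z]) = (Matrix.of ![x, y, z]) * g.1ᵀ := by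
    ext a b
    rw [Matrix.mul_apply]
    fin_cases a
    · change (g.1 *ᵥ x) b = ∑ j, x j * g.1 b j
      rw [Matrix.mulVec, dotProduct]
      exact sum_congr rfl fun x _ => mul_comm _ _
    · change (g.1 *ᵥ y) b = ∑ j, y j * g.1 b j
      rw [Matrix.mulVec, dotProduct]
      exact sum_congr rfl fun x _ => mul_comm _ _
    · change (g.1 *ᵥ z) b = ∑ j, z j * g.1 b j
      rw [Matrix.mulVec, dotProduct]
      exact sum_congr rfl fun x _ => mul_comm _ _
  rw [this, Matrix.det_mul, Matrix.det_transpose, g.2, mul_one]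

lemma Sp_smul (g : G) {τ : Finset Vx} (h : Sp τ) : Sp (τ.image fun X => g • X) := by
  obtain ⟨x, y, z, hx, hy, hz, hd⟩ := h
  refine ⟨g.1 *ᵥ x, g.1 *ᵥ y, g.1 *ᵥ z, ?_, ?_, ?_, ?_⟩
  · rw [← smul_vx]; exact mem_image_of_mem _ hx
  · rw [← smul_vx]; exact mem_image_of_mem _ hy
  · rw [← smul_vx]; exact mem_image_of_mem _ hz
  · rw [det_three]; exact hd

lemma Cell_smul (g : G) {τ : Finset Vx} (h : Morse.Cell D τ) :
    Morse.Cell D (τ.image fun X => g • X) := by
  obtain ⟨h1, σ, ⟨h0, rfl⟩, h2⟩ := h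
  refine ⟨Sp_smul g h1, top (g * h0), ⟨_, rfl⟩, ?_⟩
  rw [← top_smul]
  exact image_subset_image h2

lemma OK_smul' {s : ℕ} (g : G) {t : Fin s → Vx} (h : OK D t) : OK D (g • t) := by
  refine ⟨fun i j hij => h.1 (MulAction.injective g hij), ?_⟩
  rw [rng_smul]
  exact Cell_smul g h.2

lemma OK_smul {s : ℕ} (g : G) (t : Fin s → Vx) : OK D (g • t) ↔ OK D t := by
  refine ⟨fun h => ?_, OK_smul' g⟩
  have := OK_smul' g⁻¹ h
  rwa [inv_smul_smul] at this

lemma smul_comp {s r : ℕ} (g : G) (t : Fin s → Vx) (e : Fin r → Fin s) : g • (t ∘ e) = (g • t) ∘ e :=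
  rfl

variable {k : Type} [Field k]

/-- The action on cochains. -/
noncomputable def rho (k : Type) [Field k] (s : ℕ) : Representation k G (A D k s) where
  toFun g :=
    { toFun := fun f => ⟨fun t => f.1 (g⁻¹ • t), by
        refine ⟨?_, fun t ht => ?_, fun π t => ?_⟩
        · refine ((A_fin f).image fun t => g • t).subset fun t ht => ?_
          exact ⟨g⁻¹ • t, ht, smul_inv_smul g t⟩
        · exact (OK_smul g⁻¹ t).1 (A_ok f ht)
        · exact A_alt f π (g⁻¹ • t)⟩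
      map_add' := fun f f' => rfl
      map_smul' := fun c f => rfl }
  map_one' := by
    ext f t
    change f.1 ((1 : G)⁻¹ • t) = f.1 t
    rw [inv_one, one_smul]
  map_mul' g h := by
    ext f t
    change f.1 ((g * h)⁻¹ • t) = f.1 (h⁻¹ • g⁻¹ • t)
    rw [_root_.mul_inv_rev, mul_smul]

lemma rho_apply {s : ℕ} (g : G) (f : A D k s) (t : Fin s → Vx) :
    (rho k s g f).1 t = f.1 (g⁻¹ • t) := rfl

lemma del_rho {s : ℕ} (g : G) (f : A D k s) :
    del D k s (rho k s g f) = rho k (s + 1) g (del D k s f) := by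
  ext t
  rw [rho_apply]
  by_cases h : OK D t
  · rw [del_ok _ h, del_ok _ ((OK_smul g⁻¹ t).2 h)]
    rfl
  · rw [del_not _ h, del_not _ (fun h' => h ((OK_smul g⁻¹ t).1 h'))]

/-! ### Coefficients along orbits -/

lemma kfin {s : ℕ} (x : Fin s → Vx) (f : A D k s) :
    (Function.support fun g : G => f.1 (g • x)).Finite := by
  by_cases hx : OK D x
  · obtain ⟨σ, ⟨g0, rfl⟩, hsub⟩ := hx.2.2
    have hfin : (⋃ t' ∈ Function.support f.1, (fun g : G => g * g0) ⁻¹' {g : G | rng t' ⊆ top g}).Finite := by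
      refine (A_fin f).biUnion fun t' ht' => ?_
      refine Set.Finite.preimage (fun a _ b _ h => mul_right_cancel h) ?_
      exact finite_tops _ (A_ok f ht').2.1
    refine hfin.subset fun g hg => ?_
    simp only [Set.mem_iUnion]
    refine ⟨g • x, hg, ?_⟩
    change rng (g • x) ⊆ top (g * g0)
    rw [rng_smul, ← top_smul]
    exact image_subset_image hsub
  · convert Set.finite_empty
    rw [Function.support_eq_empty_iff]
    funext g
    by_contra hne
    exact hx ((OK_smul g x).1 (A_ok f hne))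

section Psi

variable {M : Type} [AddCommGroup M] [Module k M] (ρ : Representation k G M)

lemma pfin {s : ℕ} (x : Fin s → Vx) (m : M) (f : A D k s) :
    (Function.support fun g : G => f.1 (g • x) • ρ g m).Finite :=
  (kfin x f).subset fun g hg hz => hg (by
    change f.1 (g • x) • ρ g m = 0
    have : f.1 (g • x) = 0 := hz
    rw [this, zero_smul])

/-- The basic homomorphisms. -/
noncomputable def Psi {s : ℕ} (x : Fin s → Vx) (m : M) : A D k s →ₗ[k] M where
  toFun f := ∑ᶠ g : G, f.1 (g • x) • ρ g m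
  map_add' f f' := by
    rw [← finsum_add_distrib (pfin ρ x m f) (pfin ρ x m f')]
    refine finsum_congr fun g => ?_
    rw [← add_smul]
    rfl
  map_smul' c f := by
    rw [RingHom.id_apply, smul_finsum' c (pfin ρ x m f)]
    refine finsum_congr fun g => ?_
    rw [smul_smul]
    rfl

lemma Psi_apply {s : ℕ} (x : Fin s → Vx) (m : M) (f : A D k s) :
    Psi ρ x m f = ∑ᶠ g : G, f.1 (g • x) • ρ g m := rfl

lemma Psi_add {s : ℕ} (x : Fin s → Vx) (m m' : M) :
    Psi ρ x (m + m') = (Psi ρ x m : A D k s →ₗ[k] M) + Psi ρ x m' := by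
  ext f
  rw [LinearMap.add_apply, Psi_apply, Psi_apply, Psi_apply,
    ← finsum_add_distrib (pfin ρ x m f) (pfin ρ x m' f)]
  refine finsum_congr fun g => ?_
  rw [map_add, smul_add]

lemma Psi_smul {s : ℕ} (x : Fin s → Vx) (c : k) (m : M) :
    Psi ρ x (c • m) = c • (Psi ρ x m : A D k s →ₗ[k] M) := by
  ext f
  rw [LinearMap.smul_apply, Psi_apply, Psi_apply, smul_finsum' c (pfin ρ x m f)]
  refine finsum_congr fun g => ?_
  rw [map_smul, smul_comm]

/-- linear in the vector -/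
noncomputable def PsiL {s : ℕ} (x : Fin s → Vx) : M →ₗ[k] (A D k s →ₗ[k] M) where
  toFun m := Psi ρ x m
  map_add' := Psi_add ρ x
  map_smul' c m := Psi_smul ρ x c m

lemma Psi_equiv {s : ℕ} (x : Fin s → Vx) (m : M) (h : G) (f : A D k s) :
    Psi ρ x m (rho k s h f) = ρ h (Psi ρ x m f) := by
  rw [Psi_apply, Psi_apply, ← finsum_comp_equiv (Equiv.mulLeft h), map_finsum _ (pfin ρ x m f)]
  refine finsum_congr fun g => ?_
  rw [rho_apply, Equiv.coe_mulLeft, mul_smul, inv_smul_smul, map_smul, map_mul]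
  rfl

lemma Psi_smul_tuple {s : ℕ} (x : Fin s → Vx) (a : G) (m : M) :
    (Psi ρ (a • x) m : A D k s →ₗ[k] M) = Psi ρ x (ρ a⁻¹ m) := by
  ext f
  rw [Psi_apply, Psi_apply]
  conv_rhs => rw [← finsum_comp_equiv (Equiv.mulRight a)]
  refine finsum_congr fun g => ?_
  rw [Equiv.coe_mulRight, mul_smul]
  congr 1
  rw [← Module.End.mul_apply, ← map_mul, mul_inv_cancel_right]

lemma Psi_perm {s : ℕ} (x : Fin s → Vx) (π : Equiv.Perm (Fin s)) (m : M) :
    (Psi ρ (x ∘ π) m : A D k s →ₗ[k] M) = ((Equiv.Perm.sign π : ℤ) : k) • Psi ρ x m := by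
  ext f
  rw [LinearMap.smul_apply, Psi_apply, Psi_apply, smul_finsum' _ (pfin ρ x m f)]
  refine finsum_congr fun g => ?_
  rw [smul_comp, A_alt f π (g • x), smul_smul]

lemma Psi_not {s : ℕ} {x : Fin s → Vx} (hx : ¬ OK D x) (m : M) :
    (Psi ρ x m : A D k s →ₗ[k] M) = 0 := by
  ext f
  rw [Psi_apply, LinearMap.zero_apply]
  rw [← finsum_zero (α := G)]
  refine finsum_congr fun g => ?_
  have : f.1 (g • x) = 0 := by
    by_contra hne
    exact hx ((OK_smul g x).1 (A_ok f hne))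
  rw [this, zero_smul]

/-- stabiliser relations -/
lemma Psi_stab {s : ℕ} {x : Fin s → Vx} {h : G} {π : Equiv.Perm (Fin s)} (hx : h • x = x ∘ π)
    (m : M) : (Psi ρ x (ρ h m) : A D k s →ₗ[k] M) = ((Equiv.Perm.sign π : ℤ) : k) • Psi ρ x m := by
  have h1 := Psi_smul_tuple (k := k) ρ x h (ρ h m)
  rw [hx, Psi_perm] at h1
  have h2 : ρ h⁻¹ (ρ h m) = m := by
    rw [← Module.End.mul_apply, ← map_mul, inv_mul_cancel, map_one, Module.End.one_apply]
  rw [h2] at h1
  have h3 : ((Equiv.Perm.sign π : ℤ) : k) * ((Equiv.Perm.sign π : ℤ) : k) = 1 := sgn_sq π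
  rw [← h1, smul_smul, h3, one_smul]

/-- coboundaries -/
lemma Psi_del {s : ℕ} {x : Fin (s + 1) → Vx} (hx : OK D x) (m : M) (f : A D k s) :
    Psi ρ x m (del D k s f) =
      ∑ i : Fin (s + 1), (-1 : k) ^ (i : ℕ) • Psi ρ (i.removeNth x) m f := by
  have h1 : ∀ i : Fin (s + 1), (-1 : k) ^ (i : ℕ) • Psi ρ (i.removeNth x) m f =
      ∑ᶠ g : G, (-1 : k) ^ (i : ℕ) • (f.1 (g • (i.removeNth x)) • ρ g m) := by
    intro i
    rw [Psi_apply, smul_finsum' _ (pfin ρ _ m f)]
  simp only [h1]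
  rw [← finsum_sum_comm]
  · rw [Psi_apply]
    refine finsum_congr fun g => ?_
    rw [del_ok _ ((OK_smul g x).2 hx)]
    unfold cob
    rw [sum_smul]
    refine sum_congr rfl fun i _ => ?_
    rw [smul_smul]
    rfl
  · intro i _
    refine (pfin ρ (i.removeNth x) m f).subset fun g hg hz => hg ?_
    change (-1 : k) ^ (i : ℕ) • (f.1 (g • (i.removeNth x)) • ρ g m) = 0
    have : f.1 (g • (i.removeNth x)) • ρ g m = 0 := hz
    rw [this, smul_zero]

end Psi

/-! ### Alternating deltas -/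

/-- the alternating delta function -/
noncomputable def altF (k : Type) [Field k] {s : ℕ} (t : Fin s → Vx) (x : Fin s → Vx) : k :=
  ∑ π : Equiv.Perm (Fin s), if x = t ∘ π then ((Equiv.Perm.sign π : ℤ) : k) else 0

lemma altF_alt {s : ℕ} (t : Fin s → Vx) : Alt (altF k t) := by
  intro ρ x
  unfold altF
  rw [← Equiv.sum_comp (Equiv.mulRight ρ), mul_sum]
  refine sum_congr rfl fun π _ => ?_
  have h1 : x ∘ ρ = t ∘ ⇑((Equiv.mulRight ρ) π) ↔ x = t ∘ π := by
    rw [Equiv.coe_mulRight, Equiv.Perm.coe_mul, ← Function.comp_assoc]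
    constructor
    · intro h
      have := congrArg (fun f => f ∘ ρ.symm) h
      simpa [Function.comp_assoc] using this
    · rintro rfl
      rfl
  rw [mul_ite, mul_zero]
  refine if_congr h1 ?_ rfl
  rw [Equiv.coe_mulRight, sgn_mul, mul_comm]

lemma altF_ne {s : ℕ} {t x : Fin s → Vx} (h : altF k t x ≠ 0) :
    ∃ π : Equiv.Perm (Fin s), x = t ∘ π := by
  by_contra hc
  push Not at hc
  exact h (sum_eq_zero fun π _ => if_neg (hc π))

lemma altF_self {s : ℕ} {t : Fin s → Vx} (ht : Function.Injective t) (π : Equiv.Perm (Fin s)) :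
    altF k t (t ∘ π) = ((Equiv.Perm.sign π : ℤ) : k) := by
  unfold altF
  rw [sum_eq_single π]
  · rw [if_pos rfl]
  · intro ρ _ hρ
    rw [if_neg]
    intro h
    refine hρ ?_
    ext i
    have := congrFun h i
    exact congrArg _ (ht this).symm
  · intro h
    exact absurd (mem_univ _) h

/-- the alternating delta cochain -/
noncomputable def alt (k : Type) [Field k] {s : ℕ} (t : Fin s → Vx) (ht : OK D t) : A D k s :=
  ⟨altF k t, by
    refine ⟨?_, fun x hx => ?_, altF_alt t⟩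
    · refine (Set.finite_range fun π : Equiv.Perm (Fin s) => t ∘ π).subset fun x hx => ?_
      obtain ⟨π, rfl⟩ := altF_ne hx
      exact ⟨π, rfl⟩
    · obtain ⟨π, rfl⟩ := altF_ne hx
      exact (OK_perm D t π).2 ht⟩

lemma stab_inv {s : ℕ} {x : Fin s → Vx} {h : G} {π : Equiv.Perm (Fin s)} (hx : h • x = x ∘ π) :
    h⁻¹ • x = x ∘ ⇑π⁻¹ := by
  have h1 : x = (h⁻¹ • x) ∘ π := by
    rw [← smul_comp, ← hx, inv_smul_smul]
  conv_rhs => rw [h1]
  rw [Function.comp_assoc]
  have : (π : Fin s → Fin s) ∘ ⇑π⁻¹ = id := by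
    funext i
    simp
  rw [this]
  rfl

/-- the number of stabilising elements, in `k` -/
noncomputable def Nst (k : Type) [Field k] {s : ℕ} (t : Fin s → Vx) : k :=
  ∑ᶠ g : G, altF k t (g • t) * altF k t (g • t)

lemma altF_mul_self {s : ℕ} {t : Fin s → Vx} (ht : Function.Injective t) {g : G}
    (h : altF k t (g • t) ≠ 0) : altF k t (g • t) * altF k t (g • t) = 1 := by
  obtain ⟨π, hπ⟩ := altF_ne h
  rw [hπ, altF_self ht, sgn_sq]

lemma alt_smul_eq {s : ℕ} (f : A D k s) {t : Fin s → Vx} (ht : Function.Injective t) (g h : G) :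
    f.1 ((g * h⁻¹) • t) * altF k t (h • t) = f.1 (g • t) * (altF k t (h • t) * altF k t (h • t)) := by
  by_cases h0 : altF k t (h • t) = 0
  · rw [h0]; ring
  · obtain ⟨π, hπ⟩ := altF_ne h0
    rw [mul_smul, stab_inv hπ, smul_comp, A_alt f, hπ, altF_self ht, sgn_inv]
    ring

lemma Nst_mul {s : ℕ} (f : A D k s) {t : Fin s → Vx} (ht : OK D t) (g : G) :
    ∑ᶠ h : G, f.1 (h • t) * altF k t ((h⁻¹ * g) • t) = f.1 (g • t) * Nst k t := by
  unfold Nst
  rw [mul_finsum]
  rw [← finsum_comp_equiv ((Equiv.inv G).trans (Equiv.mulLeft g))]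
  refine finsum_congr fun h => ?_
  rw [Equiv.trans_apply, Equiv.inv_apply, Equiv.coe_mulLeft]
  have : (g * h⁻¹)⁻¹ * g = h := by group
  rw [this, alt_smul_eq f ht.1]

/-- Representatives of the orbits of cells of size `s`. -/
structure Reps (k : Type) [Field k] (s : ℕ) where
  J : Type
  fin : Fintype J
  t : J → Fin s → Vx
  ok : ∀ j, OK D (t j)
  cover : ∀ x : Fin s → Vx, OK D x → ∃ (j : J) (g : G) (π : Equiv.Perm (Fin s)),
    x = (g • t j) ∘ π
  disj : ∀ (j j' : J) (g : G) (π : Equiv.Perm (Fin s)), g • t j = t j' ∘ π → j = j'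
  ne : ∀ j, Nst k (t j) ≠ 0

attribute [instance] Reps.fin

lemma Psi_alt_apply {s : ℕ} {t : Fin s → Vx} (ht : OK D t) (f : A D k s) (x : Fin s → Vx) :
    (Psi (rho k s) t (alt k t ht) f).1 x = ∑ᶠ g : G, f.1 (g • t) * altF k t (g⁻¹ • x) := by
  let ev : A D k s →ₗ[k] k :=
    { toFun := fun f => f.1 x
      map_add' := fun _ _ => rfl
      map_smul' := fun _ _ => rfl }
  change ev (Psi (rho k s) t (alt k t ht) f) = _
  rw [Psi_apply, map_finsum _ (pfin (rho k s) t (alt k t ht) f)]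
  rfl

lemma recon {s : ℕ} (R : Reps k s) (f : A D k s) :
    f = ∑ j, (Nst k (R.t j))⁻¹ • Psi (rho k s) (R.t j) (alt k (R.t j) (R.ok j)) f := by
  -- evaluation on standard tuples
  have key : ∀ (j0 : R.J) (g0 : G), f.1 (g0 • R.t j0) =
      (∑ j, (Nst k (R.t j))⁻¹ • Psi (rho k s) (R.t j) (alt k (R.t j) (R.ok j)) f).1
        (g0 • R.t j0) := by
    intro j0 g0
    rw [Submodule.coe_sum, Finset.sum_apply, sum_eq_single j0]
    · rw [Submodule.coe_smul, Pi.smul_apply, Psi_alt_apply, smul_eq_mul]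
      have h1 := Nst_mul f (R.ok j0) g0
      have h2 : ∀ h : G, f.1 (h • R.t j0) * altF k (R.t j0) ((h⁻¹ * g0) • R.t j0) =
          f.1 (h • R.t j0) * altF k (R.t j0) (h⁻¹ • g0 • R.t j0) := by
        intro h
        rw [mul_smul]
      simp only [h2] at h1
      rw [h1]
      have h3 := R.ne j0
      field_simp
    · intro j _ hj
      rw [Submodule.coe_smul, Pi.smul_apply, Psi_alt_apply]
      have h0 : (∑ᶠ g : G, f.1 (g • R.t j) * altF k (R.t j) (g⁻¹ • g0 • R.t j0)) = 0 := by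
        rw [← finsum_zero (α := G)]
        refine finsum_congr fun g => ?_
        by_cases h1 : altF k (R.t j) (g⁻¹ • g0 • R.t j0) = 0
        · rw [h1, mul_zero]
        · exfalso
          obtain ⟨π, hπ⟩ := altF_ne h1
          rw [← mul_smul] at hπ
          exact hj (R.disj j0 j _ π hπ).symm
      rw [h0, smul_zero]
    · intro h
      exact absurd (mem_univ _) h
  ext x
  by_cases hx : OK D x
  · obtain ⟨j0, g0, π, rfl⟩ := R.cover x hx
    rw [A_alt f, A_alt (∑ j, (Nst k (R.t j))⁻¹ •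
      Psi (rho k s) (R.t j) (alt k (R.t j) (R.ok j)) f), key]
  · have h1 : f.1 x = 0 := by
      by_contra h
      exact hx (A_ok f h)
    have h2 : (∑ j, (Nst k (R.t j))⁻¹ •
      Psi (rho k s) (R.t j) (alt k (R.t j) (R.ok j)) f).1 x = 0 := by
      by_contra h
      exact hx (A_ok _ h)
    rw [h1, h2]

section Hom

variable {M : Type} [AddCommGroup M] [Module k M] (ρ : Representation k G M)

/-- every equivariant map is determined by its values on the alternating deltas -/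
lemma hom_recon {s : ℕ} (R : Reps k s) (F : A D k s →ₗ[k] M)
    (hF : ∀ g f, F (rho k s g f) = ρ g (F f)) (f : A D k s) :
    F f = ∑ j, (Nst k (R.t j))⁻¹ • Psi ρ (R.t j) (F (alt k (R.t j) (R.ok j))) f := by
  conv_lhs => rw [recon R f]
  rw [map_sum]
  refine sum_congr rfl fun j _ => ?_
  rw [map_smul]
  congr 1
  rw [Psi_apply, Psi_apply, map_finsum _ (pfin (rho k s) (R.t j) (alt k (R.t j) (R.ok j)) f)]
  refine finsum_congr fun g => ?_
  rw [map_smul, hF]

/-- values on alternating deltas are sign-equivariant -/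
lemma hom_stab {s : ℕ} (F : A D k s →ₗ[k] M) (hF : ∀ g f, F (rho k s g f) = ρ g (F f))
    {t : Fin s → Vx} (ht : OK D t) {h : G} {π : Equiv.Perm (Fin s)} (hx : h • t = t ∘ π) :
    ρ h (F (alt k t ht)) = ((Equiv.Perm.sign π : ℤ) : k) • F (alt k t ht) := by
  rw [← hF, ← map_smul]
  congr 1
  ext x
  rw [rho_apply]
  change altF k t (h⁻¹ • x) = ((Equiv.Perm.sign π : ℤ) : k) * altF k t x
  unfold altF
  rw [← Equiv.sum_comp (Equiv.mulLeft π⁻¹), mul_sum]
  refine sum_congr rfl fun σ _ => ?_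
  have h1 : h⁻¹ • x = t ∘ ⇑((Equiv.mulLeft π⁻¹) σ) ↔ x = t ∘ σ := by
    rw [Equiv.coe_mulLeft, Equiv.Perm.coe_mul, ← Function.comp_assoc, ← stab_inv hx,
      ← smul_comp]
    exact ⟨fun e => MulAction.injective h⁻¹ e, fun e => by rw [e]⟩
  rw [mul_ite, mul_zero]
  refine if_congr h1 ?_ rfl
  rw [Equiv.coe_mulLeft, sgn_mul, sgn_inv]

/-- evaluation of a sign-equivariant functional -/
lemma fun_Psi {s : ℕ} {t : Fin s → Vx} (ht : OK D t) (lam : M →ₗ[k] k)
    (hlam : ∀ (h : G) (π : Equiv.Perm (Fin s)), h • t = t ∘ π → ∀ m,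
      lam (ρ h m) = ((Equiv.Perm.sign π : ℤ) : k) * lam m) (m : M) :
    lam (Psi ρ t m (alt k t ht)) = Nst k t * lam m := by
  rw [Psi_apply, map_finsum _ (pfin ρ t m (alt k t ht))]
  unfold Nst
  rw [finsum_mul]
  refine finsum_congr fun g => ?_
  rw [map_smul, smul_eq_mul]
  change altF k t (g • t) * _ = _
  by_cases h0 : altF k t (g • t) = 0
  · rw [h0]; ring
  · obtain ⟨π, hπ⟩ := altF_ne h0
    rw [hlam g π hπ m, hπ, altF_self ht.1]
    ring

/-- different orbits -/
lemma Psi_disj {s : ℕ} {t t' : Fin s → Vx} (ht' : OK D t')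
    (h : ∀ (g : G) (π : Equiv.Perm (Fin s)), g • t = t' ∘ π → False) (m : M) :
    Psi ρ t m (alt k t' ht') = 0 := by
  rw [Psi_apply, ← finsum_zero (α := G)]
  refine finsum_congr fun g => ?_
  have : (alt k t' ht').1 (g • t) = 0 := by
    by_contra hne
    obtain ⟨π, hπ⟩ := altF_ne hne
    exact h g π hπ
  rw [this, zero_smul]

end Hom

end Pool.Agent.H320R3.Act
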