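import Mathlib

set_option autoImplicit false

open CategoryTheory

universe u

namespace Pool.Agent.H320R3.CenterKills

variable {k G : Type u} [CommRing k] [Group G]

/-- The action of a central element `z` as an endomorphism of a representation. -/
noncomputable def zEnd (z : G) (hz : ∀ g, g * z = z * g) (X : Rep.{u} k G) : X ⟶ X :=
  Rep.ofHom (ρ := X.ρ) (σ := X.ρ)
    { toLinearMap := X.ρ z
      isIntertwining' := fun g => by
        rw [← Module.End.mul_eq_comp, ← Module.End.mul_eq_comp, ← map_mul, ← map_mul, hz g] }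

lemma zEnd_apply (z : G) (hz : ∀ g, g * z = z * g) (X : Rep.{u} k G) (a : X) :
    (zEnd z hz X).hom a = X.ρ z a := rfl

lemma zEnd_naturality (z : G) (hz : ∀ g, g * z = z * g) {X Y : Rep.{u} k G} (f : X ⟶ Y) :
    zEnd z hz X ≫ f = f ≫ zEnd z hz Y := by
  ext a
  exact Rep.hom_comm_apply f z a

/-- The action of a central element on a chain complex. -/
noncomputable def zChain (z : G) (hz : ∀ g, g * z = z * g) (P : ChainComplex (Rep.{u} k G) ℕ) :
    P ⟶ P where
  f i := zEnd z hz (P.X i)
  comm' i j _ := zEnd_naturality z hz (P.d i j)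

lemma zEnd_trivial (z : G) (hz : ∀ g, g * z = z * g) :
    zEnd z hz (Rep.trivial k G k) = 𝟙 _ := by
  ext
  rfl

/-- **The centre kills.** If a central element `z` of `G` acts on the representation `A` as
multiplication by `-1` and `2` is invertible in the coefficient ring, the whole cohomology
`Hⁿ(G, A)`, `n ≥ 0`, vanishes. -/
theorem subsingleton_groupCohomology (A : Rep.{u} k G) (z : G) (hz : ∀ g, g * z = z * g)
    (hA : ∀ a : A, A.ρ z a = -a) (h2 : IsUnit (2 : k)) (n : ℕ) :
    Subsingleton (groupCohomology A n) := by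
  classical
  let P := Rep.barResolution k G
  have hcomm : zChain z hz P.complex ≫ P.π = P.π ≫ (ChainComplex.single₀ _).map (𝟙 _) := by
    ext1
    simp only [HomologicalComplex.comp_f]
    change zEnd z hz (P.complex.X 0) ≫ P.π.f 0 = _
    rw [zEnd_naturality]
    congr 1
  let s : Homotopy (zChain z hz P.complex) (𝟙 P.complex) :=
    ProjectiveResolution.liftHomotopy (𝟙 _) _ _ hcomm (by simp)
  have hA' : zEnd z hz A = - 𝟙 A := by
    ext a
    exact hA a
  -- the key identity
  have key : ∀ (i : ℕ) (x : P.complex.X i ⟶ A), P.complex.d (i + 1) i ≫ x = 0 →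
      -x - x = (dNext i s.hom) ≫ x := by
    intro i x hx
    have h1 := s.comm i
    have h2 : zEnd z hz (P.complex.X i) = dNext i s.hom + prevD i s.hom + 𝟙 _ := h1
    have h3 : prevD i s.hom ≫ x = 0 := by
      rw [Homotopy.prevD_chainComplex, Category.assoc, hx, Limits.comp_zero]
    have h4 : zEnd z hz (P.complex.X i) ≫ x = -x := by
      rw [zEnd_naturality, hA']
      simp
    rw [← h4, h2, Preadditive.add_comp, Preadditive.add_comp, h3, Category.id_comp]
    abel
  obtain ⟨u, hu⟩ := h2
  have hinv : (↑u⁻¹ : k) * 2 = 1 := by rw [← hu]; simp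
  have half : ∀ (i : ℕ) (x : P.complex.X i ⟶ A), (↑u⁻¹ : k) • (-x - x) = -x := by
    intro i x
    have : -x - x = (2 : k) • (-x) := by rw [two_smul]; abel
    rw [this, smul_smul, hinv, one_smul]
  have v0 : ∀ x : P.complex.X 0 ⟶ A, P.complex.d 1 0 ≫ x = 0 → x = 0 := by
    intro x hx
    have h1 := key 0 x hx
    rw [Homotopy.dNext_zero_chainComplex, Limits.zero_comp] at h1
    have h3 := half 0 x
    rw [h1, smul_zero] at h3
    exact neg_eq_zero.1 h3.symm
  have v1 : ∀ (m : ℕ) (x : P.complex.X (m + 1) ⟶ A), P.complex.d (m + 2) (m + 1) ≫ x = 0 →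
      ∃ y : P.complex.X m ⟶ A, P.complex.d (m + 1) m ≫ y = x := by
    intro m x hx
    have h1 := key (m + 1) x hx
    rw [Homotopy.dNext_succ_chainComplex, Category.assoc] at h1
    have h3 := half (m + 1) x
    rw [h1] at h3
    refine ⟨-((↑u⁻¹ : k) • (s.hom m (m + 1) ≫ x)), ?_⟩
    rw [Preadditive.comp_neg, Linear.comp_smul, h3, neg_neg]
  have hex : (P.complex.linearYonedaObj k A).ExactAt n := by
    cases n with
    | zero =>
      rw [HomologicalComplex.exactAt_iff' _ 0 0 1 (by simp) (by simp)]
      rw [ShortComplex.moduleCat_exact_iff]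
      intro x hx
      refine ⟨0, ?_⟩
      rw [map_zero]
      exact (v0 x hx).symm
    | succ m =>
      rw [HomologicalComplex.exactAt_iff' _ m (m + 1) (m + 2) (by simp) (by simp)]
      rw [ShortComplex.moduleCat_exact_iff]
      intro x hx
      exact v1 m x hx
  have h0 : Limits.IsZero (groupCohomology A n) :=
    ((HomologicalComplex.exactAt_iff_isZero_homology _ _).1 hex).of_iso (groupCohomologyIso A n P)
  exact ModuleCat.subsingleton_of_isZero h0

end Pool.Agent.H320R3.CenterKills
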