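import Mathlib
import Pool.Agent.H320R3.Geom

set_option autoImplicit false

open Finset Matrix

namespace Pool.Agent.H320R3.Lists

open Geom

abbrev Mat : Type := Matrix (Fin 3) (Fin 3) ℤ

/-- determinant of three columns -/
def det3 (a b c : Fin 3 → ℤ) : ℤ :=
  a 0 * (b 1 * c 2 - b 2 * c 1) - b 0 * (a 1 * c 2 - a 2 * c 1) + c 0 * (a 1 * b 2 - a 2 * b 1)

/-- signed vector -/
def sv (x : Bool) (v : Fin 3 → ℤ) : Fin 3 → ℤ := bif x then v else fun i => - v i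

/-- matrix with given columns -/
def colM (a b c : Fin 3 → ℤ) : Mat := !![a 0, b 0, c 0; a 1, b 1, c 1; a 2, b 2, c 2]

/-- sign of a tuple -/
def sg {n : ℕ} (v : Fin n → Fin n) : ℤ := ∏ j, ∏ i ∈ Iio j, if v i < v j then 1 else -1

def i3 : Fin 3 → Fin 6 := ![0, 1, 2]
def i4a : Fin 4 → Fin 6 := ![1, 2, 3, 4]
def i4b : Fin 4 → Fin 6 := ![0, 1, 2, 3]
def i5 : Fin 5 → Fin 6 := ![0, 1, 2, 3, 4]

/-- stabiliser of the standard tuple of type 3: matrix, inverse, sign -/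
def L3 : List (Mat × Mat × ℤ) :=
  [(!![1, 0, 0; 0, 1, 0; 0, 0, 1], !![1, 0, 0; 0, 1, 0; 0, 0, 1], 1),
   (!![-1, 0, 0; 0, -1, 0; 0, 0, 1], !![-1, 0, 0; 0, -1, 0; 0, 0, 1], 1),
   (!![-1, 0, 0; 0, 0, -1; 0, -1, 0], !![-1, 0, 0; 0, 0, -1; 0, -1, 0], -1),
   (!![-1, 0, 0; 0, 0, 1; 0, 1, 0], !![-1, 0, 0; 0, 0, 1; 0, 1, 0], -1),
   (!![-1, 0, 0; 0, 1, 0; 0, 0, -1], !![-1, 0, 0; 0, 1, 0; 0, 0, -1], 1),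
   (!![0, -1, 0; -1, 0, 0; 0, 0, -1], !![0, -1, 0; -1, 0, 0; 0, 0, -1], -1),
   (!![0, -1, 0; 0, 0, -1; 1, 0, 0], !![0, 0, 1; -1, 0, 0; 0, -1, 0], 1),
   (!![0, -1, 0; 0, 0, 1; -1, 0, 0], !![0, 0, -1; -1, 0, 0; 0, 1, 0], 1),
   (!![0, -1, 0; 1, 0, 0; 0, 0, 1], !![0, 1, 0; -1, 0, 0; 0, 0, 1], -1),
   (!![0, 0, -1; -1, 0, 0; 0, 1, 0], !![0, -1, 0; 0, 0, 1; -1, 0, 0], 1),
   (!![0, 0, -1; 0, -1, 0; -1, 0, 0], !![0, 0, -1; 0, -1, 0; -1, 0, 0], -1),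
   (!![0, 0, -1; 0, 1, 0; 1, 0, 0], !![0, 0, 1; 0, 1, 0; -1, 0, 0], -1),
   (!![0, 0, -1; 1, 0, 0; 0, -1, 0], !![0, 1, 0; 0, 0, -1; -1, 0, 0], 1),
   (!![0, 0, 1; -1, 0, 0; 0, -1, 0], !![0, -1, 0; 0, 0, -1; 1, 0, 0], 1),
   (!![0, 0, 1; 0, -1, 0; 1, 0, 0], !![0, 0, 1; 0, -1, 0; 1, 0, 0], -1),
   (!![0, 0, 1; 0, 1, 0; -1, 0, 0], !![0, 0, -1; 0, 1, 0; 1, 0, 0], -1),
   (!![0, 0, 1; 1, 0, 0; 0, 1, 0], !![0, 1, 0; 0, 0, 1; 1, 0, 0], 1),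
   (!![0, 1, 0; -1, 0, 0; 0, 0, 1], !![0, -1, 0; 1, 0, 0; 0, 0, 1], -1),
   (!![0, 1, 0; 0, 0, -1; -1, 0, 0], !![0, 0, -1; 1, 0, 0; 0, -1, 0], 1),
   (!![0, 1, 0; 0, 0, 1; 1, 0, 0], !![0, 0, 1; 1, 0, 0; 0, 1, 0], 1),
   (!![0, 1, 0; 1, 0, 0; 0, 0, -1], !![0, 1, 0; 1, 0, 0; 0, 0, -1], -1),
   (!![1, 0, 0; 0, -1, 0; 0, 0, -1], !![1, 0, 0; 0, -1, 0; 0, 0, -1], 1),
   (!![1, 0, 0; 0, 0, -1; 0, 1, 0], !![1, 0, 0; 0, 0, 1; 0, -1, 0], -1),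
   (!![1, 0, 0; 0, 0, 1; 0, -1, 0], !![1, 0, 0; 0, 0, -1; 0, 1, 0], -1)]

/-- stabiliser of the standard tuple of type 4a: matrix, inverse, sign -/
def L4a : List (Mat × Mat × ℤ) :=
  [(!![1, 0, 0; 0, 1, 0; 0, 0, 1], !![1, 0, 0; 0, 1, 0; 0, 0, 1], 1),
   (!![-1, -1, -1; 0, 0, 1; 0, 1, 0], !![-1, -1, -1; 0, 0, 1; 0, 1, 0], 1),
   (!![-1, -1, -1; 1, 1, 0; 1, 0, 1], !![1, 1, 1; -1, 0, -1; -1, -1, 0], -1),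
   (!![-1, -1, 0; 0, 1, 0; 0, 0, -1], !![-1, -1, 0; 0, 1, 0; 0, 0, -1], -1),
   (!![-1, -1, 0; 1, 0, 0; 1, 1, 1], !![0, 1, 0; -1, -1, 0; 1, 0, 1], 1),
   (!![-1, 0, -1; 0, -1, 0; 0, 0, 1], !![-1, 0, -1; 0, -1, 0; 0, 0, 1], -1),
   (!![-1, 0, -1; 1, 1, 1; 1, 0, 0], !![0, 0, 1; 1, 1, 0; -1, 0, -1], 1),
   (!![-1, 0, 0; 0, 0, -1; 0, -1, 0], !![-1, 0, 0; 0, 0, -1; 0, -1, 0], 1),
   (!![-1, 0, 0; 1, 0, 1; 1, 1, 0], !![-1, 0, 0; 1, 0, 1; 1, 1, 0], -1),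
   (!![0, -1, 0; -1, 0, -1; 1, 1, 0], !![1, 0, 1; -1, 0, 0; -1, -1, -1], 1),
   (!![0, -1, 0; 1, 1, 1; -1, 0, 0], !![0, 0, -1; -1, 0, 0; 1, 1, 1], -1),
   (!![0, 0, -1; -1, 0, 0; 1, 1, 1], !![0, -1, 0; 1, 1, 1; -1, 0, 0], -1),
   (!![0, 0, -1; 1, 0, 1; -1, -1, 0], !![1, 1, 0; -1, -1, -1; -1, 0, 0], 1),
   (!![0, 0, 1; -1, -1, -1; 1, 0, 0], !![0, 0, 1; -1, -1, -1; 1, 0, 0], -1),
   (!![0, 0, 1; 1, 1, 0; -1, 0, -1], !![-1, 0, -1; 1, 1, 1; 1, 0, 0], 1),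
   (!![0, 1, 0; -1, -1, 0; 1, 0, 1], !![-1, -1, 0; 1, 0, 0; 1, 1, 1], 1),
   (!![0, 1, 0; 1, 0, 0; -1, -1, -1], !![0, 1, 0; 1, 0, 0; -1, -1, -1], -1),
   (!![1, 0, 0; -1, -1, 0; -1, 0, -1], !![1, 0, 0; -1, -1, 0; -1, 0, -1], -1),
   (!![1, 0, 1; -1, 0, 0; -1, -1, -1], !![0, -1, 0; -1, 0, -1; 1, 1, 0], 1),
   (!![1, 0, 1; 0, 0, -1; 0, 1, 0], !![1, 1, 0; 0, 0, 1; 0, -1, 0], -1),
   (!![1, 1, 0; -1, -1, -1; -1, 0, 0], !![0, 0, -1; 1, 0, 1; -1, -1, 0], 1),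
   (!![1, 1, 0; 0, 0, 1; 0, -1, 0], !![1, 0, 1; 0, 0, -1; 0, 1, 0], -1),
   (!![1, 1, 1; -1, 0, -1; -1, -1, 0], !![-1, -1, -1; 1, 1, 0; 1, 0, 1], -1),
   (!![1, 1, 1; 0, -1, 0; 0, 0, -1], !![1, 1, 1; 0, -1, 0; 0, 0, -1], 1)]

/-- stabiliser of the standard tuple of type 4b: matrix, inverse, sign -/
def L4b : List (Mat × Mat × ℤ) :=
  [(!![1, 0, 0; 0, 1, 0; 0, 0, 1], !![1, 0, 0; 0, 1, 0; 0, 0, 1], 1),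
   (!![-1, -1, 0; 0, 1, 0; 0, 0, -1], !![-1, -1, 0; 0, 1, 0; 0, 0, -1], -1),
   (!![-1, -1, 0; 1, 0, 0; 0, 0, 1], !![0, 1, 0; -1, -1, 0; 0, 0, 1], 1),
   (!![-1, 0, 0; 0, -1, 0; 0, 0, 1], !![-1, 0, 0; 0, -1, 0; 0, 0, 1], 1),
   (!![-1, 0, 0; 1, 1, 0; 0, 0, -1], !![-1, 0, 0; 1, 1, 0; 0, 0, -1], -1),
   (!![0, -1, 0; -1, 0, 0; 0, 0, -1], !![0, -1, 0; -1, 0, 0; 0, 0, -1], -1),
   (!![0, -1, 0; 1, 1, 0; 0, 0, 1], !![1, 1, 0; -1, 0, 0; 0, 0, 1], 1),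
   (!![0, 1, 0; -1, -1, 0; 0, 0, 1], !![-1, -1, 0; 1, 0, 0; 0, 0, 1], 1),
   (!![0, 1, 0; 1, 0, 0; 0, 0, -1], !![0, 1, 0; 1, 0, 0; 0, 0, -1], -1),
   (!![1, 0, 0; -1, -1, 0; 0, 0, -1], !![1, 0, 0; -1, -1, 0; 0, 0, -1], -1),
   (!![1, 1, 0; -1, 0, 0; 0, 0, 1], !![0, -1, 0; 1, 1, 0; 0, 0, 1], 1),
   (!![1, 1, 0; 0, -1, 0; 0, 0, -1], !![1, 1, 0; 0, -1, 0; 0, 0, -1], -1)]

/-- stabiliser of the standard tuple of type 5: matrix, inverse, sign -/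
def L5 : List (Mat × Mat × ℤ) :=
  [(!![1, 0, 0; 0, 1, 0; 0, 0, 1], !![1, 0, 0; 0, 1, 0; 0, 0, 1], 1),
   (!![-1, -1, -1; 0, 0, 1; 0, 1, 0], !![-1, -1, -1; 0, 0, 1; 0, 1, 0], 1),
   (!![-1, -1, 0; 0, 1, 0; 0, 0, -1], !![-1, -1, 0; 0, 1, 0; 0, 0, -1], -1),
   (!![-1, 0, -1; 0, -1, 0; 0, 0, 1], !![-1, 0, -1; 0, -1, 0; 0, 0, 1], -1),
   (!![-1, 0, 0; 0, 0, -1; 0, -1, 0], !![-1, 0, 0; 0, 0, -1; 0, -1, 0], 1),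
   (!![1, 0, 1; 0, 0, -1; 0, 1, 0], !![1, 1, 0; 0, 0, 1; 0, -1, 0], -1),
   (!![1, 1, 0; 0, 0, 1; 0, -1, 0], !![1, 0, 1; 0, 0, -1; 0, 1, 0], -1),
   (!![1, 1, 1; 0, -1, 0; 0, 0, -1], !![1, 1, 1; 0, -1, 0; 0, 0, -1], 1)]

/-- stabiliser of the standard tuple of type 6: matrix, inverse, sign -/
def L6 : List (Mat × Mat × ℤ) :=
  [(!![1, 0, 0; 0, 1, 0; 0, 0, 1], !![1, 0, 0; 0, 1, 0; 0, 0, 1], 1),
   (!![-1, -1, -1; 0, 0, 1; 0, 1, 0], !![-1, -1, -1; 0, 0, 1; 0, 1, 0], 1),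
   (!![-1, -1, -1; 0, 1, 0; 1, 0, 0], !![0, 0, 1; 0, 1, 0; -1, -1, -1], 1),
   (!![-1, -1, -1; 1, 0, 0; 0, 0, 1], !![0, 1, 0; -1, -1, -1; 0, 0, 1], 1),
   (!![-1, 0, 0; 0, -1, 0; 1, 1, 1], !![-1, 0, 0; 0, -1, 0; 1, 1, 1], 1),
   (!![-1, 0, 0; 0, 0, -1; 0, -1, 0], !![-1, 0, 0; 0, 0, -1; 0, -1, 0], 1),
   (!![-1, 0, 0; 1, 1, 1; 0, 0, -1], !![-1, 0, 0; 1, 1, 1; 0, 0, -1], 1),
   (!![0, -1, 0; -1, 0, 0; 0, 0, -1], !![0, -1, 0; -1, 0, 0; 0, 0, -1], 1),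
   (!![0, -1, 0; 0, 0, -1; 1, 1, 1], !![1, 1, 1; -1, 0, 0; 0, -1, 0], 1),
   (!![0, -1, 0; 1, 1, 1; -1, 0, 0], !![0, 0, -1; -1, 0, 0; 1, 1, 1], 1),
   (!![0, 0, -1; -1, 0, 0; 1, 1, 1], !![0, -1, 0; 1, 1, 1; -1, 0, 0], 1),
   (!![0, 0, -1; 0, -1, 0; -1, 0, 0], !![0, 0, -1; 0, -1, 0; -1, 0, 0], 1),
   (!![0, 0, -1; 1, 1, 1; 0, -1, 0], !![1, 1, 1; 0, 0, -1; -1, 0, 0], 1),
   (!![0, 0, 1; -1, -1, -1; 1, 0, 0], !![0, 0, 1; -1, -1, -1; 1, 0, 0], 1),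
   (!![0, 0, 1; 0, 1, 0; -1, -1, -1], !![-1, -1, -1; 0, 1, 0; 1, 0, 0], 1),
   (!![0, 0, 1; 1, 0, 0; 0, 1, 0], !![0, 1, 0; 0, 0, 1; 1, 0, 0], 1),
   (!![0, 1, 0; -1, -1, -1; 0, 0, 1], !![-1, -1, -1; 1, 0, 0; 0, 0, 1], 1),
   (!![0, 1, 0; 0, 0, 1; 1, 0, 0], !![0, 0, 1; 1, 0, 0; 0, 1, 0], 1),
   (!![0, 1, 0; 1, 0, 0; -1, -1, -1], !![0, 1, 0; 1, 0, 0; -1, -1, -1], 1),
   (!![1, 0, 0; -1, -1, -1; 0, 1, 0], !![1, 0, 0; 0, 0, 1; -1, -1, -1], 1),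
   (!![1, 0, 0; 0, 0, 1; -1, -1, -1], !![1, 0, 0; -1, -1, -1; 0, 1, 0], 1),
   (!![1, 1, 1; -1, 0, 0; 0, -1, 0], !![0, -1, 0; 0, 0, -1; 1, 1, 1], 1),
   (!![1, 1, 1; 0, -1, 0; 0, 0, -1], !![1, 1, 1; 0, -1, 0; 0, 0, -1], 1),
   (!![1, 1, 1; 0, 0, -1; -1, 0, 0], !![0, 0, -1; 1, 1, 1; 0, -1, 0], 1)]

/-- group elements moving the standard tuple of type 3 to all its faces -/
def C3 : List Mat :=
  [!![0, 0, 1; 1, 0, 0; 0, 1, 0],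
   !![-1, 1, 0; 0, 0, 1; 1, 0, 0],
   !![0, 0, 1; 1, -1, 0; 0, 1, 0],
   !![-1, 0, 1; 1, 0, 0; 0, 1, 0],
   !![0, 0, 1; 0, -1, 0; 1, 1, 0],
   !![-1, -1, 1; 1, 0, 0; 0, 1, 0],
   !![-1, 0, 1; 1, -1, 0; 0, 1, 0],
   !![-1, 0, 1; 0, -1, 0; 1, 1, 0],
   !![-1, 0, 0; 1, 0, 1; 0, 1, 0],
   !![-1, 0, 0; 0, 0, 1; 1, 1, 0],
   !![-1, -1, 0; 1, 0, 1; 0, 1, 0],
   !![-1, 0, 0; 1, -1, 1; 0, 1, 0],
   !![-1, 0, 0; 0, -1, 1; 1, 1, 0],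
   !![-1, -1, 0; 1, 0, 0; 0, 1, 1],
   !![-1, 0, 0; 1, -1, 0; 0, 1, 1],
   !![-1, 0, 0; 0, -1, 0; 1, 1, 1]]

/-- group elements moving the standard tuple of type 4a to all its faces -/
def C4a : List Mat :=
  [!![0, 1, 0; 0, 0, 1; 1, 0, 0],
   !![0, 0, 1; 1, 0, 0; 0, 1, 0],
   !![1, 0, 0; 0, 1, 0; 0, 0, 1]]

/-- group elements moving the standard tuple of type 4b to all its faces -/
def C4b : List Mat :=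
  [!![1, 0, 0; 0, 1, 0; 0, 0, 1],
   !![0, 1, 0; 0, 0, 1; 1, 0, 0],
   !![0, 0, 1; 1, 0, 0; 0, 1, 0],
   !![0, 1, 1; 1, 0, 0; 0, 0, -1],
   !![0, 1, 0; 1, 0, 1; 0, 0, -1],
   !![0, 1, -1; 0, 0, 1; 1, 0, 0],
   !![0, 1, 0; 0, 0, 1; 1, 0, -1],
   !![-1, -1, 1; 1, 0, 0; 0, 1, 0],
   !![0, 0, -1; 0, 1, 1; 1, 0, 0],
   !![0, 0, -1; 0, 1, 0; 1, 0, 1],
   !![-1, -1, 0; 1, 0, 1; 0, 1, 0],
   !![-1, -1, 0; 1, 0, 0; 0, 1, 1]]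

/-- group elements moving the standard tuple of type 5 to all its faces -/
def C5 : List Mat :=
  [!![1, 0, 0; 0, 1, 0; 0, 0, 1],
   !![0, 0, 1; 1, 0, 0; 0, 1, 0],
   !![0, 1, 0; 0, 0, 1; 1, 0, 0],
   !![-1, -1, 0; 1, 0, 1; 0, 1, 0],
   !![-1, 0, -1; 0, 0, 1; 1, 1, 0],
   !![0, -1, 0; 1, 1, 1; -1, 0, 0]]

def memL (L : List (Mat × Mat × ℤ)) (M : Mat) (s : ℤ) : Prop := ∃ r ∈ L, r.1 = M ∧ r.2.2 = s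

instance (L : List (Mat × Mat × ℤ)) (M : Mat) (s : ℤ) : Decidable (memL L M s) := by
  unfold memL; infer_instance

lemma enum3 : ∀ (a b c : Fin 3) (x y z : Bool),
    det3 (sv x (uvec (i3 a))) (sv y (uvec (i3 b))) (sv z (uvec (i3 c))) = 1 →
    memL L3 (colM (sv x (uvec (i3 a))) (sv y (uvec (i3 b))) (sv z (uvec (i3 c)))) (sg ![a, b, c]) := by
  decide +kernel

lemma enum4b : ∀ (a b c : Fin 4) (x y z : Bool),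
    det3 (sv x (uvec (i4b a))) (sv y (uvec (i4b b))) (sv z (uvec (i4b c))) = 1 →
    ∀ d : Fin 4, vx (sv x (uvec (i4b a)) - sv y (uvec (i4b b))) = E (i4b d) →
    memL L4b (colM (sv x (uvec (i4b a))) (sv y (uvec (i4b b))) (sv z (uvec (i4b c))))
      (sg ![a, b, c, d]) := by
  decide +kernel

lemma enum4a : ∀ (a b c : Fin 4) (x y z : Bool),
    det3 (sv x (uvec (i4a a)) + sv z (uvec (i4a c))) (sv x (uvec (i4a a))) (sv y (uvec (i4a b))) = 1 →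
    ∀ d : Fin 4, vx (sv x (uvec (i4a a)) + sv z (uvec (i4a c)) - sv y (uvec (i4a b))) = E (i4a d) →
    memL L4a (colM (sv x (uvec (i4a a)) + sv z (uvec (i4a c))) (sv x (uvec (i4a a)))
      (sv y (uvec (i4a b)))) (sg ![a, b, c, d]) := by
  decide +kernel

lemma enum5 : ∀ (a b c : Fin 5) (x y z : Bool),
    det3 (sv x (uvec (i5 a))) (sv y (uvec (i5 b))) (sv z (uvec (i5 c))) = 1 →
    ∀ d : Fin 5, vx (sv x (uvec (i5 a)) - sv y (uvec (i5 b))) = E (i5 d) →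
    ∀ e : Fin 5, vx (sv x (uvec (i5 a)) - sv z (uvec (i5 c))) = E (i5 e) →
    memL L5 (colM (sv x (uvec (i5 a))) (sv y (uvec (i5 b))) (sv z (uvec (i5 c))))
      (sg ![a, b, c, d, e]) := by
  decide +kernel

lemma enum6 : ∀ (a b c : Fin 6) (x y z : Bool),
    det3 (sv x (uvec a)) (sv y (uvec b)) (sv z (uvec c)) = 1 →
    ∀ d : Fin 6, vx (sv x (uvec a) - sv y (uvec b)) = E d →
    ∀ e : Fin 6, vx (sv x (uvec a) - sv z (uvec c)) = E e →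
    ∀ f : Fin 6, vx (sv y (uvec b) - sv z (uvec c)) = E f →
    memL L6 (colM (sv x (uvec a)) (sv y (uvec b)) (sv z (uvec c)))
      (sg ![a, b, c, d, e, f]) := by
  decide +kernel

/-- the three triples spanning -/
def Span (I : Finset (Fin 6)) : Prop :=
  ∃ i ∈ I, ∃ j ∈ I, ∃ l ∈ I, det3 (uvec i) (uvec j) (uvec l) ≠ 0

instance (I : Finset (Fin 6)) : Decidable (Span I) := by
  unfold Span; infer_instance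

def covers {s : ℕ} (e : Fin s → Fin 6) (L : List Mat) (I : Finset (Fin 6)) : Prop :=
  ∃ M ∈ L, det3 (fun i => M i 0) (fun i => M i 1) (fun i => M i 2) = 1 ∧
    ∀ m : Fin s, ∃ n ∈ I, vx (M *ᵥ uvec (e m)) = E n

instance {s : ℕ} (e : Fin s → Fin 6) (L : List Mat) (I : Finset (Fin 6)) :
    Decidable (covers e L I) := by
  unfold covers; infer_instance

lemma cov3 : ∀ I : Finset (Fin 6), I.card = 3 → Span I → covers i3 C3 I := by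
  decide +kernel

lemma cov4 : ∀ I : Finset (Fin 6), I.card = 4 → covers i4a C4a I ∨ covers i4b C4b I := by
  decide +kernel

lemma cov5 : ∀ I : Finset (Fin 6), I.card = 5 → covers i5 C5 I := by
  decide +kernel

/-! ### The lists consist of stabilising elements -/

def good {s : ℕ} (e : Fin s → Fin 6) (r : Mat × Mat × ℤ) : Prop :=
  det3 (fun i => r.1 i 0) (fun i => r.1 i 1) (fun i => r.1 i 2) = 1 ∧ r.1 * r.2.1 = 1 ∧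
    ∀ m : Fin s, ∃ n : Fin s, vx (r.1 *ᵥ uvec (e m)) = E (e n)

instance {s : ℕ} (e : Fin s → Fin 6) (r : Mat × Mat × ℤ) : Decidable (good e r) := by
  unfold good; infer_instance

lemma good3 : ∀ r ∈ L3, good i3 r := by decide +kernel
lemma good4a : ∀ r ∈ L4a, good i4a r := by decide +kernel
lemma good4b : ∀ r ∈ L4b, good i4b r := by decide +kernel
lemma good5 : ∀ r ∈ L5, good i5 r := by decide +kernel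
lemma good6 : ∀ r ∈ L6, good id r := by decide +kernel

lemma nodup3 : (L3.map Prod.fst).Nodup := by decide +kernel
lemma nodup4a : (L4a.map Prod.fst).Nodup := by decide +kernel
lemma nodup4b : (L4b.map Prod.fst).Nodup := by decide +kernel
lemma nodup5 : (L5.map Prod.fst).Nodup := by decide +kernel
lemma nodup6 : (L6.map Prod.fst).Nodup := by decide +kernel

end Pool.Agent.H320R3.Lists
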