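import Mathlib

set_option autoImplicit false

open Finset Matrix

namespace Pool.Agent.H320R3.Modl

/-- index set of tensors -/
abbrev I : Type := Fin 3 × Fin 3 × Fin 3

/-- The matrix of the action on `W ⊗ W* ⊗ W*` (`W` of rank three) of a matrix `A` with inverse
`B`. -/
def actM {R : Type} [CommRing R] (A B : Matrix (Fin 3) (Fin 3) R) : Matrix I I R :=
  fun x y => A x.1 y.1 * (B y.2.1 x.2.1 * B y.2.2 x.2.2)

lemma actM_eq {R : Type} [CommRing R] (A B : Matrix (Fin 3) (Fin 3) R) :
    actM A B = Matrix.kronecker A (Matrix.kronecker Bᵀ Bᵀ) := rfl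

lemma actM_mul {R : Type} [CommRing R] (A B A' B' : Matrix (Fin 3) (Fin 3) R) :
    actM A B * actM A' B' = actM (A * A') (B' * B) := by
  rw [actM_eq, actM_eq, actM_eq]
  unfold Matrix.kronecker
  rw [← Matrix.mul_kronecker_mul, ← Matrix.mul_kronecker_mul, Matrix.transpose_mul]

lemma actM_one {R : Type} [CommRing R] : actM (1 : Matrix (Fin 3) (Fin 3) R) 1 = 1 := by
  rw [actM_eq]
  unfold Matrix.kronecker
  rw [Matrix.transpose_one, Matrix.one_kronecker_one, Matrix.one_kronecker_one]

/-- The action of `SL_3(R)` on tensors `T = (T i j l)` with one upper and two lower indices. -/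
def tact {R : Type} [CommRing R] (g : Matrix.SpecialLinearGroup (Fin 3) R) :
    (I → R) →ₗ[R] (I → R) := (actM g.1 (g⁻¹).1).mulVecLin

/-- The tensors symmetric in the two lower indices, with zero contraction. -/
def V (R : Type) [CommRing R] : Submodule R (I → R) where
  carrier := {v | (∀ i j l, v (i, j, l) = v (i, l, j)) ∧
    ∀ l, v (0, 0, l) + v (1, 1, l) + v (2, 2, l) = 0}
  add_mem' := by
    rintro v w ⟨h1, h2⟩ ⟨h3, h4⟩
    refine ⟨fun i j l => ?_, fun l => ?_⟩
    · rw [Pi.add_apply, Pi.add_apply, h1 i j l, h3 i j l]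
    · simp only [Pi.add_apply]
      linear_combination h2 l + h4 l
  zero_mem' := ⟨fun _ _ _ => rfl, fun _ => by simp⟩
  smul_mem' := by
    rintro c v ⟨h1, h2⟩
    refine ⟨fun i j l => ?_, fun l => ?_⟩
    · rw [Pi.smul_apply, Pi.smul_apply, h1 i j l]
    · simp only [Pi.smul_apply, smul_eq_mul]
      linear_combination c * h2 l

lemma mulVec_actM {R : Type} [CommRing R] (A B : Matrix (Fin 3) (Fin 3) R) (v : I → R)
    (i j l : Fin 3) : (actM A B *ᵥ v) (i, j, l) =
      ∑ a, ∑ b, ∑ c, A i a * (B b j * B c l) * v (a, b, c) := by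
  rw [Matrix.mulVec, dotProduct, Fintype.sum_prod_type]
  refine sum_congr rfl fun a _ => ?_
  rw [Fintype.sum_prod_type]
  rfl

lemma V_stable {R : Type} [CommRing R] (A B : Matrix (Fin 3) (Fin 3) R) (hBA : B * A = 1)
    {v : I → R} (hv : v ∈ V R) : actM A B *ᵥ v ∈ V R := by
  obtain ⟨h1, h2⟩ := hv
  refine ⟨fun i j l => ?_, fun l => ?_⟩
  · rw [mulVec_actM, mulVec_actM]
    refine sum_congr rfl fun a _ => ?_
    rw [sum_comm]
    refine sum_congr rfl fun b _ => sum_congr rfl fun c _ => ?_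
    rw [h1 a b c]
    ring
  · have e : ∀ b a, B b 0 * A 0 a + B b 1 * A 1 a + B b 2 * A 2 a = (1 : Matrix _ _ R) b a := by
      intro b a
      rw [← hBA, Matrix.mul_apply, Fin.sum_univ_three]
    rw [mulVec_actM, mulVec_actM, mulVec_actM, ← sum_add_distrib, ← sum_add_distrib]
    have h3 : ∀ a, (∑ b, ∑ c, A 0 a * (B b 0 * B c l) * v (a, b, c)) +
        (∑ b, ∑ c, A 1 a * (B b 1 * B c l) * v (a, b, c)) +
        (∑ b, ∑ c, A 2 a * (B b 2 * B c l) * v (a, b, c)) = ∑ c, B c l * v (a, a, c) := by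
      intro a
      rw [← sum_add_distrib, ← sum_add_distrib]
      have h4 : ∀ b, (∑ c, A 0 a * (B b 0 * B c l) * v (a, b, c)) +
          (∑ c, A 1 a * (B b 1 * B c l) * v (a, b, c)) +
          (∑ c, A 2 a * (B b 2 * B c l) * v (a, b, c)) =
          (1 : Matrix (Fin 3) (Fin 3) R) b a * ∑ c, B c l * v (a, b, c) := by
        intro b
        rw [← e b a, mul_sum, ← sum_add_distrib, ← sum_add_distrib]
        refine sum_congr rfl fun c _ => ?_
        ring
      simp only [h4]
      rw [sum_eq_single a]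
      · rw [Matrix.one_apply_eq, one_mul]
      · intro b _ hb
        rw [Matrix.one_apply_ne hb, zero_mul]
      · intro h
        exact absurd (mem_univ _) h
    rw [sum_congr rfl fun a _ => h3 a, sum_comm]
    refine sum_eq_zero fun c _ => ?_
    rw [← mul_sum, Fin.sum_univ_three, h2 c, mul_zero]

lemma tact_mem {R : Type} [CommRing R] (g : Matrix.SpecialLinearGroup (Fin 3) R) {v : I → R}
    (hv : v ∈ V R) : tact g v ∈ V R :=
  V_stable g.1 (g⁻¹).1 (congrArg Subtype.val (inv_mul_cancel g)) hv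

/-- The action of an element of `SL_3(R)` on `V R`. -/
def vact {R : Type} [CommRing R] (g : Matrix.SpecialLinearGroup (Fin 3) R) : V R →ₗ[R] V R :=
  (tact g).restrict fun _ hv => tact_mem g hv

lemma vact_val {R : Type} [CommRing R] (g : Matrix.SpecialLinearGroup (Fin 3) R) (v : V R) :
    (vact g v).1 = actM g.1 (g⁻¹).1 *ᵥ v.1 := rfl

lemma vact_one (R : Type) [CommRing R] :
    vact (1 : Matrix.SpecialLinearGroup (Fin 3) R) = 1 := by
  refine LinearMap.ext fun v => Subtype.ext ?_
  rw [vact_val]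
  have h1 : ((1 : Matrix.SpecialLinearGroup (Fin 3) R)⁻¹).1 = 1 := by
    rw [inv_one]; rfl
  rw [h1]
  change actM (1 : Matrix (Fin 3) (Fin 3) R) 1 *ᵥ v.1 = v.1
  rw [actM_one, Matrix.one_mulVec]

lemma vact_mul {R : Type} [CommRing R] (g h : Matrix.SpecialLinearGroup (Fin 3) R) :
    vact (g * h) = vact g * vact h := by
  refine LinearMap.ext fun v => Subtype.ext ?_
  rw [Module.End.mul_apply, vact_val, vact_val, vact_val, Matrix.mulVec_mulVec]
  have h1 : ((g * h)⁻¹).1 = (h⁻¹).1 * (g⁻¹).1 := by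
    rw [_root_.mul_inv_rev]; rfl
  rw [h1, actM_mul]
  rfl

/-- The action of `SL_3(R)` on `V R`. -/
def repV (R : Type) [CommRing R] : Representation R (Matrix.SpecialLinearGroup (Fin 3) R) (V R) where
  toFun := vact
  map_one' := vact_one R
  map_mul' := vact_mul

lemma repV_apply {R : Type} [CommRing R] (g : Matrix.SpecialLinearGroup (Fin 3) R) (v : V R) :
    (repV R g v).1 = actM g.1 (g⁻¹).1 *ᵥ v.1 := rfl

end Pool.Agent.H320R3.Modl
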