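import Mathlib
import Pool.Agent.H320R3.Lists
import Pool.Agent.H320R3.Ten

set_option autoImplicit false

open Finset Matrix

namespace Pool.Agent.H320R3.Modl

open Geom

/-! ### Integral functionals -/

section Ev

variable {k : Type} [CommRing k]

/-- evaluation of an integral functional -/
def ev (ξ : I → ℤ) (v : I → k) : k := ∑ x, (ξ x : k) * v x

/-- cast of an integral matrix -/
def cm {m n : Type} (A : Matrix m n ℤ) (k : Type) [CommRing k] : Matrix m n k :=
  A.map (Int.castRingHom k)

lemma actM_cm (A B : Matrix (Fin 3) (Fin 3) ℤ) : actM (cm A k) (cm B k) = cm (actM A B) k := by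
  ext x y
  simp [actM, cm]

lemma ev_act (ξ : I → ℤ) (A B : Matrix (Fin 3) (Fin 3) ℤ) (v : I → k) :
    ev ξ (actM (cm A k) (cm B k) *ᵥ v) = ev (ξ ᵥ* actM A B) v := by
  rw [actM_cm]
  have h1 : ∀ (ξ : I → ℤ) (w : I → k), ev ξ w = (fun x => (ξ x : k)) ⬝ᵥ w := fun _ _ => rfl
  rw [h1, h1, Matrix.dotProduct_mulVec]
  congr 1
  funext y
  simp only [Matrix.vecMul, dotProduct, cm, Matrix.map_apply]
  push_cast
  rfl

lemma ev_add (ξ ξ' : I → ℤ) (v : I → k) : ev (ξ + ξ') v = ev ξ v + ev ξ' v := by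
  unfold ev
  rw [← sum_add_distrib]
  refine sum_congr rfl fun x _ => ?_
  rw [Pi.add_apply]
  push_cast
  ring

lemma ev_zsmul (c : ℤ) (ξ : I → ℤ) (v : I → k) : ev (c • ξ) v = (c : k) * ev ξ v := by
  unfold ev
  rw [mul_sum]
  refine sum_congr rfl fun x _ => ?_
  rw [Pi.smul_apply, smul_eq_mul]
  push_cast
  ring

lemma ev_zero (v : I → k) : ev 0 v = 0 := by
  unfold ev
  simp

/-- a coordinate functional -/
def delta (x : I) : I → ℤ := fun y => if x = y then 1 else 0

lemma ev_delta (x : I) (v : I → k) : ev (delta x) v = v x := by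
  unfold ev delta
  rw [sum_eq_single x]
  · simp
  · intro y _ hy
    rw [if_neg (fun h => hy h.symm)]
    simp
  · intro h
    exact absurd (mem_univ _) h

/-- evaluation as a linear map -/
def evL (ξ : I → ℤ) : (I → k) →ₗ[k] k where
  toFun v := ev ξ v
  map_add' v w := by
    unfold ev
    rw [← sum_add_distrib]
    exact sum_congr rfl fun x _ => mul_add _ _ _
  map_smul' c v := by
    unfold ev
    rw [RingHom.id_apply, smul_eq_mul, mul_sum]
    refine sum_congr rfl fun x _ => ?_
    rw [Pi.smul_apply, smul_eq_mul]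
    ring

end Ev

/-! ### Certificates -/

open Lists

abbrev Lst : Type := List (Mat × Mat × ℤ)

/-- rows of the linear systems -/
inductive Row : Type
  | act (n : ℕ) (i j l : Fin 3) : Row
  | sym (i j l : Fin 3) : Row
  | tr (l : Fin 3) : Row
  | lam (n : ℕ) : Row

/-- the functional of a relation -/
def rowAct (r : Mat × Mat × ℤ) (i j l : Fin 3) : I → ℤ :=
  fun y => actM r.1 r.2.1 (i, j, l) y - r.2.2 * delta (i, j, l) y

/-- the functional of a row -/
def form (L : Lst) (Λ : List (I → ℤ)) : Row → (I → ℤ)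
  | .act n i j l => rowAct (L.getD n (1, 1, 1)) i j l
  | .sym i j l => fun y => delta (i, j, l) y - delta (i, l, j) y
  | .tr l => fun y => delta (0, 0, l) y + delta (1, 1, l) y + delta (2, 2, l) y
  | .lam n => Λ.getD n 0

/-- a combination of rows -/
def comb (L : Lst) (Λ : List (I → ℤ)) (c : List (ℤ × Row)) : I → ℤ :=
  fun y => (c.map fun qr => qr.1 * form L Λ qr.2 y).sum

/-- the relations attached to a list -/
def Rel {k : Type} [CommRing k] (L : Lst) (v : I → k) : Prop :=
  ∀ r ∈ L, actM (cm r.1 k) (cm r.2.1 k) *ᵥ v = (r.2.2 : k) • v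

section Cert

variable {k : Type} [Field k]

lemma ev_form {L : Lst} {Λ : List (I → ℤ)} {v : I → k} (hv : v ∈ V k) (hL : Rel L v)
    (hΛ : ∀ ξ ∈ Λ, ev ξ v = 0) (r : Row) : ev (form L Λ r) v = 0 := by
  cases r with
  | act n i j l =>
    have key : ∀ r : Mat × Mat × ℤ,
        actM (cm r.1 k) (cm r.2.1 k) *ᵥ v = (r.2.2 : k) • v →
        ev (rowAct r i j l) v = 0 := by
      intro r hr
      have h1 : rowAct r i j l =
          (fun y => actM r.1 r.2.1 (i, j, l) y) + (-r.2.2) • delta (i, j, l) := by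
        funext y
        simp [rowAct, sub_eq_add_neg]
      rw [h1, ev_add, ev_zsmul, ev_delta]
      have h2 := congrFun hr (i, j, l)
      rw [actM_cm] at h2
      have h3 : ev (fun y => actM r.1 r.2.1 (i, j, l) y) v = (cm (actM r.1 r.2.1) k *ᵥ v) (i, j, l) := by
        unfold ev cm
        rw [Matrix.mulVec, dotProduct]
        rfl
      rw [h3, h2, Pi.smul_apply, smul_eq_mul]
      push_cast
      ring
    by_cases hn : n < L.length
    · have h1 : L.getD n (1, 1, 1) ∈ L := by
        rw [List.getD_eq_getElem _ _ hn]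
        exact List.getElem_mem hn
      exact key _ (hL _ h1)
    · have h1 : L.getD n (1, 1, 1) = (1, 1, 1) := List.getD_eq_default _ _ (by omega)
      change ev (rowAct (L.getD n (1, 1, 1)) i j l) v = 0
      rw [h1]
      refine key (1, 1, 1) ?_
      rw [actM_cm, actM_one]
      have : cm (1 : Matrix I I ℤ) k = 1 := by
        unfold cm
        rw [Matrix.map_one _ (map_zero _) (map_one _)]
      rw [this, Matrix.one_mulVec]
      simp
  | sym i j l =>
    have h1 : form L Λ (Row.sym i j l) = delta (i, j, l) + (-1 : ℤ) • delta (i, l, j) := by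
      funext y
      simp [form, sub_eq_add_neg]
    rw [h1, ev_add, ev_zsmul, ev_delta, ev_delta, hv.1 i j l]
    push_cast
    ring
  | tr l =>
    have h1 : form L Λ (Row.tr l) = delta (0, 0, l) + delta (1, 1, l) + delta (2, 2, l) := rfl
    rw [h1, ev_add, ev_add, ev_delta, ev_delta, ev_delta]
    exact hv.2 l
  | lam n =>
    change ev (Λ.getD n 0) v = 0
    by_cases hn : n < Λ.length
    · have h1 : Λ.getD n 0 ∈ Λ := by
        rw [List.getD_eq_getElem _ _ hn]
        exact List.getElem_mem hn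
      exact hΛ _ h1
    · have h1 : Λ.getD n 0 = 0 := List.getD_eq_default _ _ (by omega)
      rw [h1, ev_zero]

lemma ev_comb {L : Lst} {Λ : List (I → ℤ)} {v : I → k} (hv : v ∈ V k) (hL : Rel L v)
    (hΛ : ∀ ξ ∈ Λ, ev ξ v = 0) (c : List (ℤ × Row)) : ev (comb L Λ c) v = 0 := by
  induction c with
  | nil =>
    have : comb L Λ [] = 0 := rfl
    rw [this, ev_zero]
  | cons a c ih =>
    have : comb L Λ (a :: c) = a.1 • form L Λ a.2 + comb L Λ c := by
      funext y
      simp [comb]
    rw [this, ev_add, ev_zsmul, ev_form hv hL hΛ, ih]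
    ring

/-- vanishing from a certificate -/
lemma cert_zero {L : Lst} {Λ : List (I → ℤ)} (cert : I → List (ℤ × Row)) (d : ℤ)
    (hd : (d : k) ≠ 0) (hc : ∀ x y, comb L Λ (cert x) y = d * delta x y) {v : I → k}
    (hv : v ∈ V k) (hL : Rel L v) (hΛ : ∀ ξ ∈ Λ, ev ξ v = 0) : v = 0 := by
  funext x
  have h1 := ev_comb hv hL hΛ (cert x)
  have h2 : comb L Λ (cert x) = d • delta x := by
    funext y
    rw [hc x y]
    rfl
  rw [h2, ev_zsmul, ev_delta] at h1
  exact (mul_eq_zero.1 h1).resolve_left hd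

/-- a linear relation from a certificate -/
lemma cert_rel {L : Lst} {Λ : List (I → ℤ)} (c : List (ℤ × Row)) (ξ : I → ℤ) (d : ℤ)
    (hd : (d : k) ≠ 0) (hc : ∀ y, comb L Λ c y = d * ξ y) {v : I → k}
    (hv : v ∈ V k) (hL : Rel L v) (hΛ : ∀ ξ ∈ Λ, ev ξ v = 0) : ev ξ v = 0 := by
  have h1 := ev_comb hv hL hΛ c
  have h2 : comb L Λ c = d • ξ := by
    funext y
    rw [hc y]
    rfl
  rw [h2, ev_zsmul] at h1
  exact (mul_eq_zero.1 h1).resolve_left hd

end Cert

end Pool.Agent.H320R3.Modl
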