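import Mathlib
import Pool.Agent.H320R3.Modl

set_option autoImplicit false

open Finset Matrix

namespace Pool.Agent.H320R3.Certs

open Geom Lists Modl

def tens (f : Fin 3 → Fin 3 → Fin 3 → ℤ) : I → ℤ := fun x => f x.1 x.2.1 x.2.2

/-- certificate, type 6 -/
def cert6 : I → List (ℤ × Row)
  | (0, 0, 0) => [(-2, .act 19 0 0 1), (-2, .act 19 2 1 2), (2, .act 7 0 0 1), (2, .act 7 0 2 0), (-2, .act 7 0 2 2), (2, .act 7 2 0 2), (-2, .sym 0 0 2), (2, .sym 2 0 2), (2, .tr 0)]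
  | (0, 0, 1) => [(1, .act 19 0 0 0), (-2, .act 19 0 0 1), (-1, .act 19 0 1 2), (-2, .act 19 2 0 1), (2, .act 7 0 1 2), (-2, .act 7 0 2 2), (1, .act 7 2 0 1), (-1, .sym 0 0 2), (1, .sym 0 1 2), (-1, .sym 2 0 1)]
  | (0, 0, 2) => [(-1, .act 19 0 0 0), (-1, .act 19 0 1 2), (-2, .act 19 2 0 1), (2, .act 7 0 1 2), (-2, .act 7 0 2 2), (1, .act 7 2 0 1), (1, .sym 0 0 2), (1, .sym 0 1 2), (-1, .sym 2 0 1)]
  | (0, 1, 0) => [(1, .act 19 0 0 0), (-2, .act 19 0 0 1), (-1, .act 19 0 1 2), (-2, .act 19 2 0 1), (2, .act 7 0 1 2), (-2, .act 7 0 2 2), (1, .act 7 2 0 1), (-2, .sym 0 0 1), (-1, .sym 0 0 2), (1, .sym 0 1 2), (-1, .sym 2 0 1)]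
  | (0, 1, 1) => [(-2, .act 19 0 1 1), (-2, .act 19 0 1 2), (-4, .act 19 2 0 1), (4, .act 7 0 1 2), (-4, .act 7 0 2 2), (2, .act 7 2 0 1), (2, .sym 0 1 2), (-2, .sym 2 0 1)]
  | (0, 1, 2) => [(-2, .act 19 0 1 2), (-2, .act 19 2 0 1), (2, .act 7 0 1 2), (-2, .act 7 0 2 2), (1, .act 7 2 0 1), (2, .sym 0 1 2), (-1, .sym 2 0 1)]
  | (0, 2, 0) => [(-1, .act 19 0 0 0), (-1, .act 19 0 1 2), (-2, .act 19 2 0 1), (2, .act 7 0 1 2), (-2, .act 7 0 2 2), (1, .act 7 2 0 1), (-1, .sym 0 0 2), (1, .sym 0 1 2), (-1, .sym 2 0 1)]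
  | (0, 2, 1) => [(-2, .act 19 0 1 2), (-2, .act 19 2 0 1), (2, .act 7 0 1 2), (-2, .act 7 0 2 2), (1, .act 7 2 0 1), (-1, .sym 2 0 1)]
  | (0, 2, 2) => [(-2, .act 19 0 1 2), (-4, .act 19 2 0 1), (4, .act 7 0 1 2), (-4, .act 7 0 2 2), (2, .act 7 2 0 1), (2, .sym 0 1 2), (-2, .sym 2 0 1)]
  | (1, 0, 0) => [(2, .act 19 0 1 1), (2, .act 19 0 1 2), (4, .act 19 2 0 1), (-2, .act 7 0 1 1), (-4, .act 7 0 1 2), (4, .act 7 0 2 2), (-2, .act 7 2 0 1), (-2, .sym 0 1 2), (2, .sym 2 0 1)]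
  | (1, 0, 1) => [(-1, .act 19 0 0 0), (2, .act 19 0 0 1), (1, .act 19 0 1 2), (2, .act 19 2 0 1), (-2, .act 7 0 1 0), (-2, .act 7 0 1 2), (2, .act 7 0 2 2), (-1, .act 7 2 0 1), (2, .sym 0 0 1), (1, .sym 0 0 2), (-1, .sym 0 1 2), (1, .sym 2 0 1)]
  | (1, 0, 2) => [(2, .act 19 0 1 2), (2, .act 19 2 0 1), (-4, .act 7 0 1 2), (2, .act 7 0 2 2), (-1, .act 7 2 0 1), (-2, .sym 0 1 2), (1, .sym 2 0 1)]
  | (1, 1, 0) => [(-1, .act 19 0 0 0), (2, .act 19 0 0 1), (1, .act 19 0 1 2), (2, .act 19 2 0 1), (-2, .act 7 0 0 1), (-2, .act 7 0 1 2), (2, .act 7 0 2 2), (-1, .act 7 2 0 1), (1, .sym 0 0 2), (-1, .sym 0 1 2), (1, .sym 2 0 1)]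
  | (1, 1, 1) => [(2, .act 19 0 0 1), (2, .act 19 2 1 2), (-2, .act 7 0 0 0), (-2, .act 7 0 0 1), (-2, .act 7 0 2 0), (2, .act 7 0 2 2), (-2, .act 7 2 0 2), (2, .sym 0 0 2), (-2, .sym 2 0 2), (-2, .tr 0)]
  | (1, 1, 2) => [(1, .act 19 0 0 0), (1, .act 19 0 1 2), (2, .act 19 2 0 1), (-2, .act 7 0 0 2), (-2, .act 7 0 1 2), (2, .act 7 0 2 2), (-1, .act 7 2 0 1), (-1, .sym 0 0 2), (-1, .sym 0 1 2), (1, .sym 2 0 1)]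
  | (1, 2, 0) => [(2, .act 19 0 1 2), (2, .act 19 2 0 1), (-2, .act 7 0 1 2), (-2, .act 7 0 2 1), (2, .act 7 0 2 2), (-1, .act 7 2 0 1), (1, .sym 2 0 1)]
  | (1, 2, 1) => [(1, .act 19 0 0 0), (1, .act 19 0 1 2), (2, .act 19 2 0 1), (-2, .act 7 0 1 2), (-2, .act 7 0 2 0), (2, .act 7 0 2 2), (-1, .act 7 2 0 1), (1, .sym 0 0 2), (-1, .sym 0 1 2), (1, .sym 2 0 1)]
  | (1, 2, 2) => [(2, .act 19 0 1 2), (4, .act 19 2 0 1), (-4, .act 7 0 1 2), (2, .act 7 0 2 2), (-2, .act 7 2 0 1), (-2, .sym 0 1 2), (2, .sym 2 0 1)]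
  | (2, 0, 0) => [(-2, .act 19 0 1 2), (-4, .act 19 2 0 1), (2, .act 19 2 1 1), (4, .act 7 0 1 2), (-2, .act 7 0 2 2), (-2, .act 7 2 0 0), (2, .act 7 2 0 1), (2, .sym 0 1 2), (-2, .sym 2 0 1)]
  | (2, 0, 1) => [(-1, .act 7 2 0 1), (1, .sym 2 0 1)]
  | (2, 0, 2) => [(1, .act 19 0 0 0), (-1, .act 19 0 1 2), (-2, .act 19 2 0 1), (2, .act 19 2 1 2), (2, .act 7 0 1 2), (-2, .act 7 0 2 0), (1, .act 7 2 0 1), (-2, .act 7 2 0 2), (1, .sym 0 0 2), (1, .sym 0 1 2), (-1, .sym 2 0 1)]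
  | (2, 1, 0) => [(-1, .act 7 2 0 1), (-1, .sym 2 0 1)]
  | (2, 1, 1) => [(2, .act 19 0 1 2), (4, .act 19 2 0 1), (-2, .act 19 2 1 1), (-4, .act 7 0 1 2), (2, .act 7 0 2 2), (-2, .act 7 2 0 1), (-2, .sym 0 1 2), (2, .sym 2 0 1)]
  | (2, 1, 2) => [(-1, .act 19 0 0 0), (1, .act 19 0 1 2), (2, .act 19 2 0 1), (-2, .act 19 2 1 2), (-2, .act 7 0 1 2), (2, .act 7 0 2 0), (-1, .act 7 2 0 1), (-1, .sym 0 0 2), (-1, .sym 0 1 2), (1, .sym 2 0 1)]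
  | (2, 2, 0) => [(1, .act 19 0 0 0), (-1, .act 19 0 1 2), (-2, .act 19 2 0 1), (2, .act 19 2 1 2), (2, .act 7 0 1 2), (-2, .act 7 0 2 0), (1, .act 7 2 0 1), (-2, .act 7 2 0 2), (1, .sym 0 0 2), (1, .sym 0 1 2), (-1, .sym 2 0 1), (-2, .sym 2 0 2)]
  | (2, 2, 1) => [(-1, .act 19 0 0 0), (1, .act 19 0 1 2), (2, .act 19 2 0 1), (-2, .act 19 2 1 2), (-2, .act 7 0 1 2), (2, .act 7 0 2 0), (-1, .act 7 2 0 1), (2, .act 7 2 0 2), (-2, .act 7 2 2 0), (-1, .sym 0 0 2), (-1, .sym 0 1 2), (1, .sym 2 0 1), (2, .sym 2 0 2)]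
  | (2, 2, 2) => [(-1, .act 7 2 2 2)]

def den6 : ℤ := 2

/-- certificate, type 5 -/
def cert5 : I → List (ℤ × Row)
  | (0, 0, 0) => [(-8, .act 4 0 0 0)]
  | (0, 0, 1) => [(-4, .act 2 0 0 0), (8, .act 2 0 0 1), (-4, .act 4 0 0 0), (-2, .act 4 1 0 0), (2, .act 4 1 0 1), (2, .act 4 1 1 0), (2, .lam 1), (-4, .sym 1 0 1)]
  | (0, 0, 2) => [(4, .act 2 0 0 0), (-8, .act 2 0 0 1), (4, .act 4 0 0 0), (-16, .act 4 0 0 1), (2, .act 4 1 0 0), (-2, .act 4 1 0 1), (-2, .act 4 1 1 0), (-2, .lam 1), (4, .sym 1 0 1)]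
  | (0, 1, 0) => [(-4, .act 2 0 0 0), (8, .act 2 0 0 1), (-4, .act 4 0 0 0), (-2, .act 4 1 0 0), (2, .act 4 1 0 1), (2, .act 4 1 1 0), (2, .lam 1), (-16, .sym 0 0 1), (-4, .sym 1 0 1)]
  | (0, 1, 1) => [(-6, .act 2 0 0 0), (12, .act 2 0 0 1), (2, .act 2 0 0 2), (2, .act 2 0 2 0), (-8, .act 2 0 2 2), (1, .act 2 2 0 1), (1, .act 2 2 1 0), (4, .act 2 2 2 1), (-6, .act 4 0 0 0), (4, .act 4 0 0 1), (4, .act 4 0 1 0), (-8, .act 4 0 1 1), (-4, .act 4 1 0 0), (4, .act 4 1 0 1), (-4, .act 4 1 1 1), (4, .act 4 1 2 2), (-2, .lam 0), (6, .lam 1), (-8, .sym 0 0 1), (-4, .sym 1 0 1), (-8, .tr 1)]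
  | (0, 1, 2) => [(-8, .act 4 0 1 2), (8, .sym 0 1 2)]
  | (0, 2, 0) => [(4, .act 2 0 0 0), (-8, .act 2 0 0 1), (4, .act 4 0 0 0), (-16, .act 4 0 1 0), (2, .act 4 1 0 0), (-2, .act 4 1 0 1), (-2, .act 4 1 1 0), (-2, .lam 1), (16, .sym 0 0 1), (4, .sym 1 0 1)]
  | (0, 2, 1) => [(-8, .act 4 0 1 2), (-8, .sym 0 1 2)]
  | (0, 2, 2) => [(6, .act 2 0 0 0), (-12, .act 2 0 0 1), (-2, .act 2 0 0 2), (-2, .act 2 0 2 0), (8, .act 2 0 2 2), (-1, .act 2 2 0 1), (-1, .act 2 2 1 0), (-4, .act 2 2 2 1), (6, .act 4 0 0 0), (-4, .act 4 0 0 1), (-4, .act 4 0 1 0), (-8, .act 4 0 1 1), (4, .act 4 1 0 0), (-4, .act 4 1 0 1), (4, .act 4 1 1 1), (-4, .act 4 1 2 2), (2, .lam 0), (-6, .lam 1), (8, .sym 0 0 1), (4, .sym 1 0 1), (8, .tr 1)]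
  | (1, 0, 0) => [(-16, .act 2 0 0 0)]
  | (1, 0, 1) => [(-8, .act 2 0 0 0), (4, .act 4 1 0 0), (-4, .act 4 1 0 1), (-4, .act 4 1 1 0), (-4, .lam 1), (8, .sym 1 0 1)]
  | (1, 0, 2) => [(-16, .act 2 0 0 2)]
  | (1, 1, 0) => [(-8, .act 2 0 0 0), (4, .act 4 1 0 0), (-4, .act 4 1 0 1), (-4, .act 4 1 1 0), (-4, .lam 1), (-8, .sym 1 0 1)]
  | (1, 1, 1) => [(-8, .act 2 0 0 1), (-8, .act 2 2 2 1), (4, .act 4 0 0 0), (4, .act 4 1 0 0), (-4, .act 4 1 0 1), (4, .act 4 1 1 0), (-4, .lam 1), (16, .tr 1)]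
  | (1, 1, 2) => [(-4, .act 2 0 0 0), (-8, .act 2 2 2 1), (2, .act 4 1 0 0), (-2, .act 4 1 0 1), (6, .act 4 1 1 0), (-16, .act 4 1 1 2), (-2, .lam 1), (-4, .sym 1 0 1)]
  | (1, 2, 0) => [(-16, .act 2 0 2 0)]
  | (1, 2, 1) => [(-4, .act 2 0 0 0), (-8, .act 2 2 1 2), (2, .act 4 1 0 0), (6, .act 4 1 0 1), (-2, .act 4 1 1 0), (-16, .act 4 1 2 1), (-2, .lam 1), (4, .sym 1 0 1)]
  | (1, 2, 2) => [(-16, .act 2 0 2 2)]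
  | (2, 0, 0) => [(16, .act 2 0 0 0), (-16, .act 4 1 0 0)]
  | (2, 0, 1) => [(8, .act 2 0 0 0), (8, .act 2 2 0 1), (-8, .act 4 1 0 0)]
  | (2, 0, 2) => [(8, .act 2 0 0 0), (-4, .act 4 1 0 0), (-12, .act 4 1 0 1), (4, .act 4 1 1 0), (4, .lam 1), (-8, .sym 1 0 1)]
  | (2, 1, 0) => [(8, .act 2 0 0 0), (8, .act 2 2 1 0), (-8, .act 4 1 0 0)]
  | (2, 1, 1) => [(16, .act 2 0 2 2), (-16, .act 4 1 2 2)]
  | (2, 1, 2) => [(4, .act 2 0 0 0), (8, .act 2 2 1 2), (-2, .act 4 1 0 0), (-6, .act 4 1 0 1), (2, .act 4 1 1 0), (2, .lam 1), (-4, .sym 1 0 1)]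
  | (2, 2, 0) => [(8, .act 2 0 0 0), (-4, .act 4 1 0 0), (4, .act 4 1 0 1), (-12, .act 4 1 1 0), (4, .lam 1), (8, .sym 1 0 1)]
  | (2, 2, 1) => [(4, .act 2 0 0 0), (8, .act 2 2 2 1), (-2, .act 4 1 0 0), (2, .act 4 1 0 1), (-6, .act 4 1 1 0), (2, .lam 1), (4, .sym 1 0 1)]
  | (2, 2, 2) => [(8, .act 2 0 0 1), (8, .act 2 2 2 1), (-4, .act 4 0 0 0), (-4, .act 4 1 0 0), (4, .act 4 1 0 1), (-4, .act 4 1 1 0), (-16, .act 4 1 1 1), (4, .lam 1), (-16, .tr 1)]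

def den5 : ℤ := 16

/-- certificate, type 4a -/
def cert4a : I → List (ℤ × Row)
  | (0, 0, 0) => [(-12, .act 7 0 0 0)]
  | (0, 0, 1) => [(-4, .act 14 0 0 1), (4, .act 14 0 1 1), (4, .act 14 0 2 2), (12, .act 14 1 1 1), (-4, .act 14 1 1 2), (-2, .act 7 0 0 1), (-2, .act 7 0 1 0), (2, .act 7 1 0 0), (1, .act 7 1 0 1), (1, .act 7 1 0 2), (1, .act 7 1 1 0), (2, .act 7 1 1 1), (4, .act 7 1 1 2), (-3, .act 7 1 2 0), (2, .act 7 1 2 2), (1, .lam 0), (8, .sym 0 0 1), (2, .sym 1 0 1), (2, .sym 1 0 2), (8, .tr 1)]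
  | (0, 0, 2) => [(4, .act 14 0 0 1), (-4, .act 14 0 1 1), (-4, .act 14 0 2 2), (-12, .act 14 1 1 1), (4, .act 14 1 1 2), (-22, .act 7 0 0 1), (2, .act 7 0 1 0), (-2, .act 7 1 0 0), (-1, .act 7 1 0 1), (-1, .act 7 1 0 2), (-1, .act 7 1 1 0), (-2, .act 7 1 1 1), (-4, .act 7 1 1 2), (3, .act 7 1 2 0), (-2, .act 7 1 2 2), (-1, .lam 0), (-8, .sym 0 0 1), (-2, .sym 1 0 1), (-2, .sym 1 0 2), (-8, .tr 1)]
  | (0, 1, 0) => [(-4, .act 14 0 0 1), (4, .act 14 0 1 1), (4, .act 14 0 2 2), (12, .act 14 1 1 1), (-4, .act 14 1 1 2), (-2, .act 7 0 0 1), (-2, .act 7 0 1 0), (2, .act 7 1 0 0), (1, .act 7 1 0 1), (1, .act 7 1 0 2), (1, .act 7 1 1 0), (2, .act 7 1 1 1), (4, .act 7 1 1 2), (-3, .act 7 1 2 0), (2, .act 7 1 2 2), (1, .lam 0), (-16, .sym 0 0 1), (2, .sym 1 0 1), (2, .sym 1 0 2), (8, .tr 1)]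
  | (0, 1, 1) => [(24, .act 14 1 1 1)]
  | (0, 1, 2) => [(-12, .act 7 0 1 2), (12, .sym 0 1 2)]
  | (0, 2, 0) => [(4, .act 14 0 0 1), (-4, .act 14 0 1 1), (-4, .act 14 0 2 2), (-12, .act 14 1 1 1), (4, .act 14 1 1 2), (2, .act 7 0 0 1), (-22, .act 7 0 1 0), (-2, .act 7 1 0 0), (-1, .act 7 1 0 1), (-1, .act 7 1 0 2), (-1, .act 7 1 1 0), (-2, .act 7 1 1 1), (-4, .act 7 1 1 2), (3, .act 7 1 2 0), (-2, .act 7 1 2 2), (-1, .lam 0), (16, .sym 0 0 1), (-2, .sym 1 0 1), (-2, .sym 1 0 2), (-8, .tr 1)]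
  | (0, 2, 1) => [(-12, .act 7 0 1 2), (-12, .sym 0 1 2)]
  | (0, 2, 2) => [(-24, .act 14 1 1 1), (-24, .act 7 0 1 1)]
  | (1, 0, 0) => [(-24, .act 14 0 1 1), (48, .act 14 0 1 2), (-24, .act 14 0 2 2), (24, .act 7 0 1 1), (-24, .act 7 0 1 2), (-24, .act 7 1 0 0), (24, .act 7 1 0 2), (-24, .act 7 1 2 0), (24, .sym 0 1 2), (24, .sym 1 0 2)]
  | (1, 0, 1) => [(8, .act 14 0 0 1), (-8, .act 14 0 1 1), (-8, .act 14 0 2 2), (-16, .act 14 1 1 2), (4, .act 7 0 0 1), (4, .act 7 0 1 0), (-4, .act 7 1 0 0), (-2, .act 7 1 0 1), (-2, .act 7 1 0 2), (-2, .act 7 1 1 0), (-4, .act 7 1 1 1), (16, .act 7 1 1 2), (6, .act 7 1 2 0), (-4, .act 7 1 2 2), (-2, .lam 0), (8, .sym 0 0 1), (20, .sym 1 0 1), (-4, .sym 1 0 2), (8, .tr 1)]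
  | (1, 0, 2) => [(-24, .act 14 0 1 1), (24, .act 14 0 1 2), (-24, .act 14 1 1 1), (-12, .act 7 0 1 2), (-24, .act 7 1 2 0), (12, .sym 0 1 2), (24, .sym 1 0 2)]
  | (1, 1, 0) => [(8, .act 14 0 0 1), (-8, .act 14 0 1 1), (-8, .act 14 0 2 2), (-16, .act 14 1 1 2), (4, .act 7 0 0 1), (4, .act 7 0 1 0), (-4, .act 7 1 0 0), (-2, .act 7 1 0 1), (-2, .act 7 1 0 2), (-2, .act 7 1 1 0), (-4, .act 7 1 1 1), (16, .act 7 1 1 2), (6, .act 7 1 2 0), (-4, .act 7 1 2 2), (-2, .lam 0), (8, .sym 0 0 1), (-4, .sym 1 0 1), (-4, .sym 1 0 2), (8, .tr 1)]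
  | (1, 1, 1) => [(-16, .act 14 0 0 1), (-8, .act 14 0 1 1), (24, .act 14 0 1 2), (-8, .act 14 0 2 2), (-24, .act 14 1 1 1), (8, .act 14 1 1 2), (4, .act 7 0 0 1), (4, .act 7 0 1 0), (-12, .act 7 0 1 2), (-4, .act 7 1 0 0), (-2, .act 7 1 0 1), (22, .act 7 1 0 2), (-2, .act 7 1 1 0), (-4, .act 7 1 1 1), (-8, .act 7 1 1 2), (-18, .act 7 1 2 0), (-4, .act 7 1 2 2), (-2, .lam 0), (-16, .sym 0 0 1), (12, .sym 0 1 2), (-4, .sym 1 0 1), (20, .sym 1 0 2), (8, .tr 1)]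
  | (1, 1, 2) => [(-20, .act 14 0 0 1), (-4, .act 14 0 1 1), (24, .act 14 0 1 2), (-4, .act 14 0 2 2), (-12, .act 14 1 1 1), (4, .act 14 1 1 2), (2, .act 7 0 0 1), (2, .act 7 0 1 0), (-12, .act 7 0 1 2), (-2, .act 7 1 0 0), (-1, .act 7 1 0 1), (23, .act 7 1 0 2), (-1, .act 7 1 1 0), (-2, .act 7 1 1 1), (-28, .act 7 1 1 2), (-21, .act 7 1 2 0), (-2, .act 7 1 2 2), (-1, .lam 0), (-8, .sym 0 0 1), (12, .sym 0 1 2), (-2, .sym 1 0 1), (22, .sym 1 0 2), (-8, .tr 1)]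
  | (1, 2, 0) => [(-24, .act 14 0 1 1), (24, .act 14 0 1 2), (-24, .act 14 1 1 1), (-12, .act 7 0 1 2), (-24, .act 7 1 2 0), (12, .sym 0 1 2)]
  | (1, 2, 1) => [(-20, .act 14 0 0 1), (-4, .act 14 0 1 1), (24, .act 14 0 1 2), (-4, .act 14 0 2 2), (-12, .act 14 1 1 1), (4, .act 14 1 1 2), (2, .act 7 0 0 1), (2, .act 7 0 1 0), (-12, .act 7 0 1 2), (-2, .act 7 1 0 0), (-1, .act 7 1 0 1), (23, .act 7 1 0 2), (-1, .act 7 1 1 0), (-2, .act 7 1 1 1), (-28, .act 7 1 1 2), (-21, .act 7 1 2 0), (-2, .act 7 1 2 2), (-1, .lam 0), (-8, .sym 0 0 1), (12, .sym 0 1 2), (-2, .sym 1 0 1), (22, .sym 1 0 2), (-24, .sym 1 1 2), (-8, .tr 1)]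
  | (1, 2, 2) => [(-24, .act 14 0 1 1), (-24, .act 14 1 1 1), (-24, .act 7 1 2 2)]
  | (2, 0, 0) => [(24, .act 14 0 1 1), (-48, .act 14 0 1 2), (24, .act 14 0 2 2), (-24, .act 7 0 1 1), (24, .act 7 0 1 2), (-24, .act 7 1 0 2), (24, .act 7 1 2 0), (-24, .sym 0 1 2), (-24, .sym 1 0 2)]
  | (2, 0, 1) => [(24, .act 14 0 1 1), (-24, .act 14 0 1 2), (24, .act 14 1 1 1), (12, .act 7 0 1 2), (-24, .act 7 1 0 2), (24, .act 7 1 2 0), (-12, .sym 0 1 2), (-24, .sym 1 0 2)]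
  | (2, 0, 2) => [(-8, .act 14 0 0 1), (8, .act 14 0 1 1), (8, .act 14 0 2 2), (16, .act 14 1 1 2), (-4, .act 7 0 0 1), (-4, .act 7 0 1 0), (4, .act 7 1 0 0), (-22, .act 7 1 0 1), (2, .act 7 1 0 2), (2, .act 7 1 1 0), (4, .act 7 1 1 1), (-16, .act 7 1 1 2), (-6, .act 7 1 2 0), (4, .act 7 1 2 2), (2, .lam 0), (-8, .sym 0 0 1), (-20, .sym 1 0 1), (4, .sym 1 0 2), (-8, .tr 1)]
  | (2, 1, 0) => [(24, .act 14 0 1 1), (-24, .act 14 0 1 2), (24, .act 14 1 1 1), (12, .act 7 0 1 2), (-12, .sym 0 1 2)]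
  | (2, 1, 1) => [(24, .act 14 0 1 1), (24, .act 14 1 1 1)]
  | (2, 1, 2) => [(20, .act 14 0 0 1), (4, .act 14 0 1 1), (-24, .act 14 0 1 2), (4, .act 14 0 2 2), (12, .act 14 1 1 1), (-4, .act 14 1 1 2), (-2, .act 7 0 0 1), (-2, .act 7 0 1 0), (12, .act 7 0 1 2), (2, .act 7 1 0 0), (1, .act 7 1 0 1), (-23, .act 7 1 0 2), (1, .act 7 1 1 0), (2, .act 7 1 1 1), (28, .act 7 1 1 2), (21, .act 7 1 2 0), (-24, .act 7 1 2 1), (2, .act 7 1 2 2), (1, .lam 0), (8, .sym 0 0 1), (-12, .sym 0 1 2), (2, .sym 1 0 1), (-22, .sym 1 0 2), (24, .sym 1 1 2), (8, .tr 1)]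
  | (2, 2, 0) => [(-8, .act 14 0 0 1), (8, .act 14 0 1 1), (8, .act 14 0 2 2), (16, .act 14 1 1 2), (-4, .act 7 0 0 1), (-4, .act 7 0 1 0), (4, .act 7 1 0 0), (2, .act 7 1 0 1), (2, .act 7 1 0 2), (-22, .act 7 1 1 0), (4, .act 7 1 1 1), (-16, .act 7 1 1 2), (-6, .act 7 1 2 0), (4, .act 7 1 2 2), (2, .lam 0), (-8, .sym 0 0 1), (4, .sym 1 0 1), (4, .sym 1 0 2), (-8, .tr 1)]
  | (2, 2, 1) => [(20, .act 14 0 0 1), (4, .act 14 0 1 1), (-24, .act 14 0 1 2), (4, .act 14 0 2 2), (12, .act 14 1 1 1), (-4, .act 14 1 1 2), (-2, .act 7 0 0 1), (-2, .act 7 0 1 0), (12, .act 7 0 1 2), (2, .act 7 1 0 0), (1, .act 7 1 0 1), (-23, .act 7 1 0 2), (1, .act 7 1 1 0), (2, .act 7 1 1 1), (4, .act 7 1 1 2), (21, .act 7 1 2 0), (2, .act 7 1 2 2), (1, .lam 0), (8, .sym 0 0 1), (-12, .sym 0 1 2), (2, .sym 1 0 1), (-22, .sym 1 0 2),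 (8, .tr 1)]
  | (2, 2, 2) => [(16, .act 14 0 0 1), (8, .act 14 0 1 1), (-24, .act 14 0 1 2), (8, .act 14 0 2 2), (24, .act 14 1 1 1), (-8, .act 14 1 1 2), (-4, .act 7 0 0 1), (-4, .act 7 0 1 0), (12, .act 7 0 1 2), (4, .act 7 1 0 0), (2, .act 7 1 0 1), (-22, .act 7 1 0 2), (2, .act 7 1 1 0), (-20, .act 7 1 1 1), (8, .act 7 1 1 2), (18, .act 7 1 2 0), (4, .act 7 1 2 2), (2, .lam 0), (16, .sym 0 0 1), (-12, .sym 0 1 2), (4, .sym 1 0 1), (-20, .sym 1 0 2), (-8, .tr 1)]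

def den4a : ℤ := 24

/-- certificate, type 4b -/
def cert4b : I → List (ℤ × Row)
  | (0, 0, 0) => [(-3, .act 10 0 0 0), (-3, .act 10 0 1 1), (6, .act 8 0 0 0), (-3, .act 8 0 0 1), (-3, .act 8 0 1 0), (3, .act 8 0 1 1)]
  | (0, 0, 1) => [(-3, .act 10 0 1 1), (3, .act 10 1 0 1), (3, .act 8 0 0 0), (-3, .act 8 0 0 1), (3, .act 8 0 1 1), (6, .sym 0 0 1)]
  | (0, 0, 2) => [(3, .act 8 0 0 2), (-3, .lam 1), (3, .tr 2)]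
  | (0, 1, 0) => [(-3, .act 10 0 1 1), (3, .act 10 1 0 1), (3, .act 8 0 0 0), (-3, .act 8 0 0 1), (3, .act 8 0 1 1)]
  | (0, 1, 1) => [(-6, .act 10 0 1 1), (6, .act 8 0 0 0), (-6, .act 8 0 0 1), (-6, .act 8 0 1 0), (6, .act 8 0 1 1)]
  | (0, 1, 2) => [(-3, .act 10 1 0 2), (3, .act 8 0 1 2)]
  | (0, 2, 0) => [(3, .act 8 0 0 2), (-3, .lam 1), (-6, .sym 0 0 2), (3, .tr 2)]
  | (0, 2, 1) => [(-3, .act 10 1 2 0), (3, .act 8 0 2 1)]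
  | (0, 2, 2) => [(-6, .act 10 0 2 2), (6, .act 8 0 2 2)]
  | (1, 0, 0) => [(6, .act 10 0 1 1), (-6, .act 8 0 0 0), (6, .act 8 0 0 1), (6, .act 8 0 1 0)]
  | (1, 0, 1) => [(3, .act 10 0 1 1), (-3, .act 10 1 0 1), (-3, .act 8 0 0 0), (3, .act 8 0 0 1), (6, .act 8 0 1 0), (-3, .act 8 0 1 1)]
  | (1, 0, 2) => [(-3, .act 10 1 0 2), (-3, .act 8 0 1 2)]
  | (1, 1, 0) => [(3, .act 10 0 1 1), (-3, .act 10 1 0 1), (-3, .act 8 0 0 0), (9, .act 8 0 0 1), (-3, .act 8 0 1 1), (-6, .sym 0 0 1)]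
  | (1, 1, 1) => [(3, .act 10 0 0 0), (3, .act 10 0 1 1), (3, .act 8 0 0 1), (3, .act 8 0 1 0), (-3, .act 8 0 1 1)]
  | (1, 1, 2) => [(-3, .act 8 0 0 2), (-3, .lam 1), (3, .tr 2)]
  | (1, 2, 0) => [(-3, .act 10 1 2 0), (-3, .act 8 0 2 1)]
  | (1, 2, 1) => [(3, .act 8 0 0 2), (-6, .act 8 0 2 0), (-3, .lam 1), (-6, .sym 0 0 2), (3, .tr 2)]
  | (1, 2, 2) => [(6, .act 10 0 2 2)]
  | (2, 0, 0) => [(-2, .act 10 2 0 1), (2, .act 8 2 0 0), (2, .lam 0)]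
  | (2, 0, 1) => [(-4, .act 10 2 0 1), (-2, .act 8 2 0 0), (3, .act 8 2 0 1), (1, .lam 0)]
  | (2, 0, 2) => [(-6, .act 10 2 1 2)]
  | (2, 1, 0) => [(-4, .act 10 2 0 1), (-2, .act 8 2 0 0), (-3, .act 8 2 0 1), (1, .lam 0)]
  | (2, 1, 1) => [(-2, .act 10 2 0 1), (-4, .act 8 2 0 0), (2, .lam 0)]
  | (2, 1, 2) => [(6, .act 10 2 1 2), (6, .act 8 2 0 2)]
  | (2, 2, 0) => [(-6, .act 10 2 2 1)]
  | (2, 2, 1) => [(6, .act 10 2 2 1), (6, .act 8 2 2 0)]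
  | (2, 2, 2) => [(6, .lam 1)]

def den4b : ℤ := 6

/-- certificate, type 3 -/
def cert3 : I → List (ℤ × Row)
  | (0, 0, 0) => [(-3, .act 1 0 0 0)]
  | (0, 0, 1) => [(-3, .act 1 0 0 1)]
  | (0, 0, 2) => [(-3, .act 1 1 1 0), (-6, .act 6 0 0 2)]
  | (0, 1, 0) => [(-3, .act 1 0 1 0)]
  | (0, 1, 1) => [(-3, .act 1 0 1 1)]
  | (0, 1, 2) => [(-2, .act 6 0 1 2), (-2, .act 6 0 2 1), (-1, .act 6 1 0 2), (-1, .act 6 1 2 0), (1, .lam 0), (3, .sym 0 1 2)]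
  | (0, 2, 0) => [(-3, .act 1 1 0 1), (-6, .act 6 0 2 0)]
  | (0, 2, 1) => [(-2, .act 6 0 1 2), (-2, .act 6 0 2 1), (-1, .act 6 1 0 2), (-1, .act 6 1 2 0), (1, .lam 0), (-3, .sym 0 1 2)]
  | (0, 2, 2) => [(-3, .act 1 0 2 2)]
  | (1, 0, 0) => [(-3, .act 1 1 0 0)]
  | (1, 0, 1) => [(-3, .act 1 1 0 1)]
  | (1, 0, 2) => [(-2, .act 6 0 1 2), (4, .act 6 0 2 1), (-1, .act 6 1 0 2), (-1, .act 6 1 2 0), (1, .lam 0), (-3, .sym 0 1 2)]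
  | (1, 1, 0) => [(-3, .act 1 1 1 0)]
  | (1, 1, 1) => [(-3, .act 1 1 1 1)]
  | (1, 1, 2) => [(3, .act 1 0 0 1), (-6, .act 6 0 0 1)]
  | (1, 2, 0) => [(4, .act 6 0 1 2), (-2, .act 6 0 2 1), (-1, .act 6 1 0 2), (-1, .act 6 1 2 0), (1, .lam 0), (3, .sym 0 1 2)]
  | (1, 2, 1) => [(3, .act 1 0 1 0), (-6, .act 6 0 1 0)]
  | (1, 2, 2) => [(-3, .act 1 1 2 2)]
  | (2, 0, 0) => [(3, .act 1 1 2 2), (-6, .act 6 1 2 2)]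
  | (2, 0, 1) => [(4, .act 6 0 1 2), (-2, .act 6 0 2 1), (-1, .act 6 1 0 2), (5, .act 6 1 2 0), (1, .lam 0), (3, .sym 0 1 2)]
  | (2, 0, 2) => [(-3, .act 1 2 0 2)]
  | (2, 1, 0) => [(-2, .act 6 0 1 2), (4, .act 6 0 2 1), (5, .act 6 1 0 2), (-1, .act 6 1 2 0), (1, .lam 0), (-3, .sym 0 1 2)]
  | (2, 1, 1) => [(3, .act 1 1 0 0), (-6, .act 6 1 0 0)]
  | (2, 1, 2) => [(-3, .act 1 2 1 2)]
  | (2, 2, 0) => [(-3, .act 1 2 2 0)]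
  | (2, 2, 1) => [(-3, .act 1 2 2 1)]
  | (2, 2, 2) => [(3, .act 1 1 1 1), (-6, .act 6 1 1 1)]

def den3 : ℤ := 6

/-- certificate for a relation -/
def crel4a : List (ℤ × Row) := []
def drel4a : ℤ := 1

/-- certificate for a relation -/
def crel4b : List (ℤ × Row) := [(-1, .lam 0)]
def drel4b : ℤ := 1

def lamA : I → ℤ := tens ![![![0, 0, 0], ![0, 0, 0], ![0, 0, 0]], ![![0, 0, 0], ![0, 0, 0], ![0, 0, 0]], ![![2, -1, 0], ![-1, 2, 0], ![0, 0, 0]]]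

def lamB : I → ℤ := tens ![![![0, 0, 0], ![0, 0, 0], ![0, 0, 0]], ![![0, 0, 0], ![0, 0, 0], ![0, 0, 0]], ![![0, 0, 0], ![0, 0, 0], ![0, 0, 1]]]

def lam3 : I → ℤ := tens ![![![0, 0, 0], ![0, 0, 1], ![0, 1, 0]], ![![0, 0, 1], ![0, 0, 0], ![1, 0, 0]], ![![0, 1, 0], ![1, 0, 0], ![0, 0, 0]]]

def lama : I → ℤ := tens ![![![0, 2, -2], ![2, -4, 0], ![-2, 0, 4]], ![![2, -1, -1], ![-1, -2, 0], ![-1, 0, 2]], ![![-2, 1, 1], ![1, -2, 0], ![1, 0, 2]]]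

def D5bB : I → ℤ := tens ![![![0, 0, 0], ![0, 0, 0], ![0, 0, 0]], ![![1, -1, 0], ![-1, 0, 0], ![0, 0, 0]], ![![-1, 0, 1], ![0, 0, 0], ![1, 0, 0]]]

lemma eq_lama : ∀ r ∈ L4a, ∀ y, (lama ᵥ* actM r.1 r.2.1) y = r.2.2 * lama y := by
  decide +kernel

lemma eq_lamA : ∀ r ∈ L4b, ∀ y, (lamA ᵥ* actM r.1 r.2.1) y = r.2.2 * lamA y := by
  decide +kernel

lemma eq_lamB : ∀ r ∈ L4b, ∀ y, (lamB ᵥ* actM r.1 r.2.1) y = r.2.2 * lamB y := by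
  decide +kernel

lemma eq_lam3 : ∀ r ∈ L3, ∀ y, (lam3 ᵥ* actM r.1 r.2.1) y = r.2.2 * lam3 y := by
  decide +kernel

lemma check6 : ∀ x y, comb L6 [] (cert6 x) y = den6 * delta x y := by
  decide +kernel

lemma check5 : ∀ x y, comb L5 [lama, D5bB] (cert5 x) y = den5 * delta x y := by
  decide +kernel

lemma check4a : ∀ x y, comb L4a [lama] (cert4a x) y = den4a * delta x y := by
  decide +kernel

lemma check4b : ∀ x y, comb L4b [lamA, lamB] (cert4b x) y = den4b * delta x y := by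
  decide +kernel

lemma check3 : ∀ x y, comb L3 [lam3] (cert3 x) y = den3 * delta x y := by
  decide +kernel

def fM5_0 : Mat := !![1, 0, 0; 0, 1, 0; 0, 0, 1]
def fB5_0 : Mat := !![1, 0, 0; 0, 1, 0; 0, 0, 1]
def fP5_0 : Equiv.Perm (Fin 4) := ⟨![0, 1, 2, 3], ![0, 1, 2, 3], by decide, by decide⟩
lemma fS5_0 : Equiv.Perm.sign fP5_0 = 1 := by decide +kernel
lemma fD5_0 : det3 (fun i => fM5_0 i 0) (fun i => fM5_0 i 1) (fun i => fM5_0 i 2) = 1 ∧ fM5_0 * fB5_0 = 1 := by decide +kernel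
lemma fE5_0 : ∀ m : Fin 4, E (i5 ((0 : Fin 5).succAbove m)) = vx (fM5_0 *ᵥ uvec (i4a (fP5_0 m))) := by decide +kernel

def fM5_1 : Mat := !![0, 1, -1; 0, 0, 1; 1, 0, 0]
def fB5_1 : Mat := !![0, 0, 1; 1, 1, 0; 0, 1, 0]
def fP5_1 : Equiv.Perm (Fin 4) := ⟨![1, 0, 2, 3], ![1, 0, 2, 3], by decide, by decide⟩
lemma fS5_1 : Equiv.Perm.sign fP5_1 = -1 := by decide +kernel
lemma fD5_1 : det3 (fun i => fM5_1 i 0) (fun i => fM5_1 i 1) (fun i => fM5_1 i 2) = 1 ∧ fM5_1 * fB5_1 = 1 := by decide +kernel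
lemma fE5_1 : ∀ m : Fin 4, E (i5 ((1 : Fin 5).succAbove m)) = vx (fM5_1 *ᵥ uvec (i4b (fP5_1 m))) := by decide +kernel

def fM5_2 : Mat := !![0, 1, 1; 1, 0, 0; 0, 0, -1]
def fB5_2 : Mat := !![0, 1, 0; 1, 0, 1; 0, 0, -1]
def fP5_2 : Equiv.Perm (Fin 4) := ⟨![1, 0, 3, 2], ![1, 0, 3, 2], by decide, by decide⟩
lemma fS5_2 : Equiv.Perm.sign fP5_2 = 1 := by decide +kernel
lemma fD5_2 : det3 (fun i => fM5_2 i 0) (fun i => fM5_2 i 1) (fun i => fM5_2 i 2) = 1 ∧ fM5_2 * fB5_2 = 1 := by decide +kernel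
lemma fE5_2 : ∀ m : Fin 4, E (i5 ((2 : Fin 5).succAbove m)) = vx (fM5_2 *ᵥ uvec (i4b (fP5_2 m))) := by decide +kernel

def fM5_3 : Mat := !![0, 1, 0; 0, 0, 1; 1, 0, 0]
def fB5_3 : Mat := !![0, 0, 1; 1, 0, 0; 0, 1, 0]
def fP5_3 : Equiv.Perm (Fin 4) := ⟨![1, 2, 0, 3], ![2, 0, 1, 3], by decide, by decide⟩
lemma fS5_3 : Equiv.Perm.sign fP5_3 = 1 := by decide +kernel
lemma fD5_3 : det3 (fun i => fM5_3 i 0) (fun i => fM5_3 i 1) (fun i => fM5_3 i 2) = 1 ∧ fM5_3 * fB5_3 = 1 := by decide +kernel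
lemma fE5_3 : ∀ m : Fin 4, E (i5 ((3 : Fin 5).succAbove m)) = vx (fM5_3 *ᵥ uvec (i4b (fP5_3 m))) := by decide +kernel

def fM5_4 : Mat := !![1, 0, 0; 0, 1, 0; 0, 0, 1]
def fB5_4 : Mat := !![1, 0, 0; 0, 1, 0; 0, 0, 1]
def fP5_4 : Equiv.Perm (Fin 4) := ⟨![0, 1, 2, 3], ![0, 1, 2, 3], by decide, by decide⟩
lemma fS5_4 : Equiv.Perm.sign fP5_4 = 1 := by decide +kernel
lemma fD5_4 : det3 (fun i => fM5_4 i 0) (fun i => fM5_4 i 1) (fun i => fM5_4 i 2) = 1 ∧ fM5_4 * fB5_4 = 1 := by decide +kernel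
lemma fE5_4 : ∀ m : Fin 4, E (i5 ((4 : Fin 5).succAbove m)) = vx (fM5_4 *ᵥ uvec (i4b (fP5_4 m))) := by decide +kernel

def fM4a_0 : Mat := !![-1, -1, 0; 1, 0, 0; 0, 1, 1]
def fB4a_0 : Mat := !![0, 1, 0; -1, -1, 0; 1, 1, 1]
def fP4a_0 : Equiv.Perm (Fin 3) := ⟨![2, 0, 1], ![1, 2, 0], by decide, by decide⟩
lemma fS4a_0 : Equiv.Perm.sign fP4a_0 = 1 := by decide +kernel
lemma fD4a_0 : det3 (fun i => fM4a_0 i 0) (fun i => fM4a_0 i 1) (fun i => fM4a_0 i 2) = 1 ∧ fM4a_0 * fB4a_0 = 1 := by decide +kernel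
lemma fE4a_0 : ∀ m : Fin 3, E (i4a ((0 : Fin 4).succAbove m)) = vx (fM4a_0 *ᵥ uvec (i3 (fP4a_0 m))) := by decide +kernel

def fM4a_1 : Mat := !![-1, -1, 0; 1, 0, 1; 0, 1, 0]
def fB4a_1 : Mat := !![-1, 0, -1; 0, 0, 1; 1, 1, 1]
def fP4a_1 : Equiv.Perm (Fin 3) := ⟨![2, 0, 1], ![1, 2, 0], by decide, by decide⟩
lemma fS4a_1 : Equiv.Perm.sign fP4a_1 = 1 := by decide +kernel
lemma fD4a_1 : det3 (fun i => fM4a_1 i 0) (fun i => fM4a_1 i 1) (fun i => fM4a_1 i 2) = 1 ∧ fM4a_1 * fB4a_1 = 1 := by decide +kernel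
lemma fE4a_1 : ∀ m : Fin 3, E (i4a ((1 : Fin 4).succAbove m)) = vx (fM4a_1 *ᵥ uvec (i3 (fP4a_1 m))) := by decide +kernel

def fM4a_2 : Mat := !![-1, 0, 0; 0, 0, 1; 1, 1, 0]
def fB4a_2 : Mat := !![-1, 0, 0; 1, 0, 1; 0, 1, 0]
def fP4a_2 : Equiv.Perm (Fin 3) := ⟨![2, 1, 0], ![2, 1, 0], by decide, by decide⟩
lemma fS4a_2 : Equiv.Perm.sign fP4a_2 = -1 := by decide +kernel
lemma fD4a_2 : det3 (fun i => fM4a_2 i 0) (fun i => fM4a_2 i 1) (fun i => fM4a_2 i 2) = 1 ∧ fM4a_2 * fB4a_2 = 1 := by decide +kernel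
lemma fE4a_2 : ∀ m : Fin 3, E (i4a ((2 : Fin 4).succAbove m)) = vx (fM4a_2 *ᵥ uvec (i3 (fP4a_2 m))) := by decide +kernel

def fM4a_3 : Mat := !![-1, 0, 0; 1, 0, 1; 0, 1, 0]
def fB4a_3 : Mat := !![-1, 0, 0; 0, 0, 1; 1, 1, 0]
def fP4a_3 : Equiv.Perm (Fin 3) := ⟨![2, 1, 0], ![2, 1, 0], by decide, by decide⟩
lemma fS4a_3 : Equiv.Perm.sign fP4a_3 = -1 := by decide +kernel
lemma fD4a_3 : det3 (fun i => fM4a_3 i 0) (fun i => fM4a_3 i 1) (fun i => fM4a_3 i 2) = 1 ∧ fM4a_3 * fB4a_3 = 1 := by decide +kernel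
lemma fE4a_3 : ∀ m : Fin 3, E (i4a ((3 : Fin 4).succAbove m)) = vx (fM4a_3 *ᵥ uvec (i3 (fP4a_3 m))) := by decide +kernel

def fM4b_0 : Mat := !![-1, 0, 0; 1, 0, 1; 0, 1, 0]
def fB4b_0 : Mat := !![-1, 0, 0; 0, 0, 1; 1, 1, 0]
def fP4b_0 : Equiv.Perm (Fin 3) := ⟨![2, 1, 0], ![2, 1, 0], by decide, by decide⟩
lemma fS4b_0 : Equiv.Perm.sign fP4b_0 = -1 := by decide +kernel
lemma fD4b_0 : det3 (fun i => fM4b_0 i 0) (fun i => fM4b_0 i 1) (fun i => fM4b_0 i 2) = 1 ∧ fM4b_0 * fB4b_0 = 1 := by decide +kernel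
lemma fE4b_0 : ∀ m : Fin 3, E (i4b ((0 : Fin 4).succAbove m)) = vx (fM4b_0 *ᵥ uvec (i3 (fP4b_0 m))) := by decide +kernel

def fM4b_1 : Mat := !![-1, 0, 1; 1, 0, 0; 0, 1, 0]
def fB4b_1 : Mat := !![0, 1, 0; 0, 0, 1; 1, 1, 0]
def fP4b_1 : Equiv.Perm (Fin 3) := ⟨![2, 1, 0], ![2, 1, 0], by decide, by decide⟩
lemma fS4b_1 : Equiv.Perm.sign fP4b_1 = -1 := by decide +kernel
lemma fD4b_1 : det3 (fun i => fM4b_1 i 0) (fun i => fM4b_1 i 1) (fun i => fM4b_1 i 2) = 1 ∧ fM4b_1 * fB4b_1 = 1 := by decide +kernel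
lemma fE4b_1 : ∀ m : Fin 3, E (i4b ((1 : Fin 4).succAbove m)) = vx (fM4b_1 *ᵥ uvec (i3 (fP4b_1 m))) := by decide +kernel

def fM4b_3 : Mat := !![0, 0, 1; 1, 0, 0; 0, 1, 0]
def fB4b_3 : Mat := !![0, 1, 0; 0, 0, 1; 1, 0, 0]
def fP4b_3 : Equiv.Perm (Fin 3) := ⟨![2, 0, 1], ![1, 2, 0], by decide, by decide⟩
lemma fS4b_3 : Equiv.Perm.sign fP4b_3 = 1 := by decide +kernel
lemma fD4b_3 : det3 (fun i => fM4b_3 i 0) (fun i => fM4b_3 i 1) (fun i => fM4b_3 i 2) = 1 ∧ fM4b_3 * fB4b_3 = 1 := by decide +kernel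
lemma fE4b_3 : ∀ m : Fin 3, E (i4b ((3 : Fin 4).succAbove m)) = vx (fM4b_3 *ᵥ uvec (i3 (fP4b_3 m))) := by decide +kernel

end Pool.Agent.H320R3.Certs
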