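import Mathlib
import Pool.Agent.H320R3.Irr

set_option autoImplicit false

open Finset Matrix TensorProduct

namespace Pool.Agent.H320R3.Lat

open Geom Modl Certs Van Irr

variable {k : Type} [Field k]

theorem lattice_equiv {p : ℕ} [hpf : Fact p.Prime] [CharP k p] (h2 : (2 : k) ≠ 0) (h3 : (3 : k) ≠ 0)
    (M : Submodule ℤ (V ℚ)) (hfg : M.FG) (hspan : Submodule.span ℚ (M : Set (V ℚ)) = ⊤)
    (act : G → M →ₗ[ℤ] M)
    (hact : ∀ g m, ((act g m : M) : V ℚ) =
      repV ℚ (Matrix.SpecialLinearGroup.map (Int.castRingHom ℚ) g) (m : V ℚ)) :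
    ∃ e : (k ⊗[ℤ] M) ≃ₗ[k] V k, ∀ g x, e ((act g).baseChange k x) = repZ k g (e x) := by
  classical
  have hfin : Module.Finite ℤ M := Module.Finite.iff_fg.2 hfg
  have hfree : Module.Free ℤ M := inferInstance
  let ι := Module.Free.ChooseBasisIndex ℤ M
  let b : Module.Basis ι ℤ M := Module.Free.chooseBasis ℤ M
  -- the rank is fifteen
  have hli : LinearIndependent ℚ fun i => (b i : V ℚ) := by
    rw [← LinearIndependent.iff_fractionRing ℤ ℚ]
    exact b.linearIndependent.map' M.subtype (Submodule.ker_subtype M)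
  have hsp : ⊤ ≤ Submodule.span ℚ (Set.range fun i => (b i : V ℚ)) := by
    rw [← hspan, Submodule.span_le]
    intro m hm
    have h1 : (⟨m, hm⟩ : M) ∈ Submodule.span ℤ (Set.range b) := by
      rw [b.span_eq]; trivial
    have h4 : m ∈ Submodule.span ℤ (Set.range fun i => (b i : V ℚ)) := by
      have h5 := Submodule.apply_mem_span_image_of_mem_span M.subtype h1
      rw [← Set.range_comp] at h5
      exact h5
    exact Submodule.span_subset_span ℤ ℚ _ h4
  let bQ : Module.Basis ι ℚ (V ℚ) := Module.Basis.mk hli hsp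
  have hcard : Fintype.card ι = 15 := by
    rw [← Module.finrank_eq_card_basis bQ, finrank_V]
  -- denominators
  obtain ⟨N, hN⟩ := IsLocalization.exist_integer_multiples_of_finite (nonZeroDivisors ℤ)
    (fun ix : ι × I => (b ix.1 : V ℚ).1 ix.2)
  choose z hz using hN
  have hz' : ∀ ix : ι × I, ((z ix : ℤ) : ℚ) = ((N : ℤ) : ℚ) * (b ix.1 : V ℚ).1 ix.2 := by
    intro ix
    have := hz ix
    rw [zsmul_eq_mul] at this
    exact this
  have hN0 : ((N : ℤ) : ℚ) ≠ 0 := by exact_mod_cast nonZeroDivisors.coe_ne_zero N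
  have hne : (univ : Finset (ι × I)).Nonempty := by
    have : Nonempty ι := Fintype.card_pos_iff.1 (by rw [hcard]; norm_num)
    exact univ_nonempty
  obtain ⟨g, hg, hg1⟩ := Finset.extract_gcd z hne
  set G' : ℤ := univ.gcd z with hG'
  have hG0 : G' ≠ 0 := by
    intro h0
    obtain ⟨⟨i, -⟩, -⟩ := hne
    have hb0 : (b i : V ℚ) = 0 := by
      ext x
      have h4 := hg (i, x) (mem_univ _)
      rw [h0, zero_mul] at h4
      have h5 := hz' (i, x)
      rw [h4] at h5
      push_cast at h5
      exact (mul_eq_zero.1 h5.symm).resolve_left hN0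
    exact hli.ne_zero i hb0
  have hGQ : ((G' : ℤ) : ℚ) ≠ 0 := by exact_mod_cast hG0
  -- the integral model
  let φ : M →ₗ[ℤ] (I → ℤ) := b.constr ℤ (fun i x => g (i, x))
  have hφ : ∀ (m : M) (x : I), ((N : ℤ) : ℚ) * (m : V ℚ).1 x = ((G' : ℤ) : ℚ) * ((φ m x : ℤ) : ℚ) := by
    let L1 : M →ₗ[ℤ] (I → ℚ) :=
      { toFun := fun m x => ((N : ℤ) : ℚ) * (m : V ℚ).1 x
        map_add' := fun m m' => by
          funext x
          change ((N : ℤ) : ℚ) * ((m : V ℚ).1 x + (m' : V ℚ).1 x) = _
          rw [mul_add]; rfl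
        map_smul' := fun c m => by
          funext x
          change ((N : ℤ) : ℚ) * ((c • (m : V ℚ)).1 x) = c • (((N : ℤ) : ℚ) * (m : V ℚ).1 x)
          rw [zsmul_eq_mul]
          have : (c • (m : V ℚ)).1 x = (c : ℚ) * (m : V ℚ).1 x := by
            rw [← Int.cast_smul_eq_zsmul ℚ c (m : V ℚ)]
            rfl
          rw [this]
          ring }
    let L2 : M →ₗ[ℤ] (I → ℚ) :=
      { toFun := fun m x => ((G' : ℤ) : ℚ) * ((φ m x : ℤ) : ℚ)
        map_add' := fun m m' => by
          funext x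
          simp only [map_add, Pi.add_apply]
          push_cast
          ring
        map_smul' := fun c m => by
          funext x
          simp only [map_smul, Pi.smul_apply, smul_eq_mul, zsmul_eq_mul, RingHom.id_apply]
          push_cast
          ring }
    have hL : L1 = L2 := by
      refine b.ext fun i => ?_
      funext x
      change ((N : ℤ) : ℚ) * (b i : V ℚ).1 x = ((G' : ℤ) : ℚ) * ((φ (b i) x : ℤ) : ℚ)
      have h4 : φ (b i) x = g (i, x) := by
        have := b.constr_basis ℤ (fun i x => g (i, x)) i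
        exact congrFun this x
      rw [h4, ← hz' (i, x), hg (i, x) (mem_univ _)]
      push_cast
      rfl
    intro m x
    exact congrFun (LinearMap.congr_fun hL m) x
  have hφV : ∀ m : M, (∀ i j l, φ m (i, j, l) = φ m (i, l, j)) ∧
      ∀ l, φ m (0, 0, l) + φ m (1, 1, l) + φ m (2, 2, l) = 0 := by
    intro m
    obtain ⟨s1, s2⟩ := (m : V ℚ).2
    constructor
    · intro i j l
      have e1 := hφ m (i, j, l)
      have e2 := hφ m (i, l, j)
      have e3 : (m : V ℚ).1 (i, j, l) = (m : V ℚ).1 (i, l, j) := s1 i j l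
      rw [e3, e2] at e1
      exact_mod_cast (mul_left_cancel₀ hGQ e1).symm
    · intro l
      have e1 := hφ m (0, 0, l)
      have e2 := hφ m (1, 1, l)
      have e3 := hφ m (2, 2, l)
      have e4 : (m : V ℚ).1 (0, 0, l) + (m : V ℚ).1 (1, 1, l) + (m : V ℚ).1 (2, 2, l) = 0 := s2 l
      have e5 : ((G' : ℤ) : ℚ) * (((φ m (0, 0, l) + φ m (1, 1, l) + φ m (2, 2, l) : ℤ)) : ℚ) = 0 := by
        push_cast
        linear_combination -e1 - e2 - e3 + ((N : ℤ) : ℚ) * e4
      exact_mod_cast (mul_eq_zero.1 e5).resolve_left hGQ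
  let l : M →ₗ[ℤ] V k :=
    { toFun := fun m => vecZ (φ m) (hφV m)
      map_add' := fun m m' => by
        ext x
        change ((φ (m + m') x : ℤ) : k) = ((φ m x : ℤ) : k) + ((φ m' x : ℤ) : k)
        rw [map_add, Pi.add_apply]
        push_cast
        rfl
      map_smul' := fun c m => by
        ext x
        change ((φ (c • m) x : ℤ) : k) = (c • vecZ (φ m) (hφV m) : V k).1 x
        have : (c • vecZ (φ m) (hφV m) : V k).1 x = (c : k) * ((φ m x : ℤ) : k) := by
          rw [← Int.cast_smul_eq_zsmul k c (vecZ (φ m) (hφV m) : V k)]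
          rfl
        rw [this, map_smul, Pi.smul_apply, smul_eq_mul]
        push_cast
        rfl }
  -- equivariance
  have hequiv : ∀ (γ : G) (m : M), l (act γ m) = repZ k γ (l m) := by
    intro γ m
    have e1 : ∀ x, φ (act γ m) x = (actM γ.1 (γ⁻¹).1 *ᵥ φ m) x := by
      intro x
      have e2 := hφ (act γ m) x
      rw [hact, repV_apply, ← map_inv] at e2
      have e3 : (actM (Matrix.SpecialLinearGroup.map (Int.castRingHom ℚ) γ).1
          (Matrix.SpecialLinearGroup.map (Int.castRingHom ℚ) γ⁻¹).1) =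
          cm (actM γ.1 (γ⁻¹).1) ℚ := actM_cm _ _
      rw [e3] at e2
      have e4 : ((N : ℤ) : ℚ) * (cm (actM γ.1 (γ⁻¹).1) ℚ *ᵥ (m : V ℚ).1) x =
          ((G' : ℤ) : ℚ) * (((actM γ.1 (γ⁻¹).1 *ᵥ φ m) x : ℤ) : ℚ) := by
        rw [Matrix.mulVec, Matrix.mulVec, dotProduct, dotProduct, mul_sum]
        push_cast
        rw [mul_sum]
        refine sum_congr rfl fun y _ => ?_
        have e5 := hφ m y
        change ((N : ℤ) : ℚ) * (((actM γ.1 (γ⁻¹).1 x y : ℤ) : ℚ) * (m : V ℚ).1 y) = _
        linear_combination ((actM γ.1 (γ⁻¹).1 x y : ℤ) : ℚ) * e5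
      rw [e4] at e2
      exact_mod_cast (mul_left_cancel₀ hGQ e2).symm
    ext x
    change ((φ (act γ m) x : ℤ) : k) = (repZ k γ (l m)).1 x
    rw [e1, repZ_apply, actM_cm, Matrix.mulVec, Matrix.mulVec, dotProduct, dotProduct]
    push_cast
    rfl
  let ψ : (k ⊗[ℤ] M) →ₗ[k] V k := l.liftBaseChange k
  have hψ : ∀ (γ : G) (x : k ⊗[ℤ] M), ψ ((act γ).baseChange k x) = repZ k γ (ψ x) := by
    intro γ x
    induction x using TensorProduct.induction_on with
    | zero => simp
    | tmul c m =>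
      rw [LinearMap.baseChange_tmul, LinearMap.liftBaseChange_tmul, LinearMap.liftBaseChange_tmul,
        hequiv, map_smul]
    | add x y hx hy => rw [map_add, map_add, map_add, map_add, hx, hy]
  -- surjectivity
  have hsurj : Function.Surjective ψ := by
    have hstab : ∀ γ : G, ∀ w ∈ LinearMap.range ψ, repZ k γ w ∈ LinearMap.range ψ := by
      rintro γ _ ⟨x, rfl⟩
      exact ⟨(act γ).baseChange k x, hψ γ x⟩
    rcases irreducible h2 h3 (LinearMap.range ψ) hstab with h | h
    · exfalso
      have hdiv : ∀ ix ∈ (univ : Finset (ι × I)), (p : ℤ) ∣ g ix := by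
        rintro ⟨i, x⟩ -
        have h4 : ψ (1 ⊗ₜ b i) = 0 := by
          have : ψ (1 ⊗ₜ b i) ∈ LinearMap.range ψ := ⟨_, rfl⟩
          rw [h] at this
          exact this
        rw [LinearMap.liftBaseChange_tmul, one_smul] at h4
        have h5 : ((φ (b i) x : ℤ) : k) = 0 := congrFun (congrArg Subtype.val h4) x
        have h6 : φ (b i) x = g (i, x) := by
          have := b.constr_basis ℤ (fun i x => g (i, x)) i
          exact congrFun this x
        rw [h6] at h5
        exact (CharP.intCast_eq_zero_iff k p _).1 h5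
      have h7 : (p : ℤ) ∣ univ.gcd g := Finset.dvd_gcd hdiv
      rw [hg1] at h7
      have h8 := Int.isUnit_iff.1 (isUnit_of_dvd_one h7)
      have h9 := hpf.out.two_le
      omega
    · exact LinearMap.range_eq_top.1 h
  have hfr : Module.finrank k (k ⊗[ℤ] M) = Module.finrank k (V k) := by
    rw [Module.finrank_baseChange, finrank_V, Module.finrank_eq_card_basis b, hcard]
  have hinj : Function.Injective ψ :=
    (LinearMap.injective_iff_surjective_of_finrank_eq_finrank hfr).2 hsurj
  exact ⟨LinearEquiv.ofBijective ψ ⟨hinj, hsurj⟩, fun γ x => hψ γ x⟩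

end Pool.Agent.H320R3.Lat
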