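import Mathlib
import Pool.Agent.H320R3.Ten

set_option autoImplicit false

open CategoryTheory TensorProduct Matrix
open scoped MatrixGroups

namespace Pool.Agent.H320R3.Setup15

open Pool.Agent.H320R3.Modl

noncomputable section

/-! ### The Galois side -/

/-- The algebraic closure of `ℚ`. -/
noncomputable abbrev Qbar : Type := AlgebraicClosure ℚ

/-- The absolute Galois group of `ℚ` (with the Krull topology). -/
noncomputable abbrev GQ : Type := AlgebraicClosure ℚ ≃ₐ[ℚ] AlgebraicClosure ℚ

/-- `A` is (the valuation ring of) a place of `Qbar` above the prime `ℓ`. -/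
def Above (l : ℕ) (A : ValuationSubring Qbar) : Prop := (l : Qbar) ∈ A.nonunits

/-- The decomposition group of a place of `Qbar`. -/
abbrev decomp (A : ValuationSubring Qbar) : Subgroup GQ := A.decompositionSubgroup ℚ

/-- The inertia group of a place of `Qbar`, as a subgroup of the Galois group. -/
def inertia (A : ValuationSubring Qbar) : Subgroup GQ :=
  (A.inertiaSubgroup ℚ).map (A.decompositionSubgroup ℚ).subtype

/-- `c` is a complex conjugation: it is induced by complex conjugation of `ℂ` through some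
embedding of `Qbar` in `ℂ`. -/
def IsComplexConj (c : GQ) : Prop :=
  ∃ ι : Qbar →+* ℂ, ∀ z : Qbar, ι (c z) = (starRingEnd ℂ) (ι z)

/-- The mod `p` cyclotomic character, with values in the units of a field `k` of
characteristic `p`: the reduction of the `p`-adic cyclotomic character. -/
noncomputable def omega (p : ℕ) [Fact p.Prime] (k : Type) [Field k] [CharP k p] : GQ →* kˣ :=
  (Units.map (ZMod.castHom (dvd_refl p) k).toMonoidHom).comp
    ((Units.map (PadicInt.toZMod (p := p)).toMonoidHom).comp
      ((cyclotomicCharacter Qbar p).comp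
        { toFun := fun σ : GQ => (σ : Qbar ≃+* Qbar)
          map_one' := rfl
          map_mul' := fun _ _ => rfl }))

/-! ### The groups `SL_n` and `PGL_n` -/

/-- The Borel subgroup of upper triangular matrices in `SL_n(R)`. -/
def borel (n : ℕ) (R : Type) [CommRing R] : Subgroup SL(n, R) where
  carrier := {g : SL(n, R) | Matrix.BlockTriangular g.1 id}
  mul_mem' := fun {a b} ha hb => by
    change Matrix.BlockTriangular (a.1 * b.1) id
    exact Matrix.BlockTriangular.mul ha hb
  one_mem' := by
    change Matrix.BlockTriangular (1 : Matrix (Fin n) (Fin n) R) id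
    exact blockTriangular_one
  inv_mem' := fun {a} ha => by
    change Matrix.BlockTriangular (adjugate a.1) id
    have hdet : (a.1).det = 1 := a.2
    have hunit : IsUnit (a.1).det := by rw [hdet]; exact isUnit_one
    let _ := Matrix.invertibleOfIsUnitDet _ hunit
    have h1 := blockTriangular_inv_of_blockTriangular
      (M := a.1) (b := (id : Fin n → Fin n)) ha
    rw [Matrix.inv_def, hdet, Ring.inverse_one, one_smul] at h1
    exact h1

/-- `Γ₀(N)`: the preimage in `SL_n(ℤ)` of the Borel subgroup of `SL_n(ℤ/N)`. -/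
def Gamma0 (n N : ℕ) : Subgroup SL(n, ℤ) :=
  (borel n (ZMod N)).comap (SpecialLinearGroup.map (Int.castRingHom (ZMod N)))

/-- The Lie algebra of `PGL_n` over `k`: all matrices modulo the scalar ones. -/
abbrev LiePGL (n : ℕ) (k : Type) [Field k] : Type :=
  Matrix (Fin n) (Fin n) k ⧸ (Submodule.span k {(1 : Matrix (Fin n) (Fin n) k)})

/-- Conjugation by `g` on matrices. -/
noncomputable def conjMat {n : ℕ} {k : Type} [Field k] (g : GL (Fin n) k) :
    Matrix (Fin n) (Fin n) k →ₗ[k] Matrix (Fin n) (Fin n) k :=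
  (LinearMap.mulLeft k (g : Matrix (Fin n) (Fin n) k)).comp
    (LinearMap.mulRight k ((g⁻¹ : GL (Fin n) k) : Matrix (Fin n) (Fin n) k))

/-- The adjoint action of (the class of) `g` on the Lie algebra of `PGL_n`. -/
noncomputable def Ad {n : ℕ} {k : Type} [Field k] (g : GL (Fin n) k) :
    LiePGL n k →ₗ[k] LiePGL n k :=
  Submodule.mapQ _ _ (conjMat g) (by
    rw [Submodule.span_le, Set.singleton_subset_iff]
    simp only [SetLike.mem_coe, Submodule.mem_comap]
    have : conjMat g (1 : Matrix (Fin n) (Fin n) k) = 1 := by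
      simp [conjMat]
    rw [this]
    exact Submodule.mem_span_singleton_self _)

/-! ### Weights of `SL_n` -/

/-- A character of the diagonal torus of `SL_n`, `diag(t₁, …, t_n) ↦ ∏ tᵢ ^ xᵢ`, is strongly regular
when `⟨x, α^∨⟩ = x i - x (i + 1) ≥ 2` for every simple coroot. -/
def StronglyRegular {n : ℕ} (x : Fin n → ℤ) : Prop :=
  ∀ (i : ℕ) (hi : i + 1 < n), 2 ≤ x ⟨i, by omega⟩ - x ⟨i + 1, hi⟩

/-- The half-sum `ρ` of the positive roots of `SL_n` (as a character of the diagonal torus, on
which the constant vector is trivial): `ρ = (n - 1, n - 2, …, 0)`. -/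
def rho (n : ℕ) (i : Fin n) : ℤ := (n : ℤ) - 1 - i

/-- `π` is an irreducible representation of `SL_n(ℚ)` over `ℚ` with a highest weight vector of
weight `wt`. -/
structure IsIrreducibleOfHighestWeight {n : ℕ} {V : Type} [AddCommGroup V] [Module ℚ V]
    (π : Representation ℚ SL(n, ℚ) V) (wt : Fin n → ℤ) : Prop where
  irreducible : ∀ W : Submodule ℚ V, (∀ g, ∀ w ∈ W, π g w ∈ W) → W = ⊥ ∨ W = ⊤
  highest : ∃ v : V, v ≠ 0 ∧ ∀ b ∈ borel n ℚ, π b v = (∏ i, (b i i) ^ (wt i)) • v

/-- `M` is a lattice in `V` stable under `SL_n(ℤ)`. -/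
structure IsStableLattice {n : ℕ} {V : Type} [AddCommGroup V] [Module ℚ V]
    (π : Representation ℚ SL(n, ℚ) V) (M : Submodule ℤ V) : Prop where
  fg : M.FG
  span : Submodule.span ℚ (M : Set V) = ⊤
  stable : ∀ g : SL(n, ℤ), ∀ m ∈ M,
    π (SpecialLinearGroup.map (Int.castRingHom ℚ) g) m ∈ M

/-- The action of an element of `Γ₀(N)` on a stable lattice. -/
noncomputable def latAct {n : ℕ} {V : Type} [AddCommGroup V] [Module ℚ V]
    {π : Representation ℚ SL(n, ℚ) V} {M : Submodule ℤ V} (hM : IsStableLattice π M) (N : ℕ)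
    (g : Gamma0 n N) : M →ₗ[ℤ] M :=
  ((π (SpecialLinearGroup.map (Int.castRingHom ℚ) (g : SL(n, ℤ)))).restrictScalars
    ℤ).restrict (fun m hm => hM.stable _ m hm)

lemma latAct_one {n : ℕ} {V : Type} [AddCommGroup V] [Module ℚ V]
    {π : Representation ℚ SL(n, ℚ) V} {M : Submodule ℤ V} (hM : IsStableLattice π M) (N : ℕ) :
    latAct hM N 1 = 1 := by
  ext m
  simp [latAct]

lemma latAct_mul {n : ℕ} {V : Type} [AddCommGroup V] [Module ℚ V]
    {π : Representation ℚ SL(n, ℚ) V} {M : Submodule ℤ V} (hM : IsStableLattice π M) (N : ℕ)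
    (g h : Gamma0 n N) : latAct hM N (g * h) = latAct hM N g * latAct hM N h := by
  ext m
  change π (SpecialLinearGroup.map (Int.castRingHom ℚ) ((g : SL(n, ℤ)) * (h : SL(n, ℤ)))) m.1 =
    π (SpecialLinearGroup.map (Int.castRingHom ℚ) (g : SL(n, ℤ)))
      (π (SpecialLinearGroup.map (Int.castRingHom ℚ) (h : SL(n, ℤ))) m.1)
  rw [map_mul, map_mul, Module.End.mul_apply]

/-- The action of `Γ₀(N)` on a stable lattice. -/
noncomputable def latticeRep {n : ℕ} {V : Type} [AddCommGroup V] [Module ℚ V]
    {π : Representation ℚ SL(n, ℚ) V} {M : Submodule ℤ V} (hM : IsStableLattice π M) (N : ℕ) :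
    Representation ℤ (Gamma0 n N) M where
  toFun := latAct hM N
  map_one' := latAct_one hM N
  map_mul' := latAct_mul hM N

/-- Extension of scalars from `ℤ` to `k` of endomorphisms, as a homomorphism of monoids. -/
noncomputable def tensorHom (k : Type) [Field k] (M : Type) [AddCommGroup M] :
    Module.End ℤ M →* Module.End k (k ⊗[ℤ] M) where
  toFun f := f.baseChange k
  map_one' := LinearMap.baseChange_one ℤ M
  map_mul' f g := LinearMap.baseChange_mul f g

/-- The action of `Γ₀(N)` on `M ⊗ k`. -/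
noncomputable def modRep {n : ℕ} {V : Type} [AddCommGroup V] [Module ℚ V]
    {π : Representation ℚ SL(n, ℚ) V} {M : Submodule ℤ V} (hM : IsStableLattice π M) (N : ℕ)
    (k : Type) [Field k] : Representation k (Gamma0 n N) (k ⊗[ℤ] M) :=
  (tensorHom k M).comp (latticeRep hM N)

/-- The cohomology group `H^i(Γ₀(N), M ⊗ k)`. -/
noncomputable abbrev H {n : ℕ} {V : Type} [AddCommGroup V] [Module ℚ V]
    {π : Representation ℚ SL(n, ℚ) V} {M : Submodule ℤ V} (hM : IsStableLattice π M) (N : ℕ)
    (k : Type) [Field k] (i : ℕ) : ModuleCat k :=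
  groupCohomology (Rep.of (modRep hM N k)) i

/-! ### The hypotheses on the Galois representation -/

/-- `r` is odd: for every complex conjugation `c`, the trace of `Ad (r c)` on the Lie algebra of
`PGL_n` over `k` is `rank(G) - 2 rank(K) = (n - 1) - 2 ⌊n / 2⌋` (here `G = SL_n(ℝ)`,
`K = SO(n)`). -/
def IsOdd {n : ℕ} {k : Type} [Field k] (r : GQ →* PGL(n, k)) : Prop :=
  ∀ c : GQ, IsComplexConj c → ∀ g : GL (Fin n) k, ProjGenLinGroup.mk g = r c →
    LinearMap.trace k (LiePGL n k) (Ad g) = (((n : ℤ) - 1 - 2 * ((n / 2 : ℕ) : ℤ) : ℤ) : k)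

/-- `r` is nearly ordinary of type `x` at `p`: at every place above `p` the restriction of `r` to
the decomposition group is conjugate into the Borel subgroup of upper triangular matrices, in
such a way that on inertia the diagonal part is the class of `diag(ω ^ x₁, …, ω ^ x_n)`. -/
def IsNearlyOrdinary (p : ℕ) [Fact p.Prime] {n : ℕ} {k : Type} [Field k] [CharP k p]
    (x : Fin n → ℤ) (r : GQ →* PGL(n, k)) : Prop :=
  ∀ A : ValuationSubring Qbar, Above p A → ∃ g : GL (Fin n) k, ∀ σ ∈ decomp A,
    ∃ b : GL (Fin n) k, Matrix.BlockTriangular (b : Matrix (Fin n) (Fin n) k) id ∧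
      r σ = ProjGenLinGroup.mk (g * b * g⁻¹) ∧
      (σ ∈ inertia A → ∃ c : kˣ, ∀ i, (b : Matrix (Fin n) (Fin n) k) i i =
        ((c * (omega p k σ) ^ (x i) : kˣ) : k))

/-- `r` is Steinberg at `l`: the image of inertia is the cyclic group generated by (the class of)
a principal unipotent matrix. -/
def IsSteinbergAt (l : ℕ) {n : ℕ} {k : Type} [Field k] (r : GQ →* PGL(n, k)) : Prop :=
  ∀ A : ValuationSubring Qbar, Above l A → ∃ u : GL (Fin n) k,
    ((u : Matrix (Fin n) (Fin n) k) - 1) ^ n = 0 ∧
    ((u : Matrix (Fin n) (Fin n) k) - 1) ^ (n - 1) ≠ 0 ∧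
    (inertia A).map r = Subgroup.zpowers (ProjGenLinGroup.mk u)

/-- `r` is unramified at `l`. -/
def IsUnramifiedAt (l : ℕ) {n : ℕ} {k : Type} [Field k] (r : GQ →* PGL(n, k)) : Prop :=
  ∀ A : ValuationSubring Qbar, Above l A → ∀ σ ∈ inertia A, r σ = 1

/-- All the hypotheses of the question, for `G = SL_n`, on the weight `x`, the finite set `S` of
primes and the representation `r` of the absolute Galois group of `ℚ`. -/
structure Hypotheses (p : ℕ) [Fact p.Prime] {n : ℕ} (k : Type) [Field k] [CharP k p]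
    (x : Fin n → ℤ) (S : Finset ℕ) (r : GQ →* PGL(n, k)) : Prop where
  regular : StronglyRegular x
  primes : ∀ l ∈ S, l.Prime ∧ l ≠ p
  continuous : IsOpen (r.ker : Set GQ)
  odd : IsOdd r
  ordinary : IsNearlyOrdinary p x r
  steinberg : ∀ l ∈ S, IsSteinbergAt l r
  unramified : ∀ l : ℕ, l.Prime → l ∉ S → l ≠ p → IsUnramifiedAt l r

/-! ### The weight, the Galois representation and the 15-dimensional representation -/

/-- The weight: the character `diag (t₁, t₂, t₃) ↦ t₁ ^ 5 t₂ ^ 3` of the diagonal torus. -/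
def x0 : Fin 3 → ℤ := ![5, 3, 0]

/-- Diagonal matrices. -/
noncomputable def diagHom (k : Type) [Field k] : (Fin 3 → kˣ) →* GL (Fin 3) k :=
  (Units.map (Matrix.diagonalRingHom (Fin 3) k).toMonoidHom).comp
    (MulEquiv.piUnits (M := fun _ : Fin 3 => k)).symm.toMonoidHom

/-- The representation `σ ↦` class of `diag (ω(σ) ^ 5, ω(σ) ^ 3, 1)` in `PGL_3(k)`. -/
noncomputable def rbar (p : ℕ) [Fact p.Prime] (k : Type) [Field k] [CharP k p] :
    GQ →* PGL(3, k) :=
  ProjGenLinGroup.mk.comp ((diagHom k).comp (MonoidHom.pi fun i => (omega p k) ^ (x0 i)))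

/-- The irreducible representation of `SL_3(ℚ)` used here: tensors `T = (T i j l)` with one upper
index `i` and two lower indices `j, l`, symmetric in the lower indices and with zero contraction,
`SL_3` acting by `(g T) i j l = ∑ g i a (g⁻¹) b j (g⁻¹) c l T a b c`. -/
noncomputable abbrev W15 : Type := V ℚ

/-- The action of `SL_3(ℚ)` on `W15`. -/
noncomputable abbrev pi15 : Representation ℚ SL(3, ℚ) W15 := repV ℚ

end

end Pool.Agent.H320R3.Setup15
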