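import Mathlib
import Pool.Agent.H320R3.Lat
import Pool.Agent.H320R3.Setup15

set_option autoImplicit false

open CategoryTheory TensorProduct Matrix
open scoped MatrixGroups

namespace Pool.Agent.H320R3.Proof15

open Pool.Agent.H320R3.Modl Pool.Agent.H320R3.Van Pool.Agent.H320R3.Irr Pool.Agent.H320R3.Lat
open Pool.Agent.H320R3 Pool.Agent.H320R3.Setup15

noncomputable section

/-! ### The mod `p` cyclotomic character -/

section Cyclotomic

variable (p : ℕ) [Fact p.Prime] (k : Type) [Field k] [CharP k p]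

lemma omega_spec (σ : GQ) : ∃ n : ℕ, (∀ t : Qbar, t ^ p = 1 → σ t = t ^ n) ∧
    ((omega p k σ : kˣ) : k) = (n : k) := by
  have hne : ∀ i : ℕ, NeZero ((p ^ i : ℕ) : Qbar) := fun i =>
    ⟨by exact_mod_cast pow_ne_zero i (Fact.out : p.Prime).ne_zero⟩
  have hinst : ∀ i, HasEnoughRootsOfUnity Qbar (p ^ i) := fun i => inferInstance
  set a : ℤ_[p] := ((cyclotomicCharacter Qbar p) (σ : Qbar ≃+* Qbar)).val with ha
  refine ⟨(PadicInt.toZModPow 1 a).val, ?_, ?_⟩
  · intro t ht
    have := cyclotomicCharacter.spec p (n := 1) (σ : Qbar ≃+* Qbar) t (by rw [pow_one]; exact ht)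
    exact this
  · have h1 : a - (((PadicInt.toZModPow 1 a).val : ℕ) : ℤ_[p]) ∈
        RingHom.ker (PadicInt.toZModPow (p := p) 1) := by
      rw [RingHom.mem_ker, map_sub, map_natCast, ZMod.natCast_val, ZMod.cast_id, sub_self]
    rw [PadicInt.ker_toZModPow, Ideal.mem_span_singleton, pow_one] at h1
    obtain ⟨c, hc⟩ := h1
    have h2 : PadicInt.toZMod a = (((PadicInt.toZModPow 1 a).val : ℕ) : ZMod p) := by
      have h3 : a = (((PadicInt.toZModPow 1 a).val : ℕ) : ℤ_[p]) + p * c := by
        rw [← hc]; ring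
      conv_lhs => rw [h3]
      rw [map_add, map_mul, map_natCast, map_natCast]
      simp
    change (ZMod.castHom (dvd_refl p) k) (PadicInt.toZMod a) = _
    rw [h2, map_natCast]

omit [Fact p.Prime] in
variable {p} in
lemma cast_one_of_dvd (hp : 1 ≤ p) {n : ℕ} (h : p ∣ n + (p - 1)) : (n : k) = 1 := by
  have h1 : ((n + (p - 1) : ℕ) : k) = 0 := (CharP.cast_eq_zero_iff k p _).2 h
  rw [Nat.cast_add, Nat.cast_sub hp, CharP.cast_eq_zero k p] at h1
  push_cast at h1
  linear_combination h1

lemma exists_zeta : ∃ z : Qbar, IsPrimitiveRoot z p := by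
  have : NeZero ((p : ℕ) : Qbar) := ⟨by exact_mod_cast (Fact.out : p.Prime).ne_zero⟩
  exact HasEnoughRootsOfUnity.exists_primitiveRoot Qbar p

variable {p}

/-- complex conjugation acts by `-1` -/
lemma omega_conj {c : GQ} (hc : IsComplexConj c) : omega p k c = -1 := by
  obtain ⟨ι, hι⟩ := hc
  obtain ⟨n, h1, h2⟩ := omega_spec p k c
  obtain ⟨z, hz⟩ := exists_zeta p
  have h3 := h1 z hz.pow_eq_one
  have h4 := hι z
  rw [h3, map_pow] at h4
  have hnorm : ‖ι z‖ = 1 := by
    have h5 : (ι z) ^ p = 1 := by rw [← map_pow, hz.pow_eq_one, map_one]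
    exact Complex.norm_eq_one_of_pow_eq_one h5 (Fact.out : p.Prime).ne_zero
  have h6 : (starRingEnd ℂ) (ι z) * ι z = 1 := by
    rw [← Complex.normSq_eq_conj_mul_self, Complex.normSq_eq_norm_sq, hnorm]
    norm_num
  have h7 : ι (z ^ (n + 1)) = 1 := by
    rw [map_pow, pow_succ, h4, h6]
  have h8 : z ^ (n + 1) = 1 := ι.injective (by rw [h7, map_one])
  have h9 : p ∣ n + 1 := (hz.pow_eq_one_iff_dvd _).1 h8
  have h10 : ((n + 1 : ℕ) : k) = 0 := (CharP.cast_eq_zero_iff k p _).2 h9
  apply Units.ext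
  rw [h2, Units.val_neg, Units.val_one]
  push_cast at h10
  linear_combination h10

/-- elements fixing the `p`-th roots of unity are in the kernel -/
lemma omega_of_fix {σ : GQ} {z : Qbar} (hz : IsPrimitiveRoot z p) (h : σ z = z) :
    omega p k σ = 1 := by
  obtain ⟨n, h1, h2⟩ := omega_spec p k σ
  have h3 := h1 z hz.pow_eq_one
  rw [h] at h3
  have hp : p.Prime := Fact.out
  have h4 : z ^ (n + (p - 1)) = 1 := by
    rw [pow_add, ← h3, ← pow_succ', Nat.sub_add_cancel hp.one_le, hz.pow_eq_one]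
  have h5 : p ∣ n + (p - 1) := (hz.pow_eq_one_iff_dvd _).1 h4
  apply Units.ext
  rw [h2, Units.val_one]
  exact cast_one_of_dvd k hp.one_le h5

lemma isOpen_omega : IsOpen ((omega p k).ker : Set GQ) := by
  obtain ⟨z, hz⟩ := exists_zeta p
  have hint : IsIntegral ℚ z := (hz.isIntegral (Fact.out : p.Prime).pos).tower_top
  have : FiniteDimensional ℚ (IntermediateField.adjoin ℚ {z}) :=
    IntermediateField.adjoin.finiteDimensional hint
  have h1 := IntermediateField.fixingSubgroup_isOpen (IntermediateField.adjoin ℚ {z})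
  refine Subgroup.isOpen_mono (H₁ := (IntermediateField.adjoin ℚ {z}).fixingSubgroup) ?_ h1
  intro σ hσ
  rw [MonoidHom.mem_ker]
  refine omega_of_fix k hz ?_
  rw [IntermediateField.mem_fixingSubgroup_iff] at hσ
  exact hσ z (IntermediateField.mem_adjoin_simple_self ℚ z)

/-- `ω` is unramified outside `p` -/
lemma omega_unramified {l : ℕ} (hl : l.Prime) (hlp : l ≠ p) {A : ValuationSubring Qbar}
    (hA : Above l A) {σ : GQ} (hσ : σ ∈ inertia A) : omega p k σ = 1 := by
  obtain ⟨τ, hτ, rfl⟩ := hσ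
  obtain ⟨n, h1, h2⟩ := omega_spec p k ((A.decompositionSubgroup ℚ).subtype τ)
  obtain ⟨z, hz⟩ := exists_zeta p
  have hp : p.Prime := Fact.out
  have hzA : z ∈ A := by
    rcases A.mem_or_inv_mem z with h | h
    · exact h
    · have h3 : z = (z⁻¹) ^ (p - 1) := by
        have h4 : z ^ (p - 1) * z = 1 := by
          rw [← pow_succ, Nat.sub_add_cancel hp.one_le, hz.pow_eq_one]
        rw [inv_pow]
        exact eq_inv_of_mul_eq_one_right h4
      rw [h3]
      exact pow_mem h _
  let zA : A := ⟨z, hzA⟩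
  set r : IsLocalRing.ResidueField A := IsLocalRing.residue A zA with hr
  have h3 : IsLocalRing.residue A (τ • zA) = r := by
    have h4 : MulSemiringAction.toRingAut (A.decompositionSubgroup ℚ)
        (IsLocalRing.ResidueField A) τ = 1 := hτ
    have h5 := congrArg (fun f => f r) h4
    change τ • r = r at h5
    rw [hr, ← IsLocalRing.ResidueField.residue_smul] at h5
    exact h5
  have h4 : τ • zA = zA ^ n := by
    apply Subtype.ext
    have := h1 z hz.pow_eq_one
    exact this
  rw [h4, map_pow] at h3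
  have h5 : r ^ p = 1 := by
    rw [hr, ← map_pow]
    have : zA ^ p = 1 := Subtype.ext hz.pow_eq_one
    rw [this, map_one]
  have h6 : orderOf r = 1 ∨ orderOf r = p := (Nat.dvd_prime hp).1 (orderOf_dvd_of_pow_eq_one h5)
  have hlr : ((l : ℕ) : IsLocalRing.ResidueField A) = 0 := by
    have h7 : ((l : ℕ) : A) ∈ IsLocalRing.maximalIdeal A := by
      rw [← ValuationSubring.coe_mem_nonunits_iff]
      exact_mod_cast hA
    have h8 := (IsLocalRing.residue_eq_zero_iff _).2 h7
    rwa [map_natCast] at h8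
  rcases h6 with h6 | h6
  · exfalso
    rw [orderOf_eq_one_iff] at h6
    have h7 : ∑ i ∈ Finset.range p, zA ^ i = 0 := by
      apply Subtype.ext
      have := hz.geom_sum_eq_zero hp.one_lt
      push_cast
      exact this
    have h8 := congrArg (IsLocalRing.residue A) h7
    rw [map_sum, map_zero] at h8
    simp only [map_pow] at h8
    rw [← hr, h6] at h8
    simp only [one_pow, Finset.sum_const, Finset.card_range, nsmul_eq_mul, mul_one] at h8
    have h9 : IsCoprime (l : ℤ) (p : ℤ) := Nat.isCoprime_iff_coprime.2 ((Nat.coprime_primes hl hp).2 hlp)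
    obtain ⟨a, b, hab⟩ := h9
    have h10 := congrArg (fun x : ℤ => (x : IsLocalRing.ResidueField A)) hab
    push_cast at h10
    rw [hlr, h8] at h10
    simp at h10
  · have h7 : r ^ (n + (p - 1)) = 1 := by
      rw [pow_add, h3, ← pow_succ', Nat.sub_add_cancel hp.one_le, h5]
    have h8 := orderOf_dvd_of_pow_eq_one h7
    rw [h6] at h8
    apply Units.ext
    rw [h2, Units.val_one]
    exact cast_one_of_dvd k hp.one_le h8

end Cyclotomic

/-! ### The representation `diag (ω ^ 5, ω ^ 3, 1)` -/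

lemma diagHom_coe (k : Type) [Field k] (u : Fin 3 → kˣ) :
    (diagHom k u : Matrix (Fin 3) (Fin 3) k) = Matrix.diagonal fun i => ((u i : kˣ) : k) := rfl

lemma rbar_apply (p : ℕ) [Fact p.Prime] (k : Type) [Field k] [CharP k p] (σ : GQ) :
    rbar p k σ = ProjGenLinGroup.mk (diagHom k fun i => (omega p k σ) ^ (x0 i)) := rfl

lemma rbar_of_omega {p : ℕ} [Fact p.Prime] {k : Type} [Field k] [CharP k p] {σ : GQ}
    (h : omega p k σ = 1) : rbar p k σ = 1 := by
  rw [rbar_apply, h]
  have : (fun i : Fin 3 => (1 : kˣ) ^ (x0 i)) = 1 := by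
    funext i
    rw [_root_.one_zpow]
    rfl
  rw [this, map_one, map_one]

lemma regular_x0 : StronglyRegular x0 := by
  intro i hi
  have h : i = 0 ∨ i = 1 := by omega
  rcases h with rfl | rfl
  · change (2 : ℤ) ≤ 5 - 3
    norm_num
  · change (2 : ℤ) ≤ 3 - 0
    norm_num

/-- The matrix `diag (-1, -1, 1)`. -/
noncomputable def dc (k : Type) [Field k] : GL (Fin 3) k := diagHom k ![-1, -1, 1]

/-- An auxiliary linear map exchanging the eigenspaces. -/
noncomputable def Jm (k : Type) [Field k] : Matrix (Fin 3) (Fin 3) k →ₗ[k] Matrix (Fin 3) (Fin 3) k where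
  toFun X := !![X 0 2, X 1 2, X 0 0 - X 2 2; X 2 0, X 2 1, X 0 1; X 1 0, X 1 1 - X 2 2, 0]
  map_add' X Y := by
    ext i j
    fin_cases i <;> fin_cases j <;> simp <;> ring
  map_smul' c X := by
    ext i j
    fin_cases i <;> fin_cases j <;> simp <;> ring

lemma conj_dc (k : Type) [Field k] (X : Matrix (Fin 3) (Fin 3) k) :
    conjMat (dc k) X = !![X 0 0, X 0 1, -X 0 2; X 1 0, X 1 1, -X 1 2; -X 2 0, -X 2 1, X 2 2] := by
  have h1 : ((dc k : GL (Fin 3) k) : Matrix (Fin 3) (Fin 3) k) = Matrix.diagonal ![-1, -1, 1] := by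
    unfold dc
    rw [diagHom_coe]
    congr 1
    funext i
    fin_cases i <;> simp
  have h2 : (((dc k)⁻¹ : GL (Fin 3) k) : Matrix (Fin 3) (Fin 3) k) =
      Matrix.diagonal ![-1, -1, 1] := by
    unfold dc
    rw [← map_inv, diagHom_coe]
    congr 1
    funext i
    fin_cases i <;> simp
  unfold conjMat
  rw [LinearMap.comp_apply, LinearMap.mulLeft_apply, LinearMap.mulRight_apply, h1, h2]
  ext i j
  rw [Matrix.diagonal_mul, Matrix.mul_diagonal]
  fin_cases i <;> fin_cases j <;> simp

/-- the map induced on the Lie algebra -/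
noncomputable def Jq (k : Type) [Field k] : LiePGL 3 k →ₗ[k] LiePGL 3 k :=
  Submodule.mapQ _ _ (Jm k) (by
    rw [Submodule.span_le, Set.singleton_subset_iff]
    simp only [SetLike.mem_coe, Submodule.mem_comap]
    have : Jm k (1 : Matrix (Fin 3) (Fin 3) k) = 0 := by
      ext i j
      fin_cases i <;> fin_cases j <;> simp [Jm]
    rw [this]
    exact Submodule.zero_mem _)

lemma trace_dc (k : Type) [Field k] (h2 : (2 : k) ≠ 0) :
    LinearMap.trace k (LiePGL 3 k) (Ad (dc k)) = 0 := by
  have hJJ : (Jq k).comp (Jq k) = LinearMap.id := by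
    apply Submodule.linearMap_qext
    ext1 X
    change Submodule.Quotient.mk (Jm k (Jm k X)) = Submodule.Quotient.mk X
    rw [Submodule.Quotient.eq]
    have : Jm k (Jm k X) - X = (-X 2 2) • (1 : Matrix (Fin 3) (Fin 3) k) := by
      ext i j
      fin_cases i <;> fin_cases j <;> simp [Jm]
    rw [this]
    exact Submodule.smul_mem _ _ (Submodule.mem_span_singleton_self _)
  have hanti : (Jq k).comp ((Ad (dc k)).comp (Jq k)) = -(Ad (dc k)) := by
    have h1 : (Jq k).comp (Ad (dc k)) = -((Ad (dc k)).comp (Jq k)) := by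
      apply Submodule.linearMap_qext
      ext1 X
      change Submodule.Quotient.mk (Jm k (conjMat (dc k) X)) =
        -Submodule.Quotient.mk (conjMat (dc k) (Jm k X))
      rw [← Submodule.Quotient.mk_neg]
      congr 1
      rw [conj_dc, conj_dc]
      ext i j
      fin_cases i <;> fin_cases j <;> simp [Jm]
    have h3 : (Ad (dc k)).comp (Jq k) = -((Jq k).comp (Ad (dc k))) := by
      rw [h1, neg_neg]
    rw [h3, LinearMap.comp_neg, ← LinearMap.comp_assoc, hJJ, LinearMap.id_comp]
  have h4 : LinearMap.trace k (LiePGL 3 k) (Ad (dc k)) =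
      -LinearMap.trace k (LiePGL 3 k) (Ad (dc k)) := by
    conv_rhs => rw [← map_neg, ← hanti]
    rw [← LinearMap.comp_assoc, LinearMap.trace_comp_comm', ← LinearMap.comp_assoc, hJJ,
      LinearMap.id_comp]
  have h5 : (2 : k) * LinearMap.trace k (LiePGL 3 k) (Ad (dc k)) = 0 := by
    linear_combination h4
  exact (mul_eq_zero.1 h5).resolve_left h2

lemma Ad_congr {n : ℕ} {k : Type} [Field k] {g h : GL (Fin n) k}
    (hgh : ProjGenLinGroup.mk g = ProjGenLinGroup.mk h) : Ad g = Ad h := by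
  have h1 : ProjGenLinGroup.mk (h⁻¹ * g) = 1 := by
    rw [map_mul, map_inv, hgh, inv_mul_cancel]
  rw [ProjGenLinGroup.mk_eq_one, Matrix.GeneralLinearGroup.center_eq_range_scalar] at h1
  obtain ⟨u, hu⟩ := h1
  have hg : g = h * Matrix.GeneralLinearGroup.scalar (Fin n) u := by
    rw [hu, mul_inv_cancel_left]
  have h2 : conjMat g = conjMat h := by
    ext1 X
    simp only [conjMat, LinearMap.comp_apply, LinearMap.mulLeft_apply, LinearMap.mulRight_apply]
    have hcomm : Matrix.GeneralLinearGroup.scalar (Fin n) u * h⁻¹ =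
        h⁻¹ * Matrix.GeneralLinearGroup.scalar (Fin n) u := by
      apply Units.ext
      rw [Units.val_mul, Units.val_mul, Matrix.GeneralLinearGroup.coe_scalar]
      exact (Matrix.scalar_commute _ (fun r => Commute.all _ _) _).eq
    have hginv : g⁻¹ = h⁻¹ * (Matrix.GeneralLinearGroup.scalar (Fin n) u)⁻¹ := by
      rw [hg, _root_.mul_inv_rev]
      rw [← map_inv]
      apply Units.ext
      rw [Units.val_mul, Units.val_mul, Matrix.GeneralLinearGroup.coe_scalar]
      exact (Matrix.scalar_commute _ (fun r => Commute.all _ _) _).eq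
    rw [hginv, hg, Units.val_mul, Units.val_mul, ← map_inv,
      Matrix.GeneralLinearGroup.coe_scalar, Matrix.GeneralLinearGroup.coe_scalar]
    have hu' : (u : k) ≠ 0 := u.ne_zero
    have e1 : ∀ c : k, Matrix.scalar (Fin n) c = c • (1 : Matrix (Fin n) (Fin n) k) := by
      intro c
      rw [Matrix.scalar_apply, Matrix.smul_one_eq_diagonal]
    rw [e1, e1]
    simp only [Matrix.mul_smul, Matrix.smul_mul, Matrix.mul_one, smul_smul]
    have e2 : ((u⁻¹ : kˣ) : k) * (u : k) = 1 := by simp
    rw [e2, one_smul]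
  unfold Ad
  simp only [h2]

lemma isOdd_rbar (p : ℕ) [Fact p.Prime] (k : Type) [Field k] [CharP k p] (h2 : (2 : k) ≠ 0) :
    IsOdd (rbar p k) := by
  intro c hc g hg
  have h1 : rbar p k c = ProjGenLinGroup.mk (dc k) := by
    rw [rbar_apply, omega_conj k hc]
    unfold dc
    congr 2
    funext i
    fin_cases i
    · change (-1 : kˣ) ^ (5 : ℤ) = -1
      norm_num
    · change (-1 : kˣ) ^ (3 : ℤ) = -1
      norm_num
    · change (-1 : kˣ) ^ (0 : ℤ) = 1
      norm_num
  rw [h1] at hg
  rw [Ad_congr hg, trace_dc k h2]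
  norm_num

lemma hyp_rbar (p : ℕ) [Fact p.Prime] (k : Type) [Field k] [CharP k p] (h2 : (2 : k) ≠ 0) :
    Hypotheses p k x0 ∅ (rbar p k) := by
  refine ⟨regular_x0, by simp, ?_, isOdd_rbar p k h2, ?_, by simp, ?_⟩
  · refine Subgroup.isOpen_mono (H₁ := (omega p k).ker) ?_ (isOpen_omega k)
    intro σ hσ
    exact rbar_of_omega hσ
  · intro A _
    refine ⟨1, fun σ _ => ⟨diagHom k fun i => (omega p k σ) ^ (x0 i), ?_, ?_, fun _ => ⟨1, ?_⟩⟩⟩
    · rw [diagHom_coe]
      exact Matrix.blockTriangular_diagonal _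
    · rw [inv_one, one_mul, mul_one]
      rfl
    · intro i
      rw [diagHom_coe, Matrix.diagonal_apply_eq, one_mul]
  · intro l hl _ hlp A hA σ hσ
    exact rbar_of_omega (omega_unramified k hl hlp hA hσ)

/-! ### The 15-dimensional representation -/

lemma irreducible_pi15 : IsIrreducibleOfHighestWeight pi15 (fun i => x0 i - rho 3 i) := by
  refine ⟨fun W hW => ?_, ?_⟩
  · exact irreducible (k := ℚ) (by norm_num) (by norm_num) W (fun g w hw => hW _ w hw)
  · refine ⟨v0V ℚ, ?_, ?_⟩
    · intro h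
      have h1 := congrFun (congrArg Subtype.val h) (0, 2, 2)
      have h2 : (v0V ℚ).1 (0, 2, 2) = 1 := by
        change ((v0 (0, 2, 2) : ℤ) : ℚ) = 1
        have : v0 (0, 2, 2) = 1 := by decide
        rw [this]
        norm_num
      rw [h2] at h1
      exact one_ne_zero h1
    · intro b hb
      have hb' : Matrix.BlockTriangular b.1 id := hb
      have hc' : Matrix.BlockTriangular (b⁻¹).1 id := (borel 3 ℚ).inv_mem hb
      have b10 : b.1 1 0 = 0 := hb' (show (id (0 : Fin 3)) < id 1 by decide)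
      have b20 : b.1 2 0 = 0 := hb' (show (id (0 : Fin 3)) < id 2 by decide)
      have b21 : b.1 2 1 = 0 := hb' (show (id (1 : Fin 3)) < id 2 by decide)
      have c20 : (b⁻¹).1 2 0 = 0 := hc' (show (id (0 : Fin 3)) < id 2 by decide)
      have c21 : (b⁻¹).1 2 1 = 0 := hc' (show (id (1 : Fin 3)) < id 2 by decide)
      have hdet : b.1 0 0 * b.1 1 1 * b.1 2 2 = 1 := by
        have h := b.2
        rw [Matrix.det_fin_three, b10, b20, b21] at h
        linear_combination h
      have hinv : (b⁻¹).1 2 2 * b.1 2 2 = 1 := by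
        have h : (b⁻¹).1 * b.1 = 1 := congrArg Subtype.val (inv_mul_cancel b)
        have h1 := congrFun (congrFun h 2) 2
        rw [Matrix.mul_apply, Fin.sum_univ_three, c20, c21, Matrix.one_apply_eq] at h1
        linear_combination h1
      have hc : (b⁻¹).1 2 2 = b.1 0 0 * b.1 1 1 := by
        have h0 : b.1 2 2 ≠ 0 := by
          intro h
          rw [h, mul_zero] at hinv
          exact zero_ne_one hinv
        apply mul_right_cancel₀ h0
        rw [hinv, hdet]
      have hprod : (∏ i, (b i i) ^ (x0 i - rho 3 i)) = (b.1 0 0) ^ 3 * (b.1 1 1) ^ 2 := by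
        rw [Fin.prod_univ_three]
        have e0 : x0 0 - rho 3 0 = 3 := by decide
        have e1 : x0 1 - rho 3 1 = 2 := by decide
        have e2 : x0 2 - rho 3 2 = 0 := by decide
        rw [e0, e1, e2, zpow_zero, mul_one]
        rfl
      rw [hprod]
      ext ⟨i, j, l⟩
      rw [repV_apply, mulVec_actM]
      have hv : ∀ a c d, (v0V ℚ).1 (a, c, d) = if (0, 2, 2) = (a, c, d) then 1 else 0 := by
        intro a c d
        change ((v0 (a, c, d) : ℤ) : ℚ) = _
        unfold v0 delta
        split_ifs <;> simp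
      change _ = (b.1 0 0) ^ 3 * (b.1 1 1) ^ 2 * (v0V ℚ).1 (i, j, l)
      simp only [hv]
      rw [Fin.sum_univ_three]
      simp only [Fin.sum_univ_three]
      fin_cases i <;> fin_cases j <;> fin_cases l <;>
        simp [b10, b20, c20, c21, hc] <;> ring

/-- The lattice of integral tensors. -/
noncomputable def stdLattice : Submodule ℤ W15 := Submodule.span ℤ (Set.range (basV ℚ))

lemma mem_std (w : I → ℤ) (hw) : (vecZ (k := ℚ) w hw) ∈ stdLattice := by
  rw [coordV (vecZ (k := ℚ) w hw)]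
  refine Submodule.sum_mem _ fun i _ => ?_
  have : (vecZ (k := ℚ) w hw).1 (crd i) • basV ℚ i = (w (crd i)) • basV ℚ i := by
    rw [← Int.cast_smul_eq_zsmul ℚ]
    rfl
  rw [this]
  exact Submodule.smul_mem _ _ (Submodule.subset_span ⟨i, rfl⟩)

lemma stable_std : IsStableLattice pi15 stdLattice := by
  refine ⟨?_, ?_, ?_⟩
  · exact Submodule.fg_span (Set.finite_range _)
  · rw [eq_top_iff]
    intro v _
    rw [coordV v]
    refine Submodule.sum_mem _ fun i _ => Submodule.smul_mem _ _ (Submodule.subset_span ?_)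
    exact Submodule.subset_span ⟨i, rfl⟩
  · intro g m hm
    have hle : stdLattice ≤ (stdLattice).comap
        ((pi15 (SpecialLinearGroup.map (Int.castRingHom ℚ) g)).restrictScalars ℤ) := by
      unfold stdLattice
      rw [Submodule.span_le]
      rintro _ ⟨i, rfl⟩
      change pi15 (SpecialLinearGroup.map (Int.castRingHom ℚ) g) (basV ℚ i) ∈ stdLattice
      have hB : (g⁻¹).1 * g.1 = 1 := congrArg Subtype.val (inv_mul_cancel g)
      have hmem := V_stable g.1 (g⁻¹).1 hB (show bas i ∈ V ℤ from bas_mem i)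
      have : pi15 (SpecialLinearGroup.map (Int.castRingHom ℚ) g) (basV ℚ i) =
          vecZ (k := ℚ) (actM g.1 (g⁻¹).1 *ᵥ bas i) hmem := by
        change repZ ℚ g (basV ℚ i) = _
        ext x
        rw [repZ_apply, actM_cm]
        change (cm (actM g.1 (g⁻¹).1) ℚ *ᵥ (basV ℚ i).1) x =
          (((actM g.1 (g⁻¹).1 *ᵥ bas i) x : ℤ) : ℚ)
        rw [Matrix.mulVec, Matrix.mulVec, dotProduct, dotProduct]
        push_cast
        rfl
      rw [this]
      exact mem_std _ _
    exact hle hm

/-! ### Vanishing for every stable lattice -/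

lemma Gamma0_one : Gamma0 3 1 = ⊤ := by
  rw [eq_top_iff]
  intro g _
  change SpecialLinearGroup.map (Int.castRingHom (ZMod 1)) g ∈ borel 3 (ZMod 1)
  intro i j _
  exact Subsingleton.elim _ _

/-- `Γ₀(1) = SL_3(ℤ)`. -/
noncomputable def eG : Gamma0 3 1 ≃* SL(3, ℤ) :=
  (MulEquiv.subgroupCongr Gamma0_one).trans Subgroup.topEquiv

lemma eG_apply (g : Gamma0 3 1) : eG g = (g : SL(3, ℤ)) := rfl

lemma vanishing_lattice {p : ℕ} [Fact p.Prime] (k : Type) [Field k] [CharP k p] (h2 : (2 : k) ≠ 0)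
    (h3 : (3 : k) ≠ 0) (M : Submodule ℤ W15) (hM : IsStableLattice pi15 M) (i : ℕ) :
    Subsingleton (H hM 1 k i) := by
  obtain ⟨e, he⟩ := lattice_equiv (p := p) (k := k) h2 h3 M hM.fg hM.span
    (fun g => latticeRep hM 1 (eG.symm g)) (fun g m => rfl)
  have h1 := Van.vanishing (k := k) h2 h3 i
  let iso := groupCohomology.mapIso (k := k) (A := Rep.of (repZ k)) (B := Rep.of (modRep hM 1 k))
    eG e (fun g => by
      refine LinearMap.ext fun x => ?_
      change e ((latticeRep hM 1 g).baseChange k x) = repZ k (eG g) (e x)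
      rw [← he (eG g) x]
      simp only [MulEquiv.symm_apply_apply]) i
  exact iso.toLinearEquiv.toEquiv.subsingleton

/-! ### Main theorem -/

/-- **Main theorem.** -/
theorem main (p : ℕ) [Fact p.Prime] (hp : 5 ≤ p) (k : Type) [Field k] [Finite k] [CharP k p] :
    Hypotheses p k x0 ∅ (rbar p k) ∧
    IsIrreducibleOfHighestWeight pi15 (fun i => x0 i - rho 3 i) ∧
    (∃ M : Submodule ℤ W15, IsStableLattice pi15 M) ∧
    ∀ (M : Submodule ℤ W15) (hM : IsStableLattice pi15 M) (i : ℕ),
      Subsingleton (H hM (∏ l ∈ (∅ : Finset ℕ), l) k i) := by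
  have hn : ∀ n : ℕ, n ≠ 0 → n < p → ((n : ℕ) : k) ≠ 0 := by
    intro n hn0 hnp h
    rw [CharP.cast_eq_zero_iff k p] at h
    have := Nat.le_of_dvd (by omega) h
    omega
  have h2 : (2 : k) ≠ 0 := by exact_mod_cast hn 2 (by norm_num) (by omega)
  have h3 : (3 : k) ≠ 0 := by exact_mod_cast hn 3 (by norm_num) (by omega)
  refine ⟨hyp_rbar p k h2, irreducible_pi15, ⟨stdLattice, stable_std⟩, fun M hM i => ?_⟩
  have h : (∏ l ∈ (∅ : Finset ℕ), l) = 1 := Finset.prod_empty
  rw [h]
  exact vanishing_lattice (p := p) k h2 h3 M hM i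

end

end Pool.Agent.H320R3.Proof15
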