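import Mathlib

set_option autoImplicit false

open CategoryTheory
open scoped ZeroObject

universe u

namespace Pool.Agent.H320R3.Resol

variable {k G : Type u} [CommRing k] [Group G]

/-- A complex of length four. -/
structure Data4 (k G : Type u) [CommRing k] [Group G] where
  X0 : Rep.{u} k G
  X1 : Rep.{u} k G
  X2 : Rep.{u} k G
  X3 : Rep.{u} k G
  d1 : X1 ⟶ X0
  d2 : X2 ⟶ X1
  d3 : X3 ⟶ X2
  ε : X0 ⟶ Rep.trivial k G k
  h0 : d1 ≫ ε = 0
  h1 : d2 ≫ d1 = 0
  h2 : d3 ≫ d2 = 0
  p0 : Projective X0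
  p1 : Projective X1
  p2 : Projective X2
  p3 : Projective X3
  surj : Function.Surjective ε.hom
  e0 : ∀ x : X0, ε.hom x = 0 → ∃ y : X1, d1.hom y = x
  e1 : ∀ x : X1, d1.hom x = 0 → ∃ y : X2, d2.hom y = x
  e2 : ∀ x : X2, d2.hom x = 0 → ∃ y : X3, d3.hom y = x
  e3 : ∀ x : X3, d3.hom x = 0 → x = 0

namespace Data4

variable (E : Data4 k G)

open Limits

/-- objects -/
noncomputable def X : ℕ → Rep.{u} k G
  | 0 => E.X0
  | 1 => E.X1
  | 2 => E.X2
  | 3 => E.X3
  | (_ + 4) => 0

/-- differentials -/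
noncomputable def d : (n : ℕ) → (E.X (n + 1) ⟶ E.X n)
  | 0 => E.d1
  | 1 => E.d2
  | 2 => E.d3
  | (_ + 3) => 0

lemma sq : ∀ n, E.d (n + 1) ≫ E.d n = 0
  | 0 => E.h1
  | 1 => E.h2
  | (n + 2) => by
    have : E.d (n + 2 + 1) = 0 := rfl
    rw [this, zero_comp]

/-- the complex -/
noncomputable def cx : ChainComplex (Rep.{u} k G) ℕ := ChainComplex.of E.X E.d E.sq

lemma cx_d (n : ℕ) : E.cx.d (n + 1) n = E.d n := by
  unfold cx
  exact ChainComplex.of_d _ _ _

lemma d_exact : ∀ (n : ℕ) (x : E.X (n + 1)), (E.d n).hom x = 0 →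
    ∃ y : E.X (n + 2), (E.d (n + 1)).hom y = x
  | 0, x, hx => E.e1 x hx
  | 1, x, hx => E.e2 x hx
  | 2, x, hx => by
    refine ⟨0, ?_⟩
    rw [map_zero]
    exact (E.e3 x hx).symm
  | (n + 3), x, hx => by
    refine ⟨0, ?_⟩
    have h1 : IsZero (E.X (n + 3 + 1)) := isZero_zero _
    have h2 : (𝟙 (E.X (n + 3 + 1)) : _ ⟶ _) = 0 := (IsZero.iff_id_eq_zero _).1 h1
    have h3 : (𝟙 (E.X (n + 3 + 1)) : _ ⟶ _).hom x = (0 : E.X (n + 3 + 1) ⟶ E.X (n + 3 + 1)).hom x := by
      rw [h2]
    rw [map_zero]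
    exact h3.symm

lemma proj : ∀ n, Projective (E.X n)
  | 0 => E.p0
  | 1 => E.p1
  | 2 => E.p2
  | 3 => E.p3
  | (_ + 4) => by
    change Projective (0 : Rep.{u} k G)
    infer_instance

/-- the augmentation -/
noncomputable def pi : E.cx ⟶ (ChainComplex.single₀ (Rep.{u} k G)).obj (Rep.trivial k G k) :=
  (E.cx.toSingle₀Equiv _).symm ⟨E.ε, by
    rw [cx_d]
    exact E.h0⟩

lemma quasi : QuasiIso E.pi where
  quasiIsoAt m := by
    cases m with
    | zero =>
      rw [ChainComplex.quasiIsoAt₀_iff, ShortComplex.quasiIso_iff_of_zeros' _ rfl rfl rfl]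
      constructor
      · apply (forget₂ _ (ModuleCat k)).reflects_exact_of_faithful
        rw [ShortComplex.moduleCat_exact_iff]
        intro x hx
        have hx' : E.ε.hom x = 0 := by
          have h1 : E.pi.f 0 = E.ε := by
            unfold pi
            exact congrArg Subtype.val ((E.cx.toSingle₀Equiv _).apply_symm_apply ⟨E.ε, by
              rw [cx_d]
              exact E.h0⟩)
          rw [← h1]
          exact hx
        obtain ⟨y, hy⟩ := E.e0 x hx'
        refine ⟨y, ?_⟩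
        rw [← hy]
        have h2 := E.cx_d 0
        change (E.cx.d 1 0).hom y = _
        rw [h2]
        rfl
      · rw [Rep.epi_iff_surjective]
        intro x
        obtain ⟨y, hy⟩ := E.surj x
        exact ⟨y, hy⟩
    | succ m =>
      rw [quasiIsoAt_iff_exactAt' (hL := ChainComplex.exactAt_succ_single_obj ..),
          HomologicalComplex.exactAt_iff' _ (m + 2) (m + 1) m (by simp) (by simp)]
      apply (forget₂ _ (ModuleCat k)).reflects_exact_of_faithful
      rw [ShortComplex.moduleCat_exact_iff]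
      intro x hx
      have hx' : (E.d m).hom x = 0 := by
        rw [← E.cx_d m]
        exact hx
      obtain ⟨y, hy⟩ := E.d_exact m x hx'
      refine ⟨y, ?_⟩
      rw [← hy]
      have h2 := E.cx_d (m + 1)
      change (E.cx.d (m + 2) (m + 1)).hom y = _
      rw [h2]
      rfl

/-- the projective resolution -/
noncomputable def res : ProjectiveResolution (Rep.trivial k G k) where
  complex := E.cx
  projective n := E.proj n
  π := E.pi
  quasiIso := E.quasi

/-- **Vanishing.** -/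
theorem vanish (A : Rep.{u} k G)
    (a0 : ∀ x : E.X0 ⟶ A, E.d1 ≫ x = 0 → x = 0)
    (a1 : ∀ x : E.X1 ⟶ A, E.d2 ≫ x = 0 → ∃ y : E.X0 ⟶ A, E.d1 ≫ y = x)
    (a2 : ∀ x : E.X2 ⟶ A, E.d3 ≫ x = 0 → ∃ y : E.X1 ⟶ A, E.d2 ≫ y = x)
    (a3 : ∀ x : E.X3 ⟶ A, ∃ y : E.X2 ⟶ A, E.d3 ≫ y = x) (n : ℕ) :
    Subsingleton (groupCohomology A n) := by
  let P := E.res
  have key : ∀ (n : ℕ) (x : E.X (n + 1) ⟶ A), E.d (n + 1) ≫ x = 0 →
      ∃ y : E.X n ⟶ A, E.d n ≫ y = x := by
    intro n x hx
    match n, x, hx with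
    | 0, x, hx => exact a1 x hx
    | 1, x, hx => exact a2 x hx
    | 2, x, hx => exact a3 x
    | (n + 3), x, hx =>
      refine ⟨0, ?_⟩
      rw [comp_zero]
      exact ((isZero_zero _).eq_of_src _ _)
  have hex : (P.complex.linearYonedaObj k A).ExactAt n := by
    cases n with
    | zero =>
      rw [HomologicalComplex.exactAt_iff' _ 0 0 1 (by simp) (by simp)]
      rw [ShortComplex.moduleCat_exact_iff]
      intro x hx
      refine ⟨0, ?_⟩
      rw [map_zero]
      symm
      refine a0 x ?_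
      have h1 := E.cx_d 0
      change E.d 0 ≫ x = 0
      rw [← h1]
      exact hx
    | succ m =>
      rw [HomologicalComplex.exactAt_iff' _ m (m + 1) (m + 2) (by simp) (by simp)]
      rw [ShortComplex.moduleCat_exact_iff]
      intro x hx
      obtain ⟨y, hy⟩ := key m x (by
        rw [← E.cx_d (m + 1)]
        exact hx)
      refine ⟨y, ?_⟩
      rw [← E.cx_d m] at hy
      exact hy
  have h0 : Limits.IsZero (groupCohomology A n) :=
    ((HomologicalComplex.exactAt_iff_isZero_homology _ _).1 hex).of_iso (groupCohomologyIso A n P)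
  exact ModuleCat.subsingleton_of_isZero h0

end Data4

end Pool.Agent.H320R3.Resol
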