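import Mathlib
import Pool.Agent.H320R3.Act
import Pool.Agent.H320R3.Lists

set_option autoImplicit false

open Finset Matrix

namespace Pool.Agent.H320R3.Std

open Geom Inst Tuples Cochains Act Lists

lemma vx_eq {a b : Fin 3 → ℤ} (h : vx a = vx b) : ∃ x : Bool, a = sv x b := by
  have hij : ∀ i j, a i * a j = b i * b j := by
    intro i j
    have := congrArg (fun X : Vx => X.mat i j) h
    simpa [vx] using this
  by_cases hb : ∃ i, b i ≠ 0
  · obtain ⟨i, hi⟩ := hb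
    have h1 := hij i i
    have h2 : a i = b i ∨ a i = - b i := mul_self_eq_mul_self_iff.1 h1
    rcases h2 with h2 | h2
    · refine ⟨true, ?_⟩
      funext j
      have h3 := hij i j
      rw [h2] at h3
      exact mul_left_cancel₀ hi h3
    · refine ⟨false, ?_⟩
      funext j
      have h3 := hij i j
      rw [h2] at h3
      have h4 : b i * a j = b i * (- b j) := by linarith
      exact mul_left_cancel₀ hi h4
  · push Not at hb
    refine ⟨true, ?_⟩
    funext j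
    have h1 := hij j j
    rw [hb j, mul_zero] at h1
    have h2 : a j = 0 := by
      rcases mul_eq_zero.1 h1 with h | h <;> exact h
    change a j = b j
    rw [h2, hb j]

lemma smul_E {h : G} {n n' : Fin 6} (e : h • E n = E n') :
    ∃ x : Bool, h.1 *ᵥ uvec n = sv x (uvec n') := by
  apply vx_eq
  rw [← smul_vx]
  exact e

lemma mulVec0 (h : G) : h.1 *ᵥ uvec 0 = fun i => h.1 i 0 := by
  funext i
  simp [Matrix.mulVec, dotProduct, Fin.sum_univ_three, uvec]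

lemma mulVec1 (h : G) : h.1 *ᵥ uvec 1 = fun i => h.1 i 1 := by
  funext i
  simp [Matrix.mulVec, dotProduct, Fin.sum_univ_three, uvec]

lemma mulVec2 (h : G) : h.1 *ᵥ uvec 2 = fun i => h.1 i 2 := by
  funext i
  simp [Matrix.mulVec, dotProduct, Fin.sum_univ_three, uvec]

lemma mulVec3 (h : G) : h.1 *ᵥ uvec 3 = h.1 *ᵥ uvec 0 - h.1 *ᵥ uvec 1 := by
  rw [← Matrix.mulVec_sub]
  congr 1
  decide

lemma mulVec3' (h : G) : h.1 *ᵥ uvec 0 = h.1 *ᵥ uvec 1 + h.1 *ᵥ uvec 3 := by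
  rw [← Matrix.mulVec_add]
  congr 1
  decide

lemma mulVec4 (h : G) : h.1 *ᵥ uvec 4 = h.1 *ᵥ uvec 0 - h.1 *ᵥ uvec 2 := by
  rw [← Matrix.mulVec_sub]
  congr 1
  decide

lemma mulVec5 (h : G) : h.1 *ᵥ uvec 5 = h.1 *ᵥ uvec 1 - h.1 *ᵥ uvec 2 := by
  rw [← Matrix.mulVec_sub]
  congr 1
  decide

lemma colM_eq (h : G) : colM (h.1 *ᵥ uvec 0) (h.1 *ᵥ uvec 1) (h.1 *ᵥ uvec 2) = h.1 := by
  rw [mulVec0, mulVec1, mulVec2]
  ext i j
  fin_cases i <;> fin_cases j <;> rfl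

lemma det3_eq (h : G) : det3 (h.1 *ᵥ uvec 0) (h.1 *ᵥ uvec 1) (h.1 *ᵥ uvec 2) = 1 := by
  rw [mulVec0, mulVec1, mulVec2]
  have h1 := h.2
  rw [Matrix.det_fin_three] at h1
  unfold det3
  linarith

lemma sign_eq {n : ℕ} (π : Equiv.Perm (Fin n)) : ((Equiv.Perm.sign π : ℤˣ) : ℤ) = sg π := by
  rw [Equiv.Perm.sign_eq_prod_prod_Iio]
  unfold sg
  push_cast
  refine prod_congr rfl fun j _ => prod_congr rfl fun i _ => ?_
  split_ifs <;> simp

/-- the standard tuples -/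
def t3 : Fin 3 → Vx := E ∘ i3
def t4a : Fin 4 → Vx := E ∘ i4a
def t4b : Fin 4 → Vx := E ∘ i4b
def t5 : Fin 5 → Vx := E ∘ i5
def t6 : Fin 6 → Vx := E

lemma st {s : ℕ} {e : Fin s → Fin 6} {h : G} {π : Equiv.Perm (Fin s)}
    (hx : h • (E ∘ e) = (E ∘ e) ∘ π) (m : Fin s) : h • E (e m) = E (e (π m)) := congrFun hx m

lemma mem3 {h : G} {π : Equiv.Perm (Fin 3)} (hx : h • t3 = t3 ∘ π) :
    memL L3 h.1 ((Equiv.Perm.sign π : ℤˣ) : ℤ) := by
  obtain ⟨x, hx0⟩ := smul_E (st hx 0)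
  obtain ⟨y, hx1⟩ := smul_E (st hx 1)
  obtain ⟨z, hx2⟩ := smul_E (st hx 2)
  change h.1 *ᵥ uvec 0 = _ at hx0
  change h.1 *ᵥ uvec 1 = _ at hx1
  change h.1 *ᵥ uvec 2 = _ at hx2
  have h1 := enum3 (π 0) (π 1) (π 2) x y z
  rw [← hx0, ← hx1, ← hx2, colM_eq, det3_eq] at h1
  have h2 := h1 rfl
  rw [sign_eq]
  convert h2 using 2
  funext i
  fin_cases i <;> rfl

lemma mem4b {h : G} {π : Equiv.Perm (Fin 4)} (hx : h • t4b = t4b ∘ π) :
    memL L4b h.1 ((Equiv.Perm.sign π : ℤˣ) : ℤ) := by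
  obtain ⟨x, hx0⟩ := smul_E (st hx 0)
  obtain ⟨y, hx1⟩ := smul_E (st hx 1)
  obtain ⟨z, hx2⟩ := smul_E (st hx 2)
  have hx3 := st hx 3
  change h.1 *ᵥ uvec 0 = _ at hx0
  change h.1 *ᵥ uvec 1 = _ at hx1
  change h.1 *ᵥ uvec 2 = _ at hx2
  change h • vx (uvec 3) = _ at hx3
  rw [smul_vx, mulVec3] at hx3
  have h1 := enum4b (π 0) (π 1) (π 2) x y z
  rw [← hx0, ← hx1, ← hx2, colM_eq, det3_eq] at h1
  have h2 := h1 rfl (π 3) hx3
  rw [sign_eq]
  convert h2 using 2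
  funext i
  fin_cases i <;> rfl

lemma mem4a {h : G} {π : Equiv.Perm (Fin 4)} (hx : h • t4a = t4a ∘ π) :
    memL L4a h.1 ((Equiv.Perm.sign π : ℤˣ) : ℤ) := by
  obtain ⟨x, hx0⟩ := smul_E (st hx 0)
  obtain ⟨y, hx1⟩ := smul_E (st hx 1)
  obtain ⟨z, hx2⟩ := smul_E (st hx 2)
  have hx3 := st hx 3
  change h.1 *ᵥ uvec 1 = _ at hx0
  change h.1 *ᵥ uvec 2 = _ at hx1
  change h.1 *ᵥ uvec 3 = _ at hx2
  change h • vx (uvec 4) = _ at hx3
  rw [smul_vx, mulVec4] at hx3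
  have h1 := enum4a (π 0) (π 1) (π 2) x y z
  rw [← hx0, ← hx1, ← hx2, ← mulVec3', colM_eq, det3_eq] at h1
  have h2 := h1 rfl (π 3) hx3
  rw [sign_eq]
  convert h2 using 2
  funext i
  fin_cases i <;> rfl

lemma mem5 {h : G} {π : Equiv.Perm (Fin 5)} (hx : h • t5 = t5 ∘ π) :
    memL L5 h.1 ((Equiv.Perm.sign π : ℤˣ) : ℤ) := by
  obtain ⟨x, hx0⟩ := smul_E (st hx 0)
  obtain ⟨y, hx1⟩ := smul_E (st hx 1)
  obtain ⟨z, hx2⟩ := smul_E (st hx 2)
  have hx3 := st hx 3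
  have hx4 := st hx 4
  change h.1 *ᵥ uvec 0 = _ at hx0
  change h.1 *ᵥ uvec 1 = _ at hx1
  change h.1 *ᵥ uvec 2 = _ at hx2
  change h • vx (uvec 3) = _ at hx3
  change h • vx (uvec 4) = _ at hx4
  rw [smul_vx, mulVec3] at hx3
  rw [smul_vx, mulVec4] at hx4
  have h1 := enum5 (π 0) (π 1) (π 2) x y z
  rw [← hx0, ← hx1, ← hx2, colM_eq, det3_eq] at h1
  have h2 := h1 rfl (π 3) hx3 (π 4) hx4
  rw [sign_eq]
  convert h2 using 2
  funext i
  fin_cases i <;> rfl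

lemma mem6 {h : G} {π : Equiv.Perm (Fin 6)} (hx : h • t6 = t6 ∘ π) :
    memL L6 h.1 ((Equiv.Perm.sign π : ℤˣ) : ℤ) := by
  have st' : ∀ m, h • E m = E (π m) := fun m => congrFun hx m
  obtain ⟨x, hx0⟩ := smul_E (st' 0)
  obtain ⟨y, hx1⟩ := smul_E (st' 1)
  obtain ⟨z, hx2⟩ := smul_E (st' 2)
  have hx3 := st' 3
  have hx4 := st' 4
  have hx5 := st' 5
  change h • vx (uvec 3) = _ at hx3
  change h • vx (uvec 4) = _ at hx4
  change h • vx (uvec 5) = _ at hx5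
  rw [smul_vx, mulVec3] at hx3
  rw [smul_vx, mulVec4] at hx4
  rw [smul_vx, mulVec5] at hx5
  have h1 := enum6 (π 0) (π 1) (π 2) x y z
  rw [← hx0, ← hx1, ← hx2, colM_eq, det3_eq] at h1
  have h2 := h1 rfl (π 3) hx3 (π 4) hx4 (π 5) hx5
  rw [sign_eq]
  convert h2 using 2
  funext i
  fin_cases i <;> rfl

lemma L6_even : ∀ r ∈ L6, r.2.2 = 1 := by decide +kernel

lemma even6 {h : G} {π : Equiv.Perm (Fin 6)} (hx : h • t6 = t6 ∘ π) :
    Equiv.Perm.sign π = 1 := by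
  obtain ⟨r, hr, -, h2⟩ := mem6 hx
  rw [L6_even r hr] at h2
  exact Units.ext h2.symm

/-! ### Standard tuples are cells -/

lemma OK_E {s : ℕ} {e : Fin s → Fin 6} (he : Function.Injective e)
    (hs : ∃ i j l, (Matrix.of ![uvec (e i), uvec (e j), uvec (e l)]).det ≠ 0) : OK D (E ∘ e) := by
  refine ⟨E_injective.comp he, ?_, top 1, ⟨1, rfl⟩, ?_⟩
  · obtain ⟨i, j, l, h⟩ := hs
    exact ⟨_, _, _, (mem_rng _ _).2 ⟨i, rfl⟩, (mem_rng _ _).2 ⟨j, rfl⟩, (mem_rng _ _).2 ⟨l, rfl⟩, h⟩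
  · intro X hX
    obtain ⟨i, rfl⟩ := (mem_rng _ _).1 hX
    exact (mem_top _ _).2 ⟨e i, one_smul _ _⟩

lemma ok3 : OK D t3 := OK_E (by decide) ⟨0, 1, 2, by decide +kernel⟩
lemma ok4a : OK D t4a := OK_E (by decide) ⟨0, 1, 2, by decide +kernel⟩
lemma ok4b : OK D t4b := OK_E (by decide) ⟨0, 1, 2, by decide +kernel⟩
lemma ok5 : OK D t5 := OK_E (by decide) ⟨0, 1, 2, by decide +kernel⟩
lemma ok6 : OK D t6 := OK_E (e := id) (fun _ _ h => h) ⟨0, 1, 2, by decide +kernel⟩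

/-! ### Covering -/

lemma perm_of_rng {s : ℕ} {x y : Fin s → Vx} (hx : Function.Injective x)
    (hy : Function.Injective y) (h : rng y ⊆ rng x) : ∃ π : Equiv.Perm (Fin s), x = y ∘ π := by
  have hxy : rng y = rng x := eq_of_subset_of_card_le h (by rw [card_rng hx, card_rng hy])
  have hc : ∀ i, ∃ j, y j = x i := by
    intro i
    have : x i ∈ rng y := by rw [hxy]; exact (mem_rng _ _).2 ⟨i, rfl⟩
    exact (mem_rng _ _).1 this
  choose f hf using hc
  have hinj : Function.Injective f := by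
    intro i j hij
    apply hx
    rw [← hf i, ← hf j, hij]
  refine ⟨Equiv.ofBijective f ((Finite.injective_iff_bijective).1 hinj), ?_⟩
  funext i
  exact (hf i).symm

lemma cover_aux {s : ℕ} {e : Fin s → Fin 6} (he : Function.Injective e) {L : List Mat} {g0 : G}
    {x : Fin s → Vx} (hx : Function.Injective x) (c : Fin s → Fin 6) (hc : ∀ i, g0 • E (c i) = x i)
    (h : covers e L (univ.image c)) :
    ∃ (g : G) (π : Equiv.Perm (Fin s)), x = (g • (E ∘ e)) ∘ π := by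
  obtain ⟨M, -, hdet, hM⟩ := h
  have hd : M.det = 1 := by
    rw [Matrix.det_fin_three]
    unfold det3 at hdet
    linarith
  let a : G := ⟨M, hd⟩
  refine ⟨g0 * a, ?_⟩
  refine perm_of_rng hx (fun i j hij => he (E_injective (MulAction.injective (g0 * a) hij))) ?_
  intro X hX
  obtain ⟨m, rfl⟩ := (mem_rng _ _).1 hX
  obtain ⟨n, hn, hn'⟩ := hM m
  obtain ⟨i, -, rfl⟩ := mem_image.1 hn
  refine (mem_rng _ _).2 ⟨i, ?_⟩
  change x i = (g0 * a) • E (e m)
  rw [mul_smul, ← hc i]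
  congr 1
  change E (c i) = a • vx (uvec (e m))
  rw [smul_vx]
  exact hn'.symm

lemma coords {s : ℕ} {x : Fin s → Vx} (hx : OK D x) : ∃ (g0 : G) (c : Fin s → Fin 6),
    Function.Injective c ∧ (∀ i, g0 • E (c i) = x i) ∧ (univ.image c).card = s ∧
    Span (univ.image c) := by
  obtain ⟨hinj, hsp, σ, ⟨g0, rfl⟩, hsub⟩ := hx
  have hc : ∀ i, ∃ j, g0 • E j = x i := fun i =>
    (mem_top _ _).1 (hsub ((mem_rng _ _).2 ⟨i, rfl⟩))
  choose c hc using hc
  have hci : Function.Injective c := by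
    intro i j hij
    apply hinj
    rw [← hc i, ← hc j, hij]
  refine ⟨g0, c, hci, hc, ?_, ?_⟩
  · rw [card_image_of_injective _ hci, card_univ, Fintype.card_fin]
  · obtain ⟨a, b, d, ha, hb, hd, hdet⟩ := hsp
    have key : ∀ a, vx a ∈ rng x → ∃ i ∈ univ.image c, ∃ y : Bool, a = sv y (g0.1 *ᵥ uvec i) := by
      intro a ha
      obtain ⟨i, hi⟩ := (mem_rng _ _).1 ha
      refine ⟨c i, mem_image_of_mem _ (mem_univ _), vx_eq ?_⟩
      rw [← hi, ← hc i, ← smul_vx]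
      rfl
    obtain ⟨i, hi, y0, rfl⟩ := key a ha
    obtain ⟨j, hj, y1, rfl⟩ := key b hb
    obtain ⟨l, hl, y2, rfl⟩ := key d hd
    refine ⟨i, hi, j, hj, l, hl, fun h0 => hdet ?_⟩
    have h1 : (Matrix.of ![g0.1 *ᵥ uvec i, g0.1 *ᵥ uvec j, g0.1 *ᵥ uvec l]).det = 0 := by
      rw [det_three, Matrix.det_fin_three]
      unfold det3 at h0
      simp only [Matrix.of_apply, Matrix.cons_val_zero, Matrix.cons_val_one, Matrix.cons_val]
      linarith
    rw [Matrix.det_fin_three] at h1 ⊢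
    simp only [Matrix.of_apply, Matrix.cons_val_zero, Matrix.cons_val_one, Matrix.cons_val] at h1 ⊢
    cases y0 <;> cases y1 <;> cases y2 <;> simp only [sv, cond_true, cond_false] <;> linarith

/-! ### Disjointness of the two orbits of size four -/

def dd (X Y Z : Vx) : ℤ := (X.mat + Y.mat + Z.mat).det

lemma dd_smul (g : G) (X Y Z : Vx) : dd (g • X) (g • Y) (g • Z) = dd X Y Z := by
  unfold dd
  rw [smul_mat, smul_mat, smul_mat]
  have : g.1 * X.mat * g.1ᵀ + g.1 * Y.mat * g.1ᵀ + g.1 * Z.mat * g.1ᵀ =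
      g.1 * (X.mat + Y.mat + Z.mat) * g.1ᵀ := by
    rw [Matrix.mul_add, Matrix.mul_add, Matrix.add_mul, Matrix.add_mul]
  rw [this, Matrix.det_mul, Matrix.det_mul, Matrix.det_transpose, g.2, one_mul, mul_one]

lemma dd4a : ∀ i j l : Fin 4, i ≠ j → i ≠ l → j ≠ l →
    dd (E (i4a i)) (E (i4a j)) (E (i4a l)) ≠ 0 := by
  decide +kernel

lemma dd4b : dd (E (i4b 0)) (E (i4b 1)) (E (i4b 3)) = 0 := by
  decide +kernel

lemma disj_ab (g : G) (π : Equiv.Perm (Fin 4)) (h : g • t4a = t4b ∘ π) : False := by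
  have key : ∀ m, g • E (i4a (π.symm m)) = E (i4b m) := by
    intro m
    have := congrFun h (π.symm m)
    change g • E (i4a (π.symm m)) = E (i4b (π (π.symm m))) at this
    rwa [Equiv.apply_symm_apply] at this
  have h1 := dd4b
  rw [← key 0, ← key 1, ← key 3, dd_smul] at h1
  refine dd4a _ _ _ ?_ ?_ ?_ h1
  · exact fun e => by simpa using π.symm.injective e
  · exact fun e => by simpa using π.symm.injective e
  · exact fun e => by simpa using π.symm.injective e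

lemma disj_ba (g : G) (π : Equiv.Perm (Fin 4)) (h : g • t4b = t4a ∘ π) : False := by
  refine disj_ab g⁻¹ π⁻¹ ?_
  have h1 : t4b = (g⁻¹ • t4a) ∘ π := by
    rw [← smul_comp, ← h, inv_smul_smul]
  conv_rhs => rw [h1]
  rw [Function.comp_assoc]
  have : (π : Fin 4 → Fin 4) ∘ ⇑π⁻¹ = id := by
    funext i
    simp
  rw [this]
  rfl

/-! ### Counting stabilisers -/

variable {k : Type} [Field k]

lemma altF_fin {s : ℕ} {t : Fin s → Vx} (ht : OK D t) :
    {g : G | altF k t (g • t) ≠ 0}.Finite := kfin t (alt k t ht)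

lemma Nst_eq {s : ℕ} {t : Fin s → Vx} (ht : OK D t) :
    Nst k t = (({g : G | altF k t (g • t) ≠ 0}.ncard : ℕ) : k) := by
  unfold Nst
  have hfin := altF_fin (k := k) ht
  rw [finsum_eq_sum_of_support_subset (s := hfin.toFinset)]
  · rw [sum_congr rfl (g := fun _ => (1 : k))]
    · rw [sum_const, Set.ncard_eq_toFinset_card _ hfin, nsmul_eq_mul, mul_one]
    · intro g hg
      exact altF_mul_self ht.1 ((Set.Finite.mem_toFinset _).1 hg)
  · intro g hg
    rw [Set.Finite.coe_toFinset]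
    intro h0
    exact hg (by
      change altF k t (g • t) * altF k t (g • t) = 0
      rw [h0, mul_zero])

lemma inv_of_good {s : ℕ} {e : Fin s → Fin 6} {r : Mat × Mat × ℤ} (h : good e r) :
    ∃ g : G, g.1 = r.1 ∧ (g⁻¹).1 = r.2.1 := by
  obtain ⟨h1, h2, -⟩ := h
  have hd : r.1.det = 1 := by
    rw [Matrix.det_fin_three]
    unfold det3 at h1
    linarith
  refine ⟨⟨r.1, hd⟩, rfl, ?_⟩
  set g : G := ⟨r.1, hd⟩ with hg
  have h3 : (g⁻¹).1 * g.1 = 1 := congrArg Subtype.val (inv_mul_cancel g)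
  have h4 : g.1 * r.2.1 = 1 := h2
  calc (g⁻¹).1 = (g⁻¹).1 * (g.1 * r.2.1) := by rw [h4, Matrix.mul_one]
    _ = r.2.1 := by rw [← Matrix.mul_assoc, h3, Matrix.one_mul]

lemma stab_of_good {s : ℕ} {e : Fin s → Fin 6} (he : Function.Injective e)
    {r : Mat × Mat × ℤ} (h : good e r) {g : G} (hg : g.1 = r.1) :
    ∃ π : Equiv.Perm (Fin s), g • (E ∘ e) = (E ∘ e) ∘ π := by
  refine perm_of_rng (fun i j hij => he (E_injective (MulAction.injective g hij)))
    (E_injective.comp he) ?_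
  have hsub : rng (g • (E ∘ e)) ⊆ rng (E ∘ e) := by
    intro X hX
    obtain ⟨m, rfl⟩ := (mem_rng _ _).1 hX
    obtain ⟨n, hn⟩ := h.2.2 m
    refine (mem_rng _ _).2 ⟨n, ?_⟩
    change E (e n) = g • vx (uvec (e m))
    rw [smul_vx, hg, hn]
  have hinj : Function.Injective (g • (E ∘ e)) :=
    fun i j hij => he (E_injective (MulAction.injective g hij))
  rw [eq_of_subset_of_card_le hsub (by
    rw [card_rng hinj, card_rng (E_injective.comp he)])]

lemma Nst_list {s : ℕ} {e : Fin s → Fin 6} (he : Function.Injective e) (ht : OK D (E ∘ e))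
    (L : List (Mat × Mat × ℤ)) (hgood : ∀ r ∈ L, good e r) (hnd : (L.map Prod.fst).Nodup)
    (hmem : ∀ (h : G) (π : Equiv.Perm (Fin s)), h • (E ∘ e) = (E ∘ e) ∘ π →
      memL L h.1 ((Equiv.Perm.sign π : ℤˣ) : ℤ)) :
    Nst k (E ∘ e) = ((L.length : ℕ) : k) := by
  rw [Nst_eq ht]
  have hinj : Function.Injective (fun g : G => g.1) := fun a b h => Subtype.ext h
  have h1 : ((fun g : G => g.1) '' {g : G | altF k (E ∘ e) (g • (E ∘ e)) ≠ 0}) =
        (((L.map Prod.fst).toFinset : Finset Mat) : Set Mat) := by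
    ext M
    rw [mem_coe, List.mem_toFinset, List.mem_map]
    constructor
    · rintro ⟨g, hg, rfl⟩
      obtain ⟨π, hπ⟩ := altF_ne hg
      obtain ⟨r, hr, h1, -⟩ := hmem g π hπ
      exact ⟨r, hr, h1⟩
    · rintro ⟨r, hr, rfl⟩
      obtain ⟨g, hg, -⟩ := inv_of_good (hgood r hr)
      obtain ⟨π, hπ⟩ := stab_of_good he (hgood r hr) hg
      refine ⟨g, ?_, hg⟩
      change altF k (E ∘ e) (g • (E ∘ e)) ≠ 0
      rw [hπ, altF_self ht.1]
      intro h0
      have := sgn_sq (k := k) π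
      rw [h0] at this
      simp at this
  rw [← Set.ncard_image_of_injective _ hinj, h1, Set.ncard_coe_finset,
    List.toFinset_card_of_nodup hnd, List.length_map]

lemma cast24 (h2 : (2 : k) ≠ 0) (h3 : (3 : k) ≠ 0) : ((24 : ℕ) : k) ≠ 0 := by
  have : ((24 : ℕ) : k) = 2 ^ 3 * 3 := by norm_num
  rw [this]
  exact mul_ne_zero (pow_ne_zero _ h2) h3

lemma cast12 (h2 : (2 : k) ≠ 0) (h3 : (3 : k) ≠ 0) : ((12 : ℕ) : k) ≠ 0 := by
  have : ((12 : ℕ) : k) = 2 ^ 2 * 3 := by norm_num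
  rw [this]
  exact mul_ne_zero (pow_ne_zero _ h2) h3

lemma cast8 (h2 : (2 : k) ≠ 0) : ((8 : ℕ) : k) ≠ 0 := by
  have : ((8 : ℕ) : k) = 2 ^ 3 := by norm_num
  rw [this]
  exact pow_ne_zero _ h2

lemma i3_inj : Function.Injective i3 := by decide
lemma i4a_inj : Function.Injective i4a := by decide
lemma i4b_inj : Function.Injective i4b := by decide
lemma i5_inj : Function.Injective i5 := by decide

lemma N3 (h2 : (2 : k) ≠ 0) (h3 : (3 : k) ≠ 0) : Nst k t3 ≠ 0 := by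
  have h := Nst_list (k := k) i3_inj ok3 L3 good3 nodup3 (fun _ _ h => mem3 h)
  change Nst k (E ∘ i3) ≠ 0
  rw [h]
  exact cast24 h2 h3

lemma N4a (h2 : (2 : k) ≠ 0) (h3 : (3 : k) ≠ 0) : Nst k t4a ≠ 0 := by
  have h := Nst_list (k := k) i4a_inj ok4a L4a good4a nodup4a (fun _ _ h => mem4a h)
  change Nst k (E ∘ i4a) ≠ 0
  rw [h]
  exact cast24 h2 h3

lemma N4b (h2 : (2 : k) ≠ 0) (h3 : (3 : k) ≠ 0) : Nst k t4b ≠ 0 := by
  have h := Nst_list (k := k) i4b_inj ok4b L4b good4b nodup4b (fun _ _ h => mem4b h)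
  change Nst k (E ∘ i4b) ≠ 0
  rw [h]
  exact cast12 h2 h3

lemma N5 (h2 : (2 : k) ≠ 0) : Nst k t5 ≠ 0 := by
  have h := Nst_list (k := k) i5_inj ok5 L5 good5 nodup5 (fun _ _ h => mem5 h)
  change Nst k (E ∘ i5) ≠ 0
  rw [h]
  exact cast8 h2

lemma N6 (h2 : (2 : k) ≠ 0) (h3 : (3 : k) ≠ 0) : Nst k t6 ≠ 0 := by
  have h := Nst_list (k := k) (e := id) (fun _ _ h => h) ok6 L6 good6 nodup6
    (fun _ _ h => mem6 h)
  change Nst k (E ∘ id) ≠ 0
  rw [h]
  exact cast24 h2 h3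

/-! ### Systems of representatives -/

variable (h2 : (2 : k) ≠ 0) (h3 : (3 : k) ≠ 0)

include h2 h3

noncomputable def R3 : Reps k 3 where
  J := Unit
  fin := inferInstance
  t := fun _ => t3
  ok := fun _ => ok3
  cover := by
    intro x hx
    obtain ⟨g0, c, hci, hc, hcard, hsp⟩ := coords hx
    obtain ⟨g, π, h⟩ := cover_aux (e := i3) (by decide) hx.1 c hc (cov3 _ hcard hsp)
    exact ⟨(), g, π, h⟩
  disj := fun _ _ _ _ _ => rfl
  ne := fun _ => N3 h2 h3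

noncomputable def R4 : Reps k 4 where
  J := Bool
  fin := inferInstance
  t := fun j => bif j then t4b else t4a
  ok := fun j => by cases j; exacts [ok4a, ok4b]
  cover := by
    intro x hx
    obtain ⟨g0, c, hci, hc, hcard, hsp⟩ := coords hx
    rcases cov4 _ hcard with h | h
    · obtain ⟨g, π, h⟩ := cover_aux (e := i4a) (by decide) hx.1 c hc h
      exact ⟨false, g, π, h⟩
    · obtain ⟨g, π, h⟩ := cover_aux (e := i4b) (by decide) hx.1 c hc h
      exact ⟨true, g, π, h⟩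
  disj := by
    intro j j' g π h
    cases j <;> cases j'
    · rfl
    · exact (disj_ab g π h).elim
    · exact (disj_ba g π h).elim
    · rfl
  ne := fun j => by
    cases j
    · exact N4a h2 h3
    · exact N4b h2 h3

noncomputable def R5 : Reps k 5 where
  J := Unit
  fin := inferInstance
  t := fun _ => t5
  ok := fun _ => ok5
  cover := by
    intro x hx
    obtain ⟨g0, c, hci, hc, hcard, hsp⟩ := coords hx
    obtain ⟨g, π, h⟩ := cover_aux (e := i5) (by decide) hx.1 c hc (cov5 _ hcard)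
    exact ⟨(), g, π, h⟩
  disj := fun _ _ _ _ _ => rfl
  ne := fun _ => N5 h2

noncomputable def R6 : Reps k 6 where
  J := Unit
  fin := inferInstance
  t := fun _ => t6
  ok := fun _ => ok6
  cover := by
    intro x hx
    obtain ⟨g0, c, hci, hc, hcard, hsp⟩ := coords hx
    refine ⟨(), g0, Equiv.ofBijective c ((Finite.injective_iff_bijective).1 hci), ?_⟩
    funext i
    exact (hc i).symm
  disj := fun _ _ _ _ _ => rfl
  ne := fun _ => N6 h2 h3

end Pool.Agent.H320R3.Std
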