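import Mathlib
import Pool.Agent.H320R3.Std
import Pool.Agent.H320R3.Resol

set_option autoImplicit false

open Finset Matrix CategoryTheory

namespace Pool.Agent.H320R3.Res

open Geom Inst Tuples Cochains Act Std

variable {k : Type} [Field k]

/-- cochains as a representation -/
noncomputable abbrev AR (k : Type) [Field k] (s : ℕ) : Rep.{0} k G := Rep.of (rho k s)

/-- maps between representations from equivariant linear maps -/
noncomputable def mkHom {M N : Type} [AddCommGroup M] [Module k M] [AddCommGroup N] [Module k N]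
    {ρ : Representation k G M} {σ : Representation k G N} (f : M →ₗ[k] N)
    (hf : ∀ (g : G) (v : M), f (ρ g v) = σ g (f v)) : Rep.of ρ ⟶ Rep.of σ :=
  Rep.ofHom (LinearMap.intertwiningMap_of_isIntertwiningMap ρ σ f hf)

lemma mkHom_apply {M N : Type} [AddCommGroup M] [Module k M] [AddCommGroup N] [Module k N]
    {ρ : Representation k G M} {σ : Representation k G N} (f : M →ₗ[k] N)
    (hf : ∀ (g : G) (v : M), f (ρ g v) = σ g (f v)) (v : M) :
    (mkHom f hf).hom v = f v := rfl

/-- the differentials -/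
noncomputable def dR (k : Type) [Field k] (s : ℕ) : AR k s ⟶ AR k (s + 1) :=
  mkHom (del D k s) (fun g f => del_rho g f)

/-- a hom from the basic homs -/
noncomputable def homPsi {s : ℕ} (t : Fin s → Vx) (A : Rep.{0} k G) (m : A) : AR k s ⟶ A :=
  mkHom (σ := A.ρ) (Psi A.ρ t m) (fun g f => Psi_equiv A.ρ t m g f)

lemma homPsi_apply {s : ℕ} (t : Fin s → Vx) (A : Rep.{0} k G) (m : A) (f : Cochains.A D k s) :
    (homPsi t A m).hom f = Psi A.ρ t m f := rfl

/-- the underlying linear map of a hom -/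
noncomputable def lin {s : ℕ} {A : Rep.{0} k G} (F : AR k s ⟶ A) :
    (Cochains.A D k s) →ₗ[k] A := F.hom.toLinearMap

lemma lin_apply {s : ℕ} {A : Rep.{0} k G} (F : AR k s ⟶ A) (f : Cochains.A D k s) :
    lin F f = F.hom f := rfl

lemma lin_equiv {s : ℕ} {A : Rep.{0} k G} (F : AR k s ⟶ A) (g : G) (f : Cochains.A D k s) :
    lin F (rho k s g f) = A.ρ g (lin F f) := Rep.hom_comm_apply F g f

lemma ext_hom {s : ℕ} {A : Rep.{0} k G} {F F' : AR k s ⟶ A}
    (h : ∀ f : Cochains.A D k s, F.hom f = F'.hom f) : F = F' := by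
  ext f
  exact h f

lemma map_Psi {s : ℕ} {A B : Rep.{0} k G} (e : A ⟶ B) (t : Fin s → Vx) (m : A)
    (f : Cochains.A D k s) : e.hom (Psi A.ρ t m f) = Psi B.ρ t (e.hom m) f := by
  rw [Psi_apply, Psi_apply]
  have h1 := map_finsum e.hom.toLinearMap (pfin A.ρ t m f)
  refine h1.trans (finsum_congr fun g => ?_)
  rw [map_smul]
  congr 1
  exact Rep.hom_comm_apply e g m

/-- a hom with prescribed coefficients -/
noncomputable def homSum {s : ℕ} (R : Reps k s) (A : Rep.{0} k G) (m : R.J → A) : AR k s ⟶ A :=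
  mkHom (σ := A.ρ) (∑ j, (Nst k (R.t j))⁻¹ • Psi A.ρ (R.t j) (m j)) (fun g f => by
    simp only [LinearMap.sum_apply, LinearMap.smul_apply, map_sum, map_smul, Psi_equiv])

lemma homSum_apply {s : ℕ} (R : Reps k s) (A : Rep.{0} k G) (m : R.J → A)
    (f : Cochains.A D k s) :
    (homSum R A m).hom f = ∑ j, (Nst k (R.t j))⁻¹ • Psi A.ρ (R.t j) (m j) f := by
  change (∑ j, (Nst k (R.t j))⁻¹ • Psi A.ρ (R.t j) (m j)) f = _
  simp only [LinearMap.sum_apply, LinearMap.smul_apply]

/-- projectivity -/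
lemma projective_AR {s : ℕ} (R : Reps k s) : Projective (AR k s) where
  factors {E X} f e _ := by
    have hsurj := (Rep.epi_iff_surjective e).1 inferInstance
    choose y hy using fun j => hsurj (f.hom (alt k (R.t j) (R.ok j)))
    refine ⟨homSum R E y, ?_⟩
    apply ext_hom
    intro a
    have h1 := hom_recon X.ρ R (lin f) (lin_equiv f) a
    rw [← lin_apply f a, h1]
    change e.hom ((homSum R E y).hom a) = _
    rw [homSum_apply, map_sum]
    refine sum_congr rfl fun j _ => ?_
    rw [map_smul, map_Psi, hy]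
    rfl

/-! ### The augmentation -/

/-- the augmentation -/
noncomputable def eps (k : Type) [Field k] : AR k 6 ⟶ Rep.trivial k G k :=
  homPsi t6 (Rep.trivial k G k) (1 : k)

lemma eps_apply (f : Cochains.A D k 6) : (eps k).hom f = ∑ᶠ g : G, f.1 (g • t6) := by
  change Psi (Rep.trivial k G k).ρ t6 (1 : k) f = _
  rw [Psi_apply]
  refine finsum_congr fun g => ?_
  change f.1 (g • t6) * 1 = _
  rw [mul_one]

def swp : Fin 6 → Equiv.Perm (Fin 5) :=
  ![Equiv.swap 0 1, Equiv.swap 0 1, Equiv.swap 0 1, Equiv.swap 0 3, Equiv.swap 0 3,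
    Equiv.swap 1 3]

lemma swp_sign : ∀ i, Equiv.Perm.sign (swp i) = -1 := by decide +kernel

lemma fl_swp : ∀ (i : Fin 6) (m : Fin 5), fl i • E (i.succAbove m) = E (i.succAbove (swp i m)) := by
  decide +kernel

lemma eps_del (h2 : (2 : k) ≠ 0) (f : Cochains.A D k 5) : (eps k).hom (del D k 5 f) = 0 := by
  change Psi (Rep.trivial k G k).ρ t6 (1 : k) (del D k 5 f) = 0
  rw [Psi_del _ ok6]
  refine sum_eq_zero fun i _ => ?_
  have h1 : fl i • (i.removeNth t6) = (i.removeNth t6) ∘ swp i := by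
    funext m
    exact fl_swp i m
  have h3 := Psi_stab (k := k) (Rep.trivial k G k).ρ h1 (1 : k)
  rw [swp_sign] at h3
  have h4 : (Rep.trivial k G k).ρ (fl i) (1 : k) = (1 : k) := rfl
  rw [h4] at h3
  have h5 := LinearMap.congr_fun h3 f
  rw [LinearMap.smul_apply] at h5
  set c : k := Psi (Rep.trivial k G k).ρ (i.removeNth t6) (1 : k) f with hc
  have h6 : c = -c := by
    have : (((-1 : ℤˣ) : ℤ) : k) • c = -c := by
      simp
    rw [← this]
    exact h5
  have h7 : (2 : k) * c = 0 := by linear_combination h6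
  have h8 : c = 0 := (mul_eq_zero.1 h7).resolve_left h2
  change (-1 : k) ^ (i : ℕ) • c = 0
  rw [h8, smul_zero]

lemma T_exists {σ : Finset Vx} (h : σ ∈ D.T) : ∃ g, top g = σ := h

lemma rng_t6 (g : G) : rng (g • t6) = top g := by
  ext X
  rw [mem_rng, mem_top]
  rfl

lemma eps_exact (h2 : (2 : k) ≠ 0) (h3 : (3 : k) ≠ 0) (f : Cochains.A D k 6)
    (hf : (eps k).hom f = 0) : ∃ g : Cochains.A D k 5, del D k 5 g = f := by
  obtain ⟨g, σ₀, hσ₀, hsupp⟩ := exact_top T_nonempty f
  obtain ⟨g0, rfl⟩ := T_exists hσ₀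
  refine ⟨g, ?_⟩
  set f' : Cochains.A D k 6 := f - del D k 5 g with hf'
  have hε : (eps k).hom f' = 0 := by
    rw [hf', map_sub, hf, eps_del h2, sub_zero]
  set c : k := f'.1 (g0 • t6) with hc
  have key : ∀ h : G, f'.1 ((g0 * h) • t6) = c * (altF k t6 (h • t6) * altF k t6 (h • t6)) := by
    intro h
    by_cases h0 : altF k t6 (h • t6) = 0
    · rw [h0, mul_zero, mul_zero]
      by_contra hne
      have h1 := hsupp _ hne
      obtain ⟨π, hπ⟩ := perm_of_rng (x := (g0 * h) • t6) (y := g0 • t6)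
        (A_ok f' hne).1 ((OK_smul g0 t6).2 ok6).1 (by rw [h1, rng_t6])
      have h3 : h • t6 = t6 ∘ π := by
        have := congrArg (fun x => g0⁻¹ • x) hπ
        simp only [mul_smul, inv_smul_smul] at this
        rw [this, smul_comp, inv_smul_smul]
      rw [h3, altF_self ok6.1, even6 h3] at h0
      simp at h0
    · rw [altF_mul_self ok6.1 h0, mul_one]
      obtain ⟨π, hπ⟩ := altF_ne h0
      rw [mul_smul, hπ, smul_comp, A_alt f', even6 hπ, hc]
      simp
  have hN : Nst k t6 ≠ 0 := N6 h2 h3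
  have h3 : (eps k).hom f' = c * Nst k t6 := by
    rw [eps_apply, ← finsum_comp_equiv (Equiv.mulLeft g0)]
    unfold Nst
    rw [mul_finsum]
    exact finsum_congr fun h => key h
  rw [hε] at h3
  have h5 : c = 0 := (mul_eq_zero.1 h3.symm).resolve_right hN
  have h6 : f' = 0 := by
    ext x
    by_contra hne
    have h1 := hsupp _ hne
    obtain ⟨π, hπ⟩ := perm_of_rng (x := x) (y := g0 • t6)
        (A_ok f' hne).1 ((OK_smul g0 t6).2 ok6).1 (by rw [h1, rng_t6])
    refine hne ?_
    rw [hπ, A_alt f', ← hc, h5, mul_zero]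
    rfl
  rw [hf'] at h6
  exact (sub_eq_zero.1 h6).symm

lemma eps_surj (h2 : (2 : k) ≠ 0) (h3 : (3 : k) ≠ 0) :
    Function.Surjective (eps k).hom := by
  intro c
  have h1 : (eps k).hom (alt k t6 ok6) = Nst k t6 * (1 : k) :=
    fun_Psi (k := k) (Rep.trivial k G k).ρ ok6 LinearMap.id (fun h π hx m => by
    rw [even6 hx]
    simp) (1 : k)
  have h4 : Nst k t6 ≠ 0 := (R6 h2 h3).ne ()
  refine ⟨(c * (Nst k t6)⁻¹) • alt k t6 ok6, ?_⟩
  rw [map_smul, h1]
  change (c * (Nst k t6)⁻¹) * (Nst k t6 * 1) = c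
  field_simp

/-! ### The resolution -/

lemma not_ok2 {t : Fin 2 → Vx} : ¬ OK D t := by
  rintro ⟨-, ⟨a, b, c, ha, hb, hc, hdet⟩, -⟩
  have hd : ∀ a, vx a ∈ rng t → vx a = t 0 ∨ vx a = t 1 := by
    intro a ha
    obtain ⟨i, hi⟩ := (mem_rng _ _).1 ha
    fin_cases i
    · exact Or.inl hi.symm
    · exact Or.inr hi.symm
  have h2 : ∀ a b : Fin 3 → ℤ, vx a = vx b → ∃ e : ℤ, ∀ i, a i = e * b i := by
    intro a b h
    obtain ⟨x, rfl⟩ := vx_eq h
    cases x
    · exact ⟨-1, fun i => by simp [Lists.sv]⟩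
    · exact ⟨1, fun i => by simp [Lists.sv]⟩
  have hab : vx a = vx b ∨ vx a = vx c ∨ vx b = vx c := by
    rcases hd a ha with h | h <;> rcases hd b hb with h' | h' <;> rcases hd c hc with h'' | h''
    · exact Or.inl (h.trans h'.symm)
    · exact Or.inl (h.trans h'.symm)
    · exact Or.inr (Or.inl (h.trans h''.symm))
    · exact Or.inr (Or.inr (h'.trans h''.symm))
    · exact Or.inr (Or.inr (h'.trans h''.symm))
    · exact Or.inr (Or.inl (h.trans h''.symm))
    · exact Or.inl (h.trans h'.symm)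
    · exact Or.inl (h.trans h'.symm)
  apply hdet
  rw [Matrix.det_fin_three]
  simp only [Matrix.of_apply, Matrix.cons_val_zero, Matrix.cons_val_one, Matrix.cons_val]
  rcases hab with h | h | h
  · obtain ⟨e, he⟩ := h2 _ _ h
    rw [he 0, he 1, he 2]
    ring
  · obtain ⟨e, he⟩ := h2 _ _ h
    rw [he 0, he 1, he 2]
    ring
  · obtain ⟨e, he⟩ := h2 _ _ h
    rw [he 0, he 1, he 2]
    ring

/-- the resolution -/
noncomputable def E4 (h2 : (2 : k) ≠ 0) (h3 : (3 : k) ≠ 0) : Resol.Data4 k G where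
  X0 := AR k 6
  X1 := AR k 5
  X2 := AR k 4
  X3 := AR k 3
  d1 := dR k 5
  d2 := dR k 4
  d3 := dR k 3
  ε := eps k
  h0 := by
    apply ext_hom
    intro f
    exact eps_del h2 f
  h1 := by
    apply ext_hom
    intro f
    exact del_del f
  h2 := by
    apply ext_hom
    intro f
    exact del_del f
  p0 := projective_AR (R6 h2 h3)
  p1 := projective_AR (R5 h2)
  p2 := projective_AR (R4 h2 h3)
  p3 := projective_AR (R3 h2 h3)
  surj := eps_surj h2 h3
  e0 := fun x hx => eps_exact h2 h3 x hx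
  e1 := fun x hx => exact_del T_nonempty (by norm_num) x hx
  e2 := fun x hx => exact_del T_nonempty (by norm_num) x hx
  e3 := fun x hx => by
    obtain ⟨y, hy⟩ := exact_del (s := 2) T_nonempty (by norm_num) x hx
    have h0 : y = 0 := by
      ext t
      by_contra hne
      exact not_ok2 (A_ok y hne)
    rw [← hy, h0, map_zero]

end Pool.Agent.H320R3.Res
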