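import Mathlib
import Pool.Agent.H320R3.Res
import Pool.Agent.H320R3.Certs

set_option autoImplicit false

open Finset Matrix CategoryTheory

namespace Pool.Agent.H320R3.Van

open Geom Inst Tuples Cochains Act Modl Certs
open Pool.Agent.H320R3.Std Pool.Agent.H320R3.Lists Pool.Agent.H320R3.Res

/-! ### Faces -/

lemma faceG {M B : Mat} (h : det3 (fun i => M i 0) (fun i => M i 1) (fun i => M i 2) = 1 ∧
    M * B = 1) : ∃ g : G, g.1 = M ∧ (g⁻¹).1 = B := by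
  obtain ⟨h1, h2⟩ := h
  have hd : M.det = 1 := by
    rw [Matrix.det_fin_three]
    unfold det3 at h1
    linarith
  refine ⟨⟨M, hd⟩, rfl, ?_⟩
  set g : G := ⟨M, hd⟩ with hg
  have h3 : (g⁻¹).1 * g.1 = 1 := congrArg Subtype.val (inv_mul_cancel g)
  have h4 : g.1 * B = 1 := h2
  calc (g⁻¹).1 = (g⁻¹).1 * (g.1 * B) := by rw [h4, Matrix.mul_one]
    _ = B := by rw [← Matrix.mul_assoc, h3, Matrix.one_mul]

lemma face_eq {s : ℕ} {e : Fin (s + 1) → Fin 6} {e' : Fin s → Fin 6} {i : Fin (s + 1)} {M : Mat}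
    {P : Equiv.Perm (Fin s)} (hE : ∀ m : Fin s, E (e (i.succAbove m)) = vx (M *ᵥ uvec (e' (P m))))
    {g : G} (hg : g.1 = M) : i.removeNth (E ∘ e) = (g • (E ∘ e')) ∘ P := by
  funext m
  change E (e (i.succAbove m)) = g • vx (uvec (e' (P m)))
  rw [smul_vx, hg, hE]

variable {k : Type} [Field k]

/-- The action of `SL_3(ℤ)` on `V k`. -/
noncomputable def repZ (k : Type) [Field k] : Representation k G (V k) :=
  (repV k).comp (Matrix.SpecialLinearGroup.map (Int.castRingHom k))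

lemma repZ_apply (g : G) (v : V k) :
    (repZ k g v).1 = actM (cm g.1 k) (cm (g⁻¹).1 k) *ᵥ v.1 := by
  unfold repZ
  rw [MonoidHom.comp_apply, repV_apply, ← map_inv]
  rfl

/-- functionals on `V k` -/
noncomputable def evV (k : Type) [Field k] (ξ : I → ℤ) : V k →ₗ[k] k := (evL ξ).comp (V k).subtype

lemma evV_apply (ξ : I → ℤ) (v : V k) : evV k ξ v = ev ξ v.1 := rfl

lemma evV_act (ξ : I → ℤ) (g : G) (v : V k) :
    evV k ξ (repZ k g v) = evV k (ξ ᵥ* actM g.1 (g⁻¹).1) v := by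
  rw [evV_apply, repZ_apply, ev_act, evV_apply]

lemma evV_add (ξ ξ' : I → ℤ) (v : V k) : evV k (ξ + ξ') v = evV k ξ v + evV k ξ' v :=
  ev_add _ _ _

lemma evV_zsmul (c : ℤ) (ξ : I → ℤ) (v : V k) : evV k (c • ξ) v = (c : k) * evV k ξ v :=
  ev_zsmul _ _ _

/-- sign-equivariance of a functional from a list -/
lemma hlam_of {s : ℕ} {e : Fin s → Fin 6} {L : Lst} (hgood : ∀ r ∈ L, good e r)
    (hmem : ∀ (h : G) (π : Equiv.Perm (Fin s)), h • (E ∘ e) = (E ∘ e) ∘ π →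
      memL L h.1 ((Equiv.Perm.sign π : ℤˣ) : ℤ)) {ξ : I → ℤ}
    (heq : ∀ r ∈ L, ∀ y, (ξ ᵥ* actM r.1 r.2.1) y = r.2.2 * ξ y) (h : G)
    (π : Equiv.Perm (Fin s)) (hx : h • (E ∘ e) = (E ∘ e) ∘ π) (m : V k) :
    evV k ξ (repZ k h m) = ((Equiv.Perm.sign π : ℤ) : k) * evV k ξ m := by
  obtain ⟨r, hr, h1, h2⟩ := hmem h π hx
  obtain ⟨g, hg1, hg2⟩ := inv_of_good (hgood r hr)
  have hgh : g = h := Subtype.ext (hg1.trans h1)
  subst hgh
  rw [evV_act, hg1, hg2, ← h2]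
  have : ξ ᵥ* actM r.1 r.2.1 = r.2.2 • ξ := by
    funext y
    rw [heq r hr y]
    rfl
  rw [this, evV_zsmul]

/-- relations satisfied by the value of an equivariant map -/
lemma rel_of {s : ℕ} {e : Fin s → Fin 6} (he : Function.Injective e) (ht : OK D (E ∘ e))
    {L : Lst} (hgood : ∀ r ∈ L, good e r) (hnd : (L.map Prod.fst).Nodup)
    (hmem : ∀ (h : G) (π : Equiv.Perm (Fin s)), h • (E ∘ e) = (E ∘ e) ∘ π →
      memL L h.1 ((Equiv.Perm.sign π : ℤˣ) : ℤ))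
    (F : Cochains.A D k s →ₗ[k] V k) (hF : ∀ g f, F (rho k s g f) = repZ k g (F f)) :
    Rel L (F (alt k (E ∘ e) ht)).1 := by
  intro r hr
  obtain ⟨g, hg1, hg2⟩ := inv_of_good (hgood r hr)
  obtain ⟨π, hπ⟩ := stab_of_good he (hgood r hr) hg1
  have h1 := hom_stab (repZ k) F hF ht hπ
  obtain ⟨r', hr', h2, h3⟩ := hmem g π hπ
  have hrr : r' = r := by
    have := List.inj_on_of_nodup_map hnd hr' hr (h2.trans hg1)
    exact this
  subst hrr
  rw [← h3] at h1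
  have h4 := congrArg Subtype.val h1
  rw [repZ_apply, hg1, hg2] at h4
  exact h4

lemma hF_Psi {s : ℕ} (t : Fin s → Vx) (m : V k) (g : G) (f : Cochains.A D k s) :
    Psi (repZ k) t m (rho k s g f) = repZ k g (Psi (repZ k) t m f) := Psi_equiv _ _ _ _ _

section

variable (h2 : (2 : k) ≠ 0) (h3 : (3 : k) ≠ 0)

include h2 in
lemma Z6 {v : V k} (h : Rel L6 v.1) : v = 0 := by
  apply Subtype.ext
  refine cert_zero (Λ := []) cert6 den6 ?_ check6 v.2 h (fun ξ hξ => absurd hξ (by simp))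
  unfold den6
  exact_mod_cast h2

include h2 in
lemma Z5 {v : V k} (h : Rel L5 v.1) (ha : evV k lama v = 0) (hb : evV k D5bB v = 0) : v = 0 := by
  apply Subtype.ext
  refine cert_zero (Λ := [lama, D5bB]) cert5 den5 ?_ check5 v.2 h (fun ξ hξ => ?_)
  · unfold den5
    have : ((16 : ℤ) : k) = 2 ^ 4 := by norm_num
    rw [this]
    exact pow_ne_zero _ h2
  · simp only [List.mem_cons, List.not_mem_nil, or_false] at hξ
    rcases hξ with rfl | rfl
    · exact ha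
    · exact hb

include h2 h3 in
lemma Z4a {v : V k} (h : Rel L4a v.1) (ha : evV k lama v = 0) : v = 0 := by
  apply Subtype.ext
  refine cert_zero (Λ := [lama]) cert4a den4a ?_ check4a v.2 h (fun ξ hξ => ?_)
  · unfold den4a
    have : ((24 : ℤ) : k) = 2 ^ 3 * 3 := by norm_num
    rw [this]
    exact mul_ne_zero (pow_ne_zero _ h2) h3
  · simp only [List.mem_cons, List.not_mem_nil, or_false] at hξ
    rcases hξ with rfl
    exact ha

include h2 h3 in
lemma Z4b {v : V k} (h : Rel L4b v.1) (ha : evV k lamA v = 0) (hb : evV k lamB v = 0) :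
    v = 0 := by
  apply Subtype.ext
  refine cert_zero (Λ := [lamA, lamB]) cert4b den4b ?_ check4b v.2 h (fun ξ hξ => ?_)
  · unfold den4b
    have : ((6 : ℤ) : k) = 2 * 3 := by norm_num
    rw [this]
    exact mul_ne_zero h2 h3
  · simp only [List.mem_cons, List.not_mem_nil, or_false] at hξ
    rcases hξ with rfl | rfl
    · exact ha
    · exact hb

include h2 h3 in
lemma Z3 {v : V k} (h : Rel L3 v.1) (ha : evV k lam3 v = 0) : v = 0 := by
  apply Subtype.ext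
  refine cert_zero (Λ := [lam3]) cert3 den3 ?_ check3 v.2 h (fun ξ hξ => ?_)
  · unfold den3
    have : ((6 : ℤ) : k) = 2 * 3 := by norm_num
    rw [this]
    exact mul_ne_zero h2 h3
  · simp only [List.mem_cons, List.not_mem_nil, or_false] at hξ
    rcases hξ with rfl
    exact ha

end

/-! ### Homs out of the cochains -/

section

variable (h2 : (2 : k) ≠ 0) (h3 : (3 : k) ≠ 0) {M : Type} [AddCommGroup M] [Module k M]
  (ρ : Representation k G M)

include h2 h3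

lemma hom6 (F : Cochains.A D k 6 →ₗ[k] M) (hF : ∀ g f, F (rho k 6 g f) = ρ g (F f))
    (f : Cochains.A D k 6) : F f = (Nst k t6)⁻¹ • Psi ρ t6 (F (alt k t6 ok6)) f := by
  have h := hom_recon ρ (R6 h2 h3) F hF f
  rw [h]
  exact Fintype.sum_unique (ι := Unit) _

lemma hom5 (F : Cochains.A D k 5 →ₗ[k] M) (hF : ∀ g f, F (rho k 5 g f) = ρ g (F f))
    (f : Cochains.A D k 5) : F f = (Nst k t5)⁻¹ • Psi ρ t5 (F (alt k t5 ok5)) f := by
  have h := hom_recon ρ (R5 h2) F hF f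
  rw [h]
  exact Fintype.sum_unique (ι := Unit) _

lemma hom3 (F : Cochains.A D k 3 →ₗ[k] M) (hF : ∀ g f, F (rho k 3 g f) = ρ g (F f))
    (f : Cochains.A D k 3) : F f = (Nst k t3)⁻¹ • Psi ρ t3 (F (alt k t3 ok3)) f := by
  have h := hom_recon ρ (R3 h2 h3) F hF f
  rw [h]
  exact Fintype.sum_unique (ι := Unit) _

lemma hom4 (F : Cochains.A D k 4 →ₗ[k] M) (hF : ∀ g f, F (rho k 4 g f) = ρ g (F f))
    (f : Cochains.A D k 4) : F f = (Nst k t4a)⁻¹ • Psi ρ t4a (F (alt k t4a ok4a)) f +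
      (Nst k t4b)⁻¹ • Psi ρ t4b (F (alt k t4b ok4b)) f := by
  have h := hom_recon ρ (R4 h2 h3) F hF f
  rw [h, add_comm]
  exact Fintype.sum_bool _

end

lemma Psi_zero {s : ℕ} {M : Type} [AddCommGroup M] [Module k M] (ρ : Representation k G M)
    (t : Fin s → Vx) : (Psi ρ t 0 : Cochains.A D k s →ₗ[k] M) = 0 :=
  (PsiL (k := k) ρ t).map_zero

lemma Psi_sub_eq {s : ℕ} {t : Fin s → Vx} {m v : V k} {c : k}
    (h : (Psi (repZ k) t (m - c • v) : Cochains.A D k s →ₗ[k] V k) = 0)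
    (f : Cochains.A D k s) : Psi (repZ k) t m f = c • Psi (repZ k) t v f := by
  have h1 : PsiL (k := k) (s := s) (repZ k) t (m - c • v) = 0 := h
  rw [map_sub, map_smul] at h1
  have h2 := LinearMap.congr_fun h1 f
  exact sub_eq_zero.1 h2

section

variable (h2 : (2 : k) ≠ 0) (h3 : (3 : k) ≠ 0)

include h2 h3

lemma Psi3_zero {m : V k} (hm : evV k lam3 m = 0) :
    (Psi (repZ k) t3 m : Cochains.A D k 3 →ₗ[k] V k) = 0 := by
  have hv : Psi (repZ k) t3 m (alt k t3 ok3) = 0 := by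
    refine Z3 h2 h3 (rel_of i3_inj ok3 good3 nodup3 (fun _ _ h => mem3 h) _ (hF_Psi t3 m)) ?_
    rw [fun_Psi (repZ k) ok3 (evV k lam3)
      (fun h π hx v => hlam_of (k := k) good3 (fun _ _ h => mem3 h) eq_lam3 h π hx v), hm, mul_zero]
  ext1 f
  rw [hom3 h2 h3 (repZ k) (Psi (repZ k) t3 m) (hF_Psi t3 m) f, hv]
  rw [Psi_zero]
  simp

lemma Psi4a_zero {m : V k} (hm : evV k lama m = 0) :
    (Psi (repZ k) t4a m : Cochains.A D k 4 →ₗ[k] V k) = 0 := by
  have hv : Psi (repZ k) t4a m (alt k t4a ok4a) = 0 := by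
    refine Z4a h2 h3 (rel_of i4a_inj ok4a good4a nodup4a (fun _ _ h => mem4a h) _ (hF_Psi t4a m)) ?_
    rw [fun_Psi (repZ k) ok4a (evV k lama)
      (fun h π hx v => hlam_of (k := k) good4a (fun _ _ h => mem4a h) eq_lama h π hx v), hm,
      mul_zero]
  ext1 f
  rw [hom4 h2 h3 (repZ k) (Psi (repZ k) t4a m) (hF_Psi t4a m) f, hv,
    Psi_disj (repZ k) ok4b (fun g π h => disj_ab g π h)]
  rw [Psi_zero, Psi_zero]
  simp

lemma Psi4b_zero {m : V k} (hA : evV k lamA m = 0) (hB : evV k lamB m = 0) :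
    (Psi (repZ k) t4b m : Cochains.A D k 4 →ₗ[k] V k) = 0 := by
  have hv : Psi (repZ k) t4b m (alt k t4b ok4b) = 0 := by
    refine Z4b h2 h3 (rel_of i4b_inj ok4b good4b nodup4b (fun _ _ h => mem4b h) _ (hF_Psi t4b m))
      ?_ ?_
    · rw [fun_Psi (repZ k) ok4b (evV k lamA)
        (fun h π hx v => hlam_of (k := k) good4b (fun _ _ h => mem4b h) eq_lamA h π hx v), hA,
        mul_zero]
    · rw [fun_Psi (repZ k) ok4b (evV k lamB)
        (fun h π hx v => hlam_of (k := k) good4b (fun _ _ h => mem4b h) eq_lamB h π hx v), hB,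
        mul_zero]
  ext1 f
  rw [hom4 h2 h3 (repZ k) (Psi (repZ k) t4b m) (hF_Psi t4b m) f, hv,
    Psi_disj (repZ k) ok4a (fun g π h => disj_ba g π h)]
  rw [Psi_zero, Psi_zero]
  simp

end

/-! ### The coboundaries on standard tuples -/

/-- one face -/
lemma Psi_face {s : ℕ} {e : Fin (s + 1) → Fin 6} {e' : Fin s → Fin 6} {i : Fin (s + 1)} {M : Mat}
    {P : Equiv.Perm (Fin s)} (hE : ∀ m : Fin s, E (e (i.succAbove m)) = vx (M *ᵥ uvec (e' (P m))))
    {g : G} (hg : g.1 = M) (m : V k) (f : Cochains.A D k s) :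
    (-1 : k) ^ (i : ℕ) • Psi (repZ k) (i.removeNth (E ∘ e)) m f =
      Psi (repZ k) (E ∘ e') (((((-1) ^ (i : ℕ) * (Equiv.Perm.sign P : ℤ) : ℤ) : k)) •
        repZ k g⁻¹ m) f := by
  rw [face_eq hE hg, Psi_perm, Psi_smul_tuple, Psi_smul, LinearMap.smul_apply,
    LinearMap.smul_apply, smul_smul]
  push_cast
  rfl

lemma ev_face {M B : Mat} {g : G} (hg : g.1 = M) (hg' : (g⁻¹).1 = B) (c : ℤ) (ξ : I → ℤ)
    (m : V k) : evV k ξ ((c : k) • repZ k g⁻¹ m) = evV k (c • (ξ ᵥ* actM B M)) m := by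
  rw [map_smul, evV_act, hg', inv_inv, hg, evV_zsmul]
  rfl

/-- the coboundary formula for the facet type -/
lemma del5 (m : V k) : ∃ m' : V k,
    (∀ f : Cochains.A D k 4, Psi (repZ k) t5 m (del D k 4 f) =
      Psi (repZ k) t4a m f + Psi (repZ k) t4b m' f) ∧
    evV k lamA m' = 0 ∧ evV k lamB m' = evV k D5bB m := by
  obtain ⟨g0, a0, b0⟩ := faceG fD5_0
  obtain ⟨g1, a1, b1⟩ := faceG fD5_1
  obtain ⟨g2, a2, b2⟩ := faceG fD5_2
  obtain ⟨g3, a3, b3⟩ := faceG fD5_3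
  obtain ⟨g4, a4, b4⟩ := faceG fD5_4
  refine ⟨((1 : ℤ) : k) • repZ k g1⁻¹ m + ((1 : ℤ) : k) • repZ k g2⁻¹ m +
    ((-1 : ℤ) : k) • repZ k g3⁻¹ m + ((1 : ℤ) : k) • repZ k g4⁻¹ m, ?_, ?_, ?_⟩
  · intro f
    have h := Psi_del (repZ k) ok5 m f
    rw [Fin.sum_univ_five] at h
    have e0 := Psi_face (k := k) fE5_0 a0 m f
    have e1 := Psi_face (k := k) fE5_1 a1 m f
    have e2 := Psi_face (k := k) fE5_2 a2 m f
    have e3 := Psi_face (k := k) fE5_3 a3 m f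
    have e4 := Psi_face (k := k) fE5_4 a4 m f
    rw [fS5_0] at e0
    rw [fS5_1] at e1
    rw [fS5_2] at e2
    rw [fS5_3] at e3
    rw [fS5_4] at e4
    have hg0 : g0 = 1 := by
      apply Subtype.ext
      rw [a0]
      decide +kernel
    rw [hg0, inv_one, map_one, Module.End.one_apply] at e0
    rw [h]
    change (-1 : k) ^ ((0 : Fin 5) : ℕ) • Psi (repZ k) (Fin.removeNth 0 (E ∘ i5)) m f +
      (-1 : k) ^ ((1 : Fin 5) : ℕ) • Psi (repZ k) (Fin.removeNth 1 (E ∘ i5)) m f +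
      (-1 : k) ^ ((2 : Fin 5) : ℕ) • Psi (repZ k) (Fin.removeNth 2 (E ∘ i5)) m f +
      (-1 : k) ^ ((3 : Fin 5) : ℕ) • Psi (repZ k) (Fin.removeNth 3 (E ∘ i5)) m f +
      (-1 : k) ^ ((4 : Fin 5) : ℕ) • Psi (repZ k) (Fin.removeNth 4 (E ∘ i5)) m f = _
    rw [e0, e1, e2, e3, e4]
    rw [Psi_add, Psi_add, Psi_add]
    simp only [LinearMap.add_apply]
    have c0 : ((((-1) ^ ((0 : Fin 5) : ℕ) * ((1 : ℤˣ) : ℤ) : ℤ) : k)) • m = m := by
      simp
    rw [c0]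
    have c1 : ((-1) ^ ((1 : Fin 5) : ℕ) * ((-1 : ℤˣ) : ℤ) : ℤ) = 1 := by decide
    have c2 : ((-1) ^ ((2 : Fin 5) : ℕ) * ((1 : ℤˣ) : ℤ) : ℤ) = 1 := by decide
    have c3 : ((-1) ^ ((3 : Fin 5) : ℕ) * ((1 : ℤˣ) : ℤ) : ℤ) = -1 := by decide
    have c4 : ((-1) ^ ((4 : Fin 5) : ℕ) * ((1 : ℤˣ) : ℤ) : ℤ) = 1 := by decide
    rw [c1, c2, c3, c4]
    change Psi (repZ k) t4a m f + _ + _ + _ + _ = _
    simp only [add_assoc]
    rfl
  · rw [map_add, map_add, map_add, ev_face a1 b1, ev_face a2 b2, ev_face a3 b3, ev_face a4 b4,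
      ← evV_add, ← evV_add, ← evV_add]
    have : (1 : ℤ) • (lamA ᵥ* actM fB5_1 fM5_1) + (1 : ℤ) • (lamA ᵥ* actM fB5_2 fM5_2) +
        (-1 : ℤ) • (lamA ᵥ* actM fB5_3 fM5_3) + (1 : ℤ) • (lamA ᵥ* actM fB5_4 fM5_4) = 0 := by
      decide +kernel
    rw [this]
    exact ev_zero _
  · rw [map_add, map_add, map_add, ev_face a1 b1, ev_face a2 b2, ev_face a3 b3, ev_face a4 b4,
      ← evV_add, ← evV_add, ← evV_add]
    have : (1 : ℤ) • (lamB ᵥ* actM fB5_1 fM5_1) + (1 : ℤ) • (lamB ᵥ* actM fB5_2 fM5_2) +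
        (-1 : ℤ) • (lamB ᵥ* actM fB5_3 fM5_3) + (1 : ℤ) • (lamB ᵥ* actM fB5_4 fM5_4) = D5bB := by
      decide +kernel
    rw [this]

/-- the coboundary formula for the four-cycle type -/
lemma del4a (m : V k) : ∃ m' : V k,
    (∀ f : Cochains.A D k 3, Psi (repZ k) t4a m (del D k 3 f) = Psi (repZ k) t3 m' f) ∧
    evV k lam3 m' = 0 := by
  obtain ⟨g0, a0, b0⟩ := faceG fD4a_0
  obtain ⟨g1, a1, b1⟩ := faceG fD4a_1
  obtain ⟨g2, a2, b2⟩ := faceG fD4a_2
  obtain ⟨g3, a3, b3⟩ := faceG fD4a_3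
  refine ⟨((1 : ℤ) : k) • repZ k g0⁻¹ m + ((-1 : ℤ) : k) • repZ k g1⁻¹ m +
    ((-1 : ℤ) : k) • repZ k g2⁻¹ m + ((1 : ℤ) : k) • repZ k g3⁻¹ m, ?_, ?_⟩
  · intro f
    have h := Psi_del (repZ k) ok4a m f
    rw [Fin.sum_univ_four] at h
    have e0 := Psi_face (k := k) fE4a_0 a0 m f
    have e1 := Psi_face (k := k) fE4a_1 a1 m f
    have e2 := Psi_face (k := k) fE4a_2 a2 m f
    have e3 := Psi_face (k := k) fE4a_3 a3 m f
    rw [fS4a_0] at e0
    rw [fS4a_1] at e1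
    rw [fS4a_2] at e2
    rw [fS4a_3] at e3
    rw [h]
    change (-1 : k) ^ ((0 : Fin 4) : ℕ) • Psi (repZ k) (Fin.removeNth 0 (E ∘ i4a)) m f +
      (-1 : k) ^ ((1 : Fin 4) : ℕ) • Psi (repZ k) (Fin.removeNth 1 (E ∘ i4a)) m f +
      (-1 : k) ^ ((2 : Fin 4) : ℕ) • Psi (repZ k) (Fin.removeNth 2 (E ∘ i4a)) m f +
      (-1 : k) ^ ((3 : Fin 4) : ℕ) • Psi (repZ k) (Fin.removeNth 3 (E ∘ i4a)) m f = _
    rw [e0, e1, e2, e3]
    rw [Psi_add, Psi_add, Psi_add]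
    simp only [LinearMap.add_apply]
    have c0 : ((-1) ^ ((0 : Fin 4) : ℕ) * ((1 : ℤˣ) : ℤ) : ℤ) = 1 := by decide
    have c1 : ((-1) ^ ((1 : Fin 4) : ℕ) * ((1 : ℤˣ) : ℤ) : ℤ) = -1 := by decide
    have c2 : ((-1) ^ ((2 : Fin 4) : ℕ) * ((-1 : ℤˣ) : ℤ) : ℤ) = -1 := by decide
    have c3 : ((-1) ^ ((3 : Fin 4) : ℕ) * ((-1 : ℤˣ) : ℤ) : ℤ) = 1 := by decide
    rw [c0, c1, c2, c3]
    rfl
  · rw [map_add, map_add, map_add, ev_face a0 b0, ev_face a1 b1, ev_face a2 b2, ev_face a3 b3,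
      ← evV_add, ← evV_add, ← evV_add]
    have : (1 : ℤ) • (lam3 ᵥ* actM fB4a_0 fM4a_0) + (-1 : ℤ) • (lam3 ᵥ* actM fB4a_1 fM4a_1) +
        (-1 : ℤ) • (lam3 ᵥ* actM fB4a_2 fM4a_2) + (1 : ℤ) • (lam3 ᵥ* actM fB4a_3 fM4a_3) = 0 := by
      decide +kernel
    rw [this]
    exact ev_zero _

lemma tri_det : ∀ a b c : Fin 3, ∀ x y z : Bool,
    det3 (sv x (uvec (![0, 1, 3] a))) (sv y (uvec (![0, 1, 3] b))) (sv z (uvec (![0, 1, 3] c))) = 0 := by
  decide +kernel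

/-- the triangle does not span -/
lemma not_ok_tri : ¬ OK D (Fin.removeNth (2 : Fin 4) t4b) := by
  rintro ⟨-, ⟨a, b, c, ha, hb, hc, hdet⟩, -⟩
  have key : ∀ a, vx a ∈ rng (Fin.removeNth (2 : Fin 4) t4b) →
      ∃ (i : Fin 3) (x : Bool), a = sv x (uvec (![0, 1, 3] i)) := by
    intro a ha
    obtain ⟨i, hi⟩ := (mem_rng _ _).1 ha
    have h1 : Fin.removeNth (2 : Fin 4) t4b i = vx (uvec (![0, 1, 3] i)) := by
      fin_cases i <;> rfl
    rw [h1] at hi
    obtain ⟨x, hx⟩ := vx_eq hi.symm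
    exact ⟨i, x, hx⟩
  obtain ⟨i, x, rfl⟩ := key a ha
  obtain ⟨j, y, rfl⟩ := key b hb
  obtain ⟨l, z, rfl⟩ := key c hc
  apply hdet
  have h1 := tri_det i j l x y z
  unfold det3 at h1
  rw [Matrix.det_fin_three]
  simp only [Matrix.of_apply, Matrix.cons_val_zero, Matrix.cons_val_one, Matrix.cons_val] at h1 ⊢
  linarith

/-- the coboundary formula for the remaining type -/
lemma del4b (m : V k) : ∃ m' : V k,
    (∀ f : Cochains.A D k 3, Psi (repZ k) t4b m (del D k 3 f) = Psi (repZ k) t3 m' f) ∧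
    evV k lam3 m' = - evV k lamA m := by
  obtain ⟨g0, a0, b0⟩ := faceG fD4b_0
  obtain ⟨g1, a1, b1⟩ := faceG fD4b_1
  obtain ⟨g3, a3, b3⟩ := faceG fD4b_3
  refine ⟨((-1 : ℤ) : k) • repZ k g0⁻¹ m + ((1 : ℤ) : k) • repZ k g1⁻¹ m +
    ((-1 : ℤ) : k) • repZ k g3⁻¹ m, ?_, ?_⟩
  · intro f
    have h := Psi_del (repZ k) ok4b m f
    rw [Fin.sum_univ_four] at h
    have e0 := Psi_face (k := k) fE4b_0 a0 m f
    have e1 := Psi_face (k := k) fE4b_1 a1 m f
    have e3 := Psi_face (k := k) fE4b_3 a3 m f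
    rw [fS4b_0] at e0
    rw [fS4b_1] at e1
    rw [fS4b_3] at e3
    rw [Psi_not (repZ k) not_ok_tri, LinearMap.zero_apply, smul_zero] at h
    rw [h]
    change (-1 : k) ^ ((0 : Fin 4) : ℕ) • Psi (repZ k) (Fin.removeNth 0 (E ∘ i4b)) m f +
      (-1 : k) ^ ((1 : Fin 4) : ℕ) • Psi (repZ k) (Fin.removeNth 1 (E ∘ i4b)) m f + 0 +
      (-1 : k) ^ ((3 : Fin 4) : ℕ) • Psi (repZ k) (Fin.removeNth 3 (E ∘ i4b)) m f = _
    rw [e0, e1, e3]
    rw [Psi_add, Psi_add, add_zero]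
    simp only [LinearMap.add_apply]
    have c0 : ((-1) ^ ((0 : Fin 4) : ℕ) * ((-1 : ℤˣ) : ℤ) : ℤ) = -1 := by decide
    have c1 : ((-1) ^ ((1 : Fin 4) : ℕ) * ((-1 : ℤˣ) : ℤ) : ℤ) = 1 := by decide
    have c3 : ((-1) ^ ((3 : Fin 4) : ℕ) * ((1 : ℤˣ) : ℤ) : ℤ) = -1 := by decide
    rw [c0, c1, c3]
    rfl
  · rw [map_add, map_add, ev_face a0 b0, ev_face a1 b1, ev_face a3 b3, ← evV_add, ← evV_add]
    have : (-1 : ℤ) • (lam3 ᵥ* actM fB4b_0 fM4b_0) + (1 : ℤ) • (lam3 ᵥ* actM fB4b_1 fM4b_1) +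
        (-1 : ℤ) • (lam3 ᵥ* actM fB4b_3 fM4b_3) = (-1 : ℤ) • lamA := by
      decide +kernel
    rw [this, evV_zsmul]
    push_cast
    ring

/-! ### Vanishing -/

/-- integral vectors in `V k` -/
def vecZ (v : I → ℤ) (hv : (∀ i j l, v (i, j, l) = v (i, l, j)) ∧
    ∀ l, v (0, 0, l) + v (1, 1, l) + v (2, 2, l) = 0) : V k :=
  ⟨fun x => (v x : k), fun i j l => by simp only [hv.1 i j l], fun l => by
    have := congrArg (fun z : ℤ => (z : k)) (hv.2 l)
    push_cast at this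
    exact this⟩

lemma evV_vecZ (ξ v : I → ℤ) (hv) : evV k ξ (vecZ v hv) = ((∑ x, ξ x * v x : ℤ) : k) := by
  rw [evV_apply]
  unfold ev vecZ
  push_cast
  rfl

def w1 : I → ℤ := tens ![![![0, 0, 0], ![0, -1, 0], ![0, 0, 1]], ![![0, 0, 0], ![0, 0, 0], ![0, 0, 0]],
  ![![0, 0, 0], ![0, 0, 0], ![0, 0, 0]]]

def w2 : I → ℤ := tens ![![![0, 0, 0], ![0, 0, 0], ![0, 0, 0]], ![![1, 0, 0], ![0, 0, 0], ![0, 0, 0]],
  ![![0, 0, 0], ![0, 0, 0], ![0, 0, 0]]]

def w3 : I → ℤ := tens ![![![0, 0, 0], ![0, 0, 0], ![0, 0, 0]], ![![0, 0, 0], ![0, 0, 0], ![0, 0, 0]],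
  ![![1, 0, 0], ![0, 0, 0], ![0, 0, 0]]]

lemma w1_mem : (∀ i j l, w1 (i, j, l) = w1 (i, l, j)) ∧
    ∀ l, w1 (0, 0, l) + w1 (1, 1, l) + w1 (2, 2, l) = 0 := by decide +kernel
lemma w2_mem : (∀ i j l, w2 (i, j, l) = w2 (i, l, j)) ∧
    ∀ l, w2 (0, 0, l) + w2 (1, 1, l) + w2 (2, 2, l) = 0 := by decide +kernel
lemma w3_mem : (∀ i j l, w3 (i, j, l) = w3 (i, l, j)) ∧
    ∀ l, w3 (0, 0, l) + w3 (1, 1, l) + w3 (2, 2, l) = 0 := by decide +kernel

/-- **Vanishing of the cohomology of `SL_3(ℤ)`** with coefficients in the 15-dimensional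
representation, in all degrees. -/
theorem vanishing (h2 : (2 : k) ≠ 0) (h3 : (3 : k) ≠ 0) (n : ℕ) :
    Subsingleton (groupCohomology (Rep.of (repZ k)) n) := by
  refine (E4 h2 h3).vanish (Rep.of (repZ k)) ?_ ?_ ?_ ?_ n
  · -- degree 0
    intro x _
    have hF := lin_equiv x
    have hv : lin x (alt k t6 ok6) = 0 :=
      Z6 h2 (rel_of (e := id) (fun _ _ h => h) ok6 good6 nodup6 (fun _ _ h => mem6 h) (lin x) hF)
    apply ext_hom
    intro f
    rw [← lin_apply, hom6 h2 h3 (repZ k) (lin x) hF f, hv, Psi_zero]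
    simp
    rfl
  · -- degree 1
    intro x hx
    refine ⟨0, ?_⟩
    rw [Limits.comp_zero]
    symm
    have hF := lin_equiv x
    have hx' : ∀ f : Cochains.A D k 4, lin x (del D k 4 f) = 0 := by
      intro f
      have := congrArg (fun F : AR k 4 ⟶ Rep.of (repZ k) => F.hom f) hx
      exact this
    have hN5 := N5 (k := k) h2
    have hNa := N4a h2 h3
    have hNb := N4b h2 h3
    obtain ⟨m', h1, -, hB⟩ := del5 (lin x (alt k t5 ok5))
    have h0 : ∀ f : Cochains.A D k 4, Psi (repZ k) t4a (lin x (alt k t5 ok5)) f +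
        Psi (repZ k) t4b m' f = 0 := by
      intro f
      have h4 := hx' f
      rw [hom5 h2 h3 (repZ k) (lin x) hF (del D k 4 f), h1 f] at h4
      exact (smul_eq_zero.1 h4).resolve_left (inv_ne_zero hN5)
    have ha : evV k lama (lin x (alt k t5 ok5)) = 0 := by
      have h4 := h0 (alt k t4a ok4a)
      rw [Psi_disj (repZ k) ok4a (fun g π h => disj_ba g π h), add_zero] at h4
      have h5 := fun_Psi (repZ k) ok4a (evV k lama)
        (fun h π hx v => hlam_of (k := k) good4a (fun _ _ h => mem4a h) eq_lama h π hx v)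
        (lin x (alt k t5 ok5))
      rw [h4, map_zero] at h5
      exact (mul_eq_zero.1 h5.symm).resolve_left hNa
    have hb : evV k D5bB (lin x (alt k t5 ok5)) = 0 := by
      have h4 := h0 (alt k t4b ok4b)
      rw [Psi_disj (repZ k) ok4b (fun g π h => disj_ab g π h), zero_add] at h4
      have h5 := fun_Psi (repZ k) ok4b (evV k lamB)
        (fun h π hx v => hlam_of (k := k) good4b (fun _ _ h => mem4b h) eq_lamB h π hx v) m'
      rw [h4, map_zero] at h5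
      rw [← hB]
      exact (mul_eq_zero.1 h5.symm).resolve_left hNb
    have hv : lin x (alt k t5 ok5) = 0 :=
      Z5 h2 (rel_of i5_inj ok5 good5 nodup5 (fun _ _ h => mem5 h) (lin x) hF) ha hb
    apply ext_hom
    intro f
    rw [← lin_apply, hom5 h2 h3 (repZ k) (lin x) hF f, hv, Psi_zero]
    simp
    rfl
  · -- degree 2
    intro x hx
    have hF := lin_equiv x
    have hx' : ∀ f : Cochains.A D k 3, lin x (del D k 3 f) = 0 := by
      intro f
      have := congrArg (fun F : AR k 3 ⟶ Rep.of (repZ k) => F.hom f) hx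
      exact this
    have hN3 := N3 h2 h3
    have hNa := N4a h2 h3
    have hNb := N4b h2 h3
    set va := lin x (alt k t4a ok4a) with hva
    set vb := lin x (alt k t4b ok4b) with hvb
    obtain ⟨ma, ha1, ha2⟩ := del4a (k := k) va
    obtain ⟨mb, hb1, hb2⟩ := del4b (k := k) vb
    have hA : evV k lamA vb = 0 := by
      have h4 := hx' (alt k t3 ok3)
      rw [hom4 h2 h3 (repZ k) (lin x) hF (del D k 3 _), ← hva, ← hvb, ha1, hb1] at h4
      have h5 := fun_Psi (repZ k) ok3 (evV k lam3)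
        (fun h π hx v => hlam_of (k := k) good3 (fun _ _ h => mem3 h) eq_lam3 h π hx v) ma
      have h6 := fun_Psi (repZ k) ok3 (evV k lam3)
        (fun h π hx v => hlam_of (k := k) good3 (fun _ _ h => mem3 h) eq_lam3 h π hx v) mb
      have h7 := congrArg (evV k lam3) h4
      rw [map_add, map_smul, map_smul] at h7
      erw [h5, h6] at h7
      rw [ha2, hb2, map_zero] at h7
      simp only [mul_zero, smul_zero, zero_add, smul_eq_mul] at h7
      have h8 : Nst k t3 * evV k lamA vb = 0 := by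
        have := (mul_eq_zero.1 h7).resolve_left (inv_ne_zero hNb)
        linear_combination -this
      exact (mul_eq_zero.1 h8).resolve_left hN3
    -- the primitive
    let β : k := (Nst k t4b)⁻¹ * evV k lamB vb
    let α : k := ((Nst k t4a)⁻¹ * evV k lama va - 2 * β) / 8
    have h8 : (8 : k) ≠ 0 := by
      have : (8 : k) = 2 ^ 3 := by norm_num
      rw [this]
      exact pow_ne_zero _ h2
    let m5 : V k := α • vecZ w1 w1_mem + β • vecZ w2 w2_mem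
    have e1 : evV k lama m5 = (Nst k t4a)⁻¹ * evV k lama va := by
      have c1 : (∑ x, lama x * w1 x : ℤ) = 8 := by decide +kernel
      have c2 : (∑ x, lama x * w2 x : ℤ) = 2 := by decide +kernel
      simp only [m5, map_add, map_smul, evV_vecZ, c1, c2, smul_eq_mul, α]
      push_cast
      field_simp
      ring
    have e2 : evV k D5bB m5 = (Nst k t4b)⁻¹ * evV k lamB vb := by
      have c1 : (∑ x, D5bB x * w1 x : ℤ) = 0 := by decide +kernel
      have c2 : (∑ x, D5bB x * w2 x : ℤ) = 1 := by decide +kernel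
      simp only [m5, map_add, map_smul, evV_vecZ, c1, c2, smul_eq_mul, β]
      push_cast
      ring
    obtain ⟨m', h1, hA', hB'⟩ := del5 m5
    refine ⟨homPsi t5 (Rep.of (repZ k)) m5, ?_⟩
    apply ext_hom
    intro f
    change Psi (repZ k) t5 m5 (del D k 4 f) = _
    rw [h1 f, ← lin_apply, hom4 h2 h3 (repZ k) (lin x) hF f, ← hva, ← hvb]
    have p1 : (Psi (repZ k) t4a (m5 - (Nst k t4a)⁻¹ • va) : Cochains.A D k 4 →ₗ[k] V k) = 0 := by
      apply Psi4a_zero h2 h3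
      rw [map_sub, map_smul, e1, smul_eq_mul, sub_self]
    have p2 : (Psi (repZ k) t4b (m' - (Nst k t4b)⁻¹ • vb) : Cochains.A D k 4 →ₗ[k] V k) = 0 := by
      apply Psi4b_zero h2 h3
      · rw [map_sub, map_smul, hA', hA, smul_zero, sub_zero]
      · rw [map_sub, map_smul, hB', e2, smul_eq_mul, sub_self]
    have q1 : Psi (repZ k) t4a m5 f = (Nst k t4a)⁻¹ • Psi (repZ k) t4a va f :=
      Psi_sub_eq p1 f
    have q2 : Psi (repZ k) t4b m' f = (Nst k t4b)⁻¹ • Psi (repZ k) t4b vb f :=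
      Psi_sub_eq p2 f
    rw [q1, q2]
  · -- degree 3
    intro x
    have hF := lin_equiv x
    have hN3 := N3 h2 h3
    set v := lin x (alt k t3 ok3) with hv
    let c : k := (Nst k t3)⁻¹ * evV k lam3 v / (-2)
    let mb : V k := c • vecZ w3 w3_mem
    obtain ⟨m', h1, hm'⟩ := del4b mb
    refine ⟨homPsi t4b (Rep.of (repZ k)) mb, ?_⟩
    apply ext_hom
    intro f
    change Psi (repZ k) t4b mb (del D k 3 f) = _
    rw [h1 f, ← lin_apply, hom3 h2 h3 (repZ k) (lin x) hF f, ← hv]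
    have p1 : (Psi (repZ k) t3 (m' - (Nst k t3)⁻¹ • v) : Cochains.A D k 3 →ₗ[k] V k) = 0 := by
      apply Psi3_zero h2 h3
      have c1 : (∑ x, lamA x * w3 x : ℤ) = 2 := by decide +kernel
      rw [map_sub, map_smul, hm']
      simp only [mb, map_smul, evV_vecZ, c1, smul_eq_mul, c]
      push_cast
      field_simp
      ring
    have q1 : Psi (repZ k) t3 m' f = (Nst k t3)⁻¹ • Psi (repZ k) t3 v f :=
      Psi_sub_eq p1 f
    rw [q1]

end Pool.Agent.H320R3.Van
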